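import Pool.Agent.H43.BC.D0

set_option autoImplicit false
set_option linter.unusedSectionVars false

/-! Smoothing of the discrepancies. -/

namespace Pool.Agent.H43.BC

open Finset

theorem Fs_congr (R w len k b b' : ℕ) (h : b ≡ b' [MOD k]) : Fs R w len k b = Fs R w len k b' := by
  unfold Fs
  have h1 : (Ico w (w + len)).filter (fun v => v ≡ b [MOD k]) =
      (Ico w (w + len)).filter (fun v => v ≡ b' [MOD k]) := by
    apply filter_congr
    intro v _
    exact ⟨fun h2 => h2.trans h, fun h2 => h2.trans h.symm⟩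
  have h2 : b.Coprime k ↔ b'.Coprime k := by
    unfold Nat.Coprime
    rw [h.gcd_eq]
  rw [h1]
  simp only [h2]

/-- the non-coprime classes -/
theorem Fs_zero (R w len k b : ℕ) (hR : ∀ p : ℕ, p.Prime → p ∣ k → p ≤ R) (hb : ¬ b.Coprime k) :
    Fs R w len k b = 0 := by
  unfold Fs
  rw [if_neg hb, sub_zero, abs_eq_zero]
  apply sum_eq_zero
  intro v hv
  have h3 := (mem_filter.1 hv).2
  unfold th
  rw [if_neg]
  rintro ⟨hp, hRu⟩
  apply hb
  have h4 : v.Coprime k := by
    rw [Nat.Prime.coprime_iff_not_dvd hp]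
    intro h5
    have := hR v hp h5
    omega
  unfold Nat.Coprime at h4 ⊢
  rw [← h4]
  exact h3.symm.gcd_eq

theorem ap_le (R x y k b Y : ℕ) (hk : 1 ≤ k) (hxy : x ≤ y) (hY : y ≤ Y + 1) :
    0 ≤ ∑ v ∈ (Ico x y).filter (fun v => v ≡ b [MOD k]), th R v ∧
    ∑ v ∈ (Ico x y).filter (fun v => v ≡ b [MOD k]), th R v ≤ (((y : ℝ) - x) / k + 1) * Real.log Y := by
  refine ⟨sum_nonneg fun v _ => th_nonneg R v, ?_⟩
  calc _ ≤ ∑ v ∈ (Ico x y).filter (fun v => v ≡ b [MOD k]), Real.log Y := by
        apply sum_le_sum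
        intro v hv
        have := (mem_Ico.1 (mem_filter.1 hv).1).2
        exact th_le R v Y (by omega)
    _ = (((Ico x y).filter (fun v => v ≡ b [MOD k])).card : ℝ) * Real.log Y := by
        rw [sum_const, nsmul_eq_mul]
    _ ≤ _ := mul_le_mul_of_nonneg_right (card_le x y k b hk hxy) (Real.log_natCast_nonneg Y)

theorem Fs_shift (R w len k b i Y : ℕ) (hk : 1 ≤ k) (hY : w + len + i ≤ Y + 1) :
    |Fs R w len k b - Fs R (w + i) len k b| ≤ ((i : ℝ) / k + 1) * Real.log Y := by
  unfold Fs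
  refine (abs_abs_sub_abs_le _ _).trans ?_
  have e1 := sum_split (th R) k b w (w + len) (w + len + i) (by omega) (by omega)
  have e2 := sum_split (th R) k b w (w + i) (w + len + i) (by omega) (by omega)
  have e3 : w + i + len = w + len + i := by ring
  rw [e3]
  have h1 := ap_le R (w + len) (w + len + i) k b Y hk (by omega) hY
  have h2 := ap_le R w (w + i) k b Y hk (by omega) (by omega)
  have e4 : (((w + len + i : ℕ) : ℝ) - ((w + len : ℕ) : ℝ)) = i := by push_cast; ring
  have e5 : (((w + i : ℕ) : ℝ) - (w : ℝ)) = i := by push_cast; ring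
  rw [e4] at h1
  rw [e5] at h2
  have e6 : ∑ v ∈ (Ico w (w + len)).filter (fun v => v ≡ b [MOD k]), th R v -
      (if b.Coprime k then (len : ℝ) / Nat.totient k else 0) -
      (∑ v ∈ (Ico (w + i) (w + len + i)).filter (fun v => v ≡ b [MOD k]), th R v -
        (if b.Coprime k then (len : ℝ) / Nat.totient k else 0)) =
      ∑ v ∈ (Ico w (w + i)).filter (fun v => v ≡ b [MOD k]), th R v -
        ∑ v ∈ (Ico (w + len) (w + len + i)).filter (fun v => v ≡ b [MOD k]), th R v := by
    linarith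
  rw [e6, abs_le]
  constructor <;> linarith [h1.1, h1.2, h2.1, h2.2]

/-- the full average of the discrepancies -/
noncomputable def VV (R w1 w2 len k : ℕ) : ℝ :=
  ∑ w ∈ Ico w1 w2, ∑ b ∈ (range k).filter (fun b => b.Coprime k), Fs R w len k b

theorem VV_nonneg (R w1 w2 len k : ℕ) : 0 ≤ VV R w1 w2 len k :=
  sum_nonneg fun _ _ => sum_nonneg fun _ _ => Fs_nonneg _ _ _ _ _

theorem VV_mono (R w1 w2 w1' w2' len k : ℕ) (h1 : w1' ≤ w1) (h2 : w2 ≤ w2') :
    VV R w1 w2 len k ≤ VV R w1' w2' len k := by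
  unfold VV
  apply sum_le_sum_of_subset_of_nonneg (Ico_subset_Ico h1 h2)
  intro w _ _
  exact sum_nonneg fun _ _ => Fs_nonneg _ _ _ _ _

/-- the smoothing -/
theorem smooth (R len k D W0 V2 Y : ℕ) (hk : 1 ≤ k) (hkD : k ≤ D) (hY : V2 + W0 + len + D ≤ Y + 1) :
    ∑ v ∈ (Ico 1 V2).filter (fun v => v.Coprime k), Fs R (v + W0) len k v ≤
      V2 * (((D : ℝ) / k + 1) * Real.log Y) + 2 / (k : ℝ) * VV R W0 (V2 + W0 + D) len k := by
  have hk0 : (0 : ℝ) < k := by exact_mod_cast hk
  have hD0 : (0 : ℝ) < D := by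
    have : 0 < D := by omega
    exact_mod_cast this
  obtain ⟨ρ, hρ⟩ : ∃ ρ, ρ = ((D : ℝ) / k + 1) * Real.log Y := ⟨_, rfl⟩
  have hlog := Real.log_natCast_nonneg Y
  have hρ0 : 0 ≤ ρ := by rw [hρ]; positivity
  rw [← hρ]
  obtain ⟨SV, hSV⟩ : ∃ SV, SV = (Ico 1 V2).filter (fun v => v.Coprime k) := ⟨_, rfl⟩
  rw [← hSV]
  -- each term
  have h1 : ∀ v ∈ SV, (D : ℝ) * Fs R (v + W0) len k v ≤
      ∑ i ∈ range D, Fs R (v + W0 + i) len k v + D * ρ := by
    intro v hv
    rw [hSV, mem_filter, mem_Ico] at hv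
    have e : (D : ℝ) * Fs R (v + W0) len k v = ∑ i ∈ range D, Fs R (v + W0) len k v := by
      rw [sum_const, card_range, nsmul_eq_mul]
    have e2 : (D : ℝ) * ρ = ∑ i ∈ range D, ρ := by
      rw [sum_const, card_range, nsmul_eq_mul]
    rw [e, e2, ← sum_add_distrib]
    apply sum_le_sum
    intro i hi
    rw [mem_range] at hi
    have h2 := Fs_shift R (v + W0) len k v i Y hk (by omega)
    rw [abs_le] at h2
    have h3 : ((i : ℝ) / k + 1) * Real.log Y ≤ ρ := by
      rw [hρ]
      apply mul_le_mul_of_nonneg_right _ hlog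
      have : (i : ℝ) ≤ D := by exact_mod_cast hi.le
      have := div_le_div_of_nonneg_right this hk0.le
      linarith
    linarith [h2.2]
  have h2 := sum_le_sum h1
  rw [← mul_sum, sum_add_distrib, sum_const, nsmul_eq_mul] at h2
  -- the double sum
  have h3 : ∑ v ∈ SV, ∑ i ∈ range D, Fs R (v + W0 + i) len k v ≤
      2 * D / k * VV R W0 (V2 + W0 + D) len k := by
    have e1 : ∀ v ∈ SV, ∑ i ∈ range D, Fs R (v + W0 + i) len k v =
        ∑ w ∈ Ico W0 (V2 + W0 + D), if v + W0 ≤ w ∧ w < v + W0 + D then Fs R w len k v else 0 := by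
      intro v hv
      rw [hSV, mem_filter, mem_Ico] at hv
      rw [← sum_filter]
      apply sum_bij (fun i _ => v + W0 + i)
      · intro i hi
        rw [mem_range] at hi
        rw [mem_filter, mem_Ico]
        omega
      · intro i _ i' _ h
        omega
      · intro w hw
        rw [mem_filter, mem_Ico] at hw
        exact ⟨w - (v + W0), mem_range.2 (by omega), by omega⟩
      · intro i _
        rfl
    rw [sum_congr rfl e1, sum_comm]
    unfold VV
    rw [mul_sum]
    apply sum_le_sum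
    intro w _
    rw [← sum_filter, mul_sum]
    have e2 : ∀ v ∈ SV.filter (fun v => v + W0 ≤ w ∧ w < v + W0 + D),
        v % k ∈ (range k).filter (fun b => b.Coprime k) := by
      intro v hv
      rw [mem_filter] at hv
      have hv1 := hv.1
      rw [hSV, mem_filter] at hv1
      rw [mem_filter, mem_range]
      refine ⟨Nat.mod_lt _ hk, ?_⟩
      have h5 := hv1.2
      unfold Nat.Coprime at h5 ⊢
      rw [← h5]
      exact (Nat.mod_modEq v k).gcd_eq
    rw [← sum_fiberwise_of_maps_to e2]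
    apply sum_le_sum
    intro b hb
    have e3 : ∀ v ∈ (SV.filter (fun v => v + W0 ≤ w ∧ w < v + W0 + D)).filter (fun v => v % k = b),
        Fs R w len k v = Fs R w len k b := by
      intro v hv
      rw [mem_filter] at hv
      apply Fs_congr
      have := (Nat.mod_modEq v k).symm
      rw [hv.2] at this
      exact this
    rw [sum_congr rfl e3, sum_const, nsmul_eq_mul]
    apply mul_le_mul_of_nonneg_right _ (Fs_nonneg _ _ _ _ _)
    have h6 : ((SV.filter (fun v => v + W0 ≤ w ∧ w < v + W0 + D)).filter (fun v => v % k = b)).card ≤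
        ((Ico (w + 1 - W0 - D) (w + 1 - W0 - D + D)).filter (fun s => s ≡ b [MOD k])).card := by
      apply card_le_card
      intro v hv
      rw [mem_filter, mem_filter] at hv
      rw [mem_filter, mem_Ico]
      refine ⟨by omega, ?_⟩
      have := (Nat.mod_modEq v k).symm
      rw [hv.2] at this
      exact this
    have h7 := card_le (w + 1 - W0 - D) (w + 1 - W0 - D + D) k b hk (by omega)
    have h8 : (((w + 1 - W0 - D + D : ℕ) : ℝ) - ((w + 1 - W0 - D : ℕ) : ℝ)) = D := by
      push_cast; ring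
    rw [h8] at h7
    have h9 : (1 : ℝ) ≤ D / k := by
      rw [le_div_iff₀ hk0, one_mul]
      exact_mod_cast hkD
    have h10 : 2 * (D : ℝ) / k = D / k + D / k := by ring
    rw [h10]
    have h11 : (((SV.filter (fun v => v + W0 ≤ w ∧ w < v + W0 + D)).filter (fun v => v % k = b)).card : ℝ) ≤
        (((Ico (w + 1 - W0 - D) (w + 1 - W0 - D + D)).filter (fun s => s ≡ b [MOD k])).card : ℝ) := by
      exact_mod_cast h6
    linarith
  have hcard : (SV.card : ℝ) ≤ V2 := by
    have : SV.card ≤ V2 := by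
      rw [hSV]
      refine (card_filter_le _ _).trans ?_
      rw [Nat.card_Ico]
      omega
    exact_mod_cast this
  have h4 : (D : ℝ) * ∑ v ∈ SV, Fs R (v + W0) len k v ≤
      D * (V2 * ρ + 2 / (k : ℝ) * VV R W0 (V2 + W0 + D) len k) := by
    have h5 : (SV.card : ℝ) * (D * ρ) ≤ V2 * (D * ρ) := mul_le_mul_of_nonneg_right hcard (by positivity)
    calc _ ≤ _ := h2
      _ ≤ 2 * D / k * VV R W0 (V2 + W0 + D) len k + V2 * (D * ρ) := add_le_add h3 h5
      _ = _ := by ring
  exact le_of_mul_le_mul_left h4 hD0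

end Pool.Agent.H43.BC
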