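import Pool.Agent.H43.BC.AV1

set_option autoImplicit false
set_option linter.unusedSectionVars false

/-! The average over the classes of the errors with two primes. -/

namespace Pool.Agent.H43.BC

open Finset

section loc
variable {Q : Type} [Fintype Q]

/-- local weight, linear form -/
noncomputable def gl (t : ℕ) (c : ℤ) (e f : Q → ℤ) (a : ℕ) : ℝ :=
  2 / (t : ℝ) + ∑ q : Q, if (t : ℤ) ∣ c + e q * (2 * (a : ℤ) + f q) then (1 : ℝ) else 0

/-- local weight -/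
noncomputable def gw (t : ℕ) (pos : Q → ℕ) (x : ℕ × ℕ) : ℝ :=
  2 / (t : ℝ) + ∑ q : Q, if (t : ℤ) ∣ vv (pos q) x then (1 : ℝ) else 0

theorem gl_nonneg (t : ℕ) (c : ℤ) (e f : Q → ℤ) (a : ℕ) : 0 ≤ gl t c e f a := by
  unfold gl
  have : 0 ≤ ∑ q : Q, if (t : ℤ) ∣ c + e q * (2 * (a : ℤ) + f q) then (1 : ℝ) else 0 :=
    sum_nonneg fun q _ => by split_ifs <;> norm_num
  positivity

theorem gw_nonneg (t : ℕ) (pos : Q → ℕ) (x : ℕ × ℕ) : 0 ≤ gw t pos x := by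
  unfold gw
  have : 0 ≤ ∑ q : Q, if (t : ℤ) ∣ vv (pos q) x then (1 : ℝ) else 0 :=
    sum_nonneg fun q _ => by split_ifs <;> norm_num
  positivity

theorem gl_congr (t : ℕ) (c c' : ℤ) (e f e' f' : Q → ℤ) (a a' : ℕ)
    (h : ∀ q, (t : ℤ) ∣ (c + e q * (2 * (a : ℤ) + f q)) - (c' + e' q * (2 * (a' : ℤ) + f' q))) :
    gl t c e f a = gl t c' e' f' a' := by
  unfold gl
  congr 1
  refine sum_congr rfl fun q _ => ?_
  have h1 := h q
  have h2 : (t : ℤ) ∣ c + e q * (2 * (a : ℤ) + f q) ↔ (t : ℤ) ∣ c' + e' q * (2 * (a' : ℤ) + f' q) := by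
    constructor
    · intro h3
      have := dvd_sub h3 h1
      simpa using this
    · intro h3
      have := dvd_add h1 h3
      simpa using this
  simp only [h2]

theorem gl_mod (t : ℕ) (c : ℤ) (e f : Q → ℤ) (a : ℕ) : gl t c e f (a % t) = gl t c e f a := by
  apply gl_congr
  intro q
  have h1 : (t : ℤ) ∣ (a : ℤ) - ((a % t : ℕ) : ℤ) := Nat.modEq_iff_dvd.1 (Nat.mod_modEq a t)
  have h2 : c + e q * (2 * ((a % t : ℕ) : ℤ) + f q) - (c + e q * (2 * (a : ℤ) + f q)) =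
      -(2 * e q) * ((a : ℤ) - ((a % t : ℕ) : ℤ)) := by ring
  rw [h2]
  exact Dvd.dvd.mul_left h1 _

theorem gw_loc {P : Finset ℕ} (t : P) (pos : Q → ℕ) (x : ℕ × ℕ) :
    gw (t : ℕ) pos (loc x t) = gw (t : ℕ) pos x := by
  unfold gw
  congr 1
  refine sum_congr rfl fun q _ => ?_
  have h2 : ((t : ℕ) : ℤ) ∣ vv (pos q) (loc x t) ↔ ((t : ℕ) : ℤ) ∣ vv (pos q) x :=
    vv_congr _ _ _ _ (Nat.mod_modEq _ _) (Nat.mod_modEq _ _)
  simp only [h2]

theorem gw_gl (t q t0 u a b : ℕ) (hq : t ∣ q) (pos : Q → ℕ) (hu : u ≡ vn q t0 a b [MOD q]) :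
    gw t pos (a, b) = gl t u (fun j => (pos j : ℤ) - t0) (fun j => (pos j : ℤ) + t0) a := by
  unfold gw gl
  congr 1
  refine sum_congr rfl fun j _ => ?_
  have h1 : (t : ℤ) ∣ ((vn q t0 a b : ℕ) : ℤ) - (u : ℤ) := Nat.modEq_iff_dvd.1 (hu.of_dvd hq)
  have h3 : vv (pos j) (a, b) - ((u : ℤ) + ((pos j : ℤ) - t0) * (2 * (a : ℤ) + ((pos j : ℤ) + t0))) =
      ((vn q t0 a b : ℕ) : ℤ) - (u : ℤ) := by
    unfold vv vn
    push_cast
    ring
  have h2 : (t : ℤ) ∣ vv (pos j) (a, b) ↔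
      (t : ℤ) ∣ (u : ℤ) + ((pos j : ℤ) - t0) * (2 * (a : ℤ) + ((pos j : ℤ) + t0)) := by
    rw [← h3] at h1
    constructor
    · intro h4
      have := dvd_sub h4 h1
      simpa using this
    · intro h4
      have := dvd_add h1 h4
      simpa using this
  simp only [h2]

theorem gl_shift (t t0 δ u a : ℕ) (pos : Q → ℕ) :
    gl t u (fun j => (pos j : ℤ) - t0) (fun j => (pos j : ℤ) + t0) a =
    gl t ((u + δ * (2 * t0 + δ) + 2 * δ * a : ℕ) : ℤ) (fun j => (pos j : ℤ) - (t0 + δ : ℕ))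
      (fun j => (pos j : ℤ) + (t0 + δ : ℕ)) a := by
  apply gl_congr
  intro j
  have : (u : ℤ) + ((pos j : ℤ) - t0) * (2 * (a : ℤ) + ((pos j : ℤ) + t0)) -
      (((u + δ * (2 * t0 + δ) + 2 * δ * a : ℕ) : ℤ) + ((pos j : ℤ) - (t0 + δ : ℕ)) *
        (2 * (a : ℤ) + ((pos j : ℤ) + (t0 + δ : ℕ)))) = 0 := by
    push_cast
    ring
  rw [this]
  exact dvd_zero _

theorem lin (t : ℕ) (ht : t.Prime) (h2 : t ≠ 2) (c e f : ℤ) (hc : ¬ (t : ℤ) ∣ c) :
    ((range t).filter (fun x : ℕ => (t : ℤ) ∣ c + e * (2 * (x : ℤ) + f))).card ≤ 1 := by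
  have hpp : Prime (t : ℤ) := Nat.prime_iff_prime_int.1 ht
  by_cases he : (t : ℤ) ∣ e
  · have : (range t).filter (fun x : ℕ => (t : ℤ) ∣ c + e * (2 * (x : ℤ) + f)) = ∅ := by
      rw [filter_eq_empty_iff]
      intro x _ h
      apply hc
      have := dvd_sub h (Dvd.dvd.mul_right he (2 * (x : ℤ) + f))
      simpa using this
    rw [this, card_empty]
    omega
  · have h22 : ¬ (t : ℤ) ∣ 2 := by
      intro h
      have h3 : t ∣ 2 := by exact_mod_cast h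
      exact h2 ((Nat.prime_dvd_prime_iff_eq ht Nat.prime_two).1 h3)
    have h3 : ¬ (t : ℤ) ∣ e * 2 := fun h => (hpp.dvd_or_dvd h).elim he h22
    have h4 := one_a t ht (e * 2) (c + e * f) h3
    have h5 : (range t).filter (fun x : ℕ => (t : ℤ) ∣ c + e * (2 * (x : ℤ) + f)) =
        (range t).filter (fun x : ℕ => (t : ℤ) ∣ e * 2 * (x : ℤ) + (c + e * f)) := by
      apply filter_congr
      intro x _
      have : c + e * (2 * (x : ℤ) + f) = e * 2 * (x : ℤ) + (c + e * f) := by ring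
      rw [this]
    rw [h5, h4]

theorem gl_sum (t : ℕ) (ht : t.Prime) (h2 : t ≠ 2) (c : ℤ) (e f : Q → ℤ) (hc : ¬ (t : ℤ) ∣ c) :
    ∑ x ∈ range t, gl t c e f x ≤ 2 + Fintype.card Q := by
  unfold gl
  rw [sum_add_distrib, sum_const, card_range, nsmul_eq_mul]
  have h0 : (0 : ℝ) < t := by exact_mod_cast ht.pos
  apply add_le_add
  · rw [mul_div_cancel₀ _ h0.ne']
  · rw [sum_comm]
    have h1 : ∀ q ∈ (univ : Finset Q), ∑ x ∈ range t,
        (if (t : ℤ) ∣ c + e q * (2 * (x : ℤ) + f q) then (1 : ℝ) else 0) ≤ 1 := by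
      intro q _
      rw [← sum_filter, sum_const, nsmul_eq_mul, mul_one]
      exact_mod_cast lin t ht h2 c (e q) (f q) hc
    refine (sum_le_card_nsmul _ _ _ h1).trans ?_
    rw [card_univ, nsmul_eq_mul, mul_one]

end loc

section av
variable {Q : Type} [Fintype Q]
variable {P : Finset ℕ} (hP : ∀ p ∈ P, p.Prime) (h3 : ∀ p ∈ P, 3 ≤ p) (W : ℕ) (hW : ∀ p ∈ P, ¬ p ∣ W)
  (hW0 : 1 ≤ W)
include hP h3 hW hW0

theorem A0gl (s : ℕ) (c : ℤ) (e f : Q → ℤ) (T : Finset P) (hc : ∀ t ∈ T, ¬ ((t : ℕ) : ℤ) ∣ c) :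
    ∑ a ∈ A0 W (W * TT T) s, ∏ t ∈ T, gl (t : ℕ) c e f a ≤ (2 + Fintype.card Q : ℝ) ^ T.card := by
  have h1 := crt1 hP W hW hW0 s (fun t x => gl (t : ℕ) c e f x) T
  simp only [gl_mod] at h1
  rw [h1, ← prod_const]
  apply prod_le_prod
  · intro t _
    exact sum_nonneg fun x _ => gl_nonneg _ _ _ _ _
  · intro t ht
    have := h3 t t.2
    exact gl_sum t (hP t t.2) (by omega) c e f (hc t ht)

theorem A0gw (a r : ℕ) (pos : Q → ℕ) (T : Finset P) :
    ∑ b ∈ A0 W (W * TT T) r, ∏ t ∈ T, gw (t : ℕ) pos (a, b) ≤ (2 + Fintype.card Q : ℝ) ^ T.card := by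
  have h1 := crt1 hP W hW hW0 r (fun t x => gw (t : ℕ) pos (a, x)) T
  have h2 : ∀ (b : ℕ), ∀ t ∈ T, gw (t : ℕ) pos (a, b % (t : ℕ)) = gw (t : ℕ) pos (a, b) := by
    intro b t _
    rw [← gw_loc t pos (a, b % (t : ℕ)), ← gw_loc t pos (a, b)]
    unfold loc
    simp only [Nat.mod_mod]
  rw [sum_congr rfl (fun b _ => prod_congr rfl (h2 b))] at h1
  rw [h1, ← prod_const]
  apply prod_le_prod
  · intro t _
    exact sum_nonneg fun x _ => gw_nonneg _ _ _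
  · intro t ht
    have hp := hP t t.2
    unfold gw
    rw [sum_add_distrib, sum_const, card_range, nsmul_eq_mul]
    have h0 : (0 : ℝ) < ((t : ℕ) : ℝ) := by exact_mod_cast hp.pos
    apply add_le_add
    · rw [mul_div_cancel₀ _ h0.ne']
    · rw [sum_comm]
      have h5 : ∀ q ∈ (univ : Finset Q), ∑ x ∈ range (t : ℕ),
          (if ((t : ℕ) : ℤ) ∣ vv (pos q) (a, x) then (1 : ℝ) else 0) ≤ 1 := by
        intro q _
        rw [← sum_filter, sum_const, nsmul_eq_mul, mul_one]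
        have := one_c (t : ℕ) hp.pos (((a : ℤ) + (pos q : ℤ)) ^ 2)
        unfold vv
        simp only
        rw [this]
        norm_num
      refine (sum_le_card_nsmul _ _ _ h5).trans ?_
      rw [card_univ, nsmul_eq_mul, mul_one]

theorem A0card (s : ℕ) (T : Finset P) : ((A0 W (W * TT T) s).card : ℝ) = TT T := by
  have h1 := crt1 hP W hW hW0 s (fun _ _ => 1) T
  simp only [prod_const_one, sum_const, nsmul_eq_mul, mul_one, card_range] at h1
  rw [h1]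
  unfold TT
  push_cast
  rfl

/-- the average of the errors -/
theorem avg (h2W : 2 ∣ W) (pos : Q → ℕ) (R Y : ℕ) (M : ℕ → ℝ) (hM0 : ∀ q, 0 ≤ M q)
    (hRW : ∀ p : ℕ, p.Prime → p ∣ W → p ≤ R) (hRP : ∀ p ∈ P, p ≤ R)
    (m1 m2 A2 L K t0 δ D : ℕ) (hm2 : m2 = m1 + K * L) (hδ : 1 ≤ δ) (hδR : δ ≤ R)
    (s r : ℕ) (T : Finset P) (hRm : R + 1 ≤ m1)
    (hY : (m2 + t0 + δ) ^ 2 + A2 ≤ Y) (hkD : 2 * δ * (W * TT T) ≤ D)
    (hY2 : 2 * δ * (W * TT T) + D + 2 * δ * L ≤ Y) :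
    ∑ a ∈ A0 W (W * TT T) s, ∑ b ∈ A0 W (W * TT T) r, (∏ t ∈ T, gw (t : ℕ) pos (a, b)) *
      Er2 R Y M m1 m2 A2 L K t0 δ (W * TT T) a b ≤
    (2 + Fintype.card Q : ℝ) ^ T.card *
      (TT T * (2 * δ / Nat.totient (2 * δ * (W * TT T)) * (((m2 : ℝ) - m1) * (2 * M (W * TT T)))) +
       2 * (((L : ℝ) / (W * TT T : ℕ) + 1) * Real.log Y +
          2 * δ / Nat.totient (2 * δ * (W * TT T)) * L) * (Y * Real.log Y) +
       2 * Real.log Y * (K * (4 * Y * (((D : ℝ) / (2 * δ * (W * TT T) : ℕ) + 1) * Real.log (2 * Y : ℕ)) +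
          2 / (2 * δ * (W * TT T) : ℕ) * VV R (R + 1) (2 * Y) (2 * δ * L) (2 * δ * (W * TT T))))) := by
  classical
  have hTT := TT_pos hP W hW hW0 T
  obtain ⟨q, hq⟩ : ∃ q, q = W * TT T := ⟨_, rfl⟩
  have hq1 : 1 ≤ q := by rw [hq]; exact Nat.mul_pos hW0 hTT
  obtain ⟨k, hk⟩ : ∃ k, k = 2 * δ * q := ⟨_, rfl⟩
  have hk1 : 1 ≤ k := by rw [hk]; exact Nat.mul_pos (by omega) hq1
  obtain ⟨C, hC⟩ : ∃ C : ℝ, C = (2 + Fintype.card Q : ℝ) ^ T.card := ⟨_, rfl⟩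
  have hC0 : 0 ≤ C := by rw [hC]; positivity
  have htq : ∀ t ∈ T, (t : ℕ) ∣ q := fun t ht => by rw [hq]; exact (dvd_prod_of_mem _ ht).mul_left W
  have hA1 : ∀ (c : ℤ) (e f : Q → ℤ), (∀ t ∈ T, ¬ ((t : ℕ) : ℤ) ∣ c) →
      ∑ a ∈ A0 W q s, ∏ t ∈ T, gl (t : ℕ) c e f a ≤ C := by
    intro c e f hc
    rw [hC, hq]
    exact A0gl hP h3 W hW hW0 s c e f T hc
  have hA2 : ∀ a : ℕ, ∑ b ∈ A0 W q r, ∏ t ∈ T, gw (t : ℕ) pos (a, b) ≤ C := by
    intro a
    rw [hC, hq]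
    exact A0gw hP h3 W hW hW0 a r pos T
  have hA3 : ((A0 W q s).card : ℝ) = TT T := by rw [hq]; exact A0card hP h3 W hW hW0 s T
  have hkR : ∀ p : ℕ, p.Prime → p ∣ k → p ≤ R := by
    intro p hp hd
    rw [hk] at hd
    rcases (Nat.Prime.dvd_mul hp).1 hd with h1 | h1
    · rcases (Nat.Prime.dvd_mul hp).1 h1 with h2 | h2
      · exact hRW p hp (h2.trans h2W)
      · exact (Nat.le_of_dvd (by omega) h2).trans hδR
    · rw [hq] at h1
      rcases (Nat.Prime.dvd_mul hp).1 h1 with h | h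
      · exact hRW p hp h
      · unfold TT at h
        obtain ⟨t, ht, h5⟩ := (Prime.dvd_finsetProd_iff hp.prime _).1 h
        rw [(Nat.prime_dvd_prime_iff_eq hp (hP t t.2)).1 h5]
        exact hRP t t.2
  rw [← hq] at hkD hY2 ⊢
  rw [← hk] at hkD hY2 ⊢
  rw [← hC]
  obtain ⟨Y0, hY0⟩ : ∃ Y0, Y0 = (m2 + t0) ^ 2 + A2 := ⟨_, rfl⟩
  obtain ⟨c1, hc1⟩ : ∃ c1, c1 = δ * (2 * t0 + δ) := ⟨_, rfl⟩
  obtain ⟨len, hlen⟩ : ∃ len, len = 2 * δ * L := ⟨_, rfl⟩
  have hYe : Y0 + c1 + 2 * δ * m2 ≤ Y := by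
    have : (m2 + t0 + δ) ^ 2 + A2 = ((m2 + t0) ^ 2 + A2) + δ * (2 * t0 + δ) + 2 * δ * m2 := by ring
    omega
  obtain ⟨B, hB⟩ : ∃ B : ℝ, B = 2 * δ / Nat.totient k * (((m2 : ℝ) - m1) * (2 * M q)) := ⟨_, rfl⟩
  have hmm : (0 : ℝ) ≤ (m2 : ℝ) - m1 := by
    have : (m1 : ℝ) ≤ m2 := by exact_mod_cast (show m1 ≤ m2 by omega)
    linarith
  have hB0 : 0 ≤ B := by
    rw [hB]
    have := hM0 q
    positivity
  obtain ⟨cst, hcst⟩ : ∃ cst : ℝ, cst = 2 * (((L : ℝ) / q + 1) * Real.log Y +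
    2 * δ / Nat.totient k * L) := ⟨_, rfl⟩
  have hlogY := Real.log_natCast_nonneg Y
  have hlogY2 := Real.log_natCast_nonneg (2 * Y)
  have hcst0 : 0 ≤ cst := by rw [hcst]; positivity
  rw [← hB, ← hcst, ← hlen]
  obtain ⟨ρ, hρ⟩ : ∃ ρ, ρ = ((D : ℝ) / k + 1) * Real.log (2 * Y : ℕ) := ⟨_, rfl⟩
  have hρ0 : 0 ≤ ρ := by rw [hρ]; positivity
  rw [← hρ]
  -- the terms
  obtain ⟨Fj, hFj⟩ : ∃ Fj : ℕ → ℕ → ℕ → ℝ, Fj = fun j a u =>
    Fs R (u + c1 + 2 * δ * (m1 + j * L)) len k (u + c1 + 2 * δ * a) := ⟨_, rfl⟩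
  have hFj0 : ∀ j a u, 0 ≤ Fj j a u := by intro j a u; rw [hFj]; exact Fs_nonneg _ _ _ _ _
  obtain ⟨gu, hgu⟩ : ∃ gu : P → ℕ → ℕ → ℝ, gu = fun (t : P) (u a : ℕ) =>
    gl (t : ℕ) (u : ℤ) (fun j => (pos j : ℤ) - t0) (fun j => (pos j : ℤ) + t0) a := ⟨_, rfl⟩
  have hgu0 : ∀ t u a, 0 ≤ gu t u a := by intro t u a; rw [hgu]; exact gl_nonneg _ _ _ _ _
  have hPg0 : ∀ u a, 0 ≤ ∏ t ∈ T, gu t u a := fun u a => prod_nonneg fun t _ => hgu0 t u a
  -- S2
  have S2 : ∀ a, ∑ b ∈ A0 W q r, (∏ t ∈ T, gw (t : ℕ) pos (a, b)) *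
      (∑ u ∈ (Ico 1 Y0).filter (fun u => u ≡ vn q t0 a b [MOD q]), th R u *
        (2 * ∑ j ∈ range K, Fj j a u + cst)) ≤
      ∑ u ∈ Ico 1 Y0, (∏ t ∈ T, gu t u a) * (th R u * (2 * ∑ j ∈ range K, Fj j a u + cst)) := by
    intro a
    have e1 : ∀ b, (∏ t ∈ T, gw (t : ℕ) pos (a, b)) *
      (∑ u ∈ (Ico 1 Y0).filter (fun u => u ≡ vn q t0 a b [MOD q]), th R u *
        (2 * ∑ j ∈ range K, Fj j a u + cst)) =
        ∑ u ∈ Ico 1 Y0, if u ≡ vn q t0 a b [MOD q] then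
          (∏ t ∈ T, gu t u a) * (th R u * (2 * ∑ j ∈ range K, Fj j a u + cst)) else 0 := by
      intro b
      rw [mul_sum, ← sum_filter]
      refine sum_congr rfl fun u hu => ?_
      congr 1
      refine prod_congr rfl fun t ht => ?_
      rw [hgu]
      exact gw_gl _ q t0 u a b (htq t ht) pos (mem_filter.1 hu).2
    rw [sum_congr rfl (fun b _ => e1 b), sum_comm]
    apply sum_le_sum
    intro u _
    rw [← sum_filter, sum_const, nsmul_eq_mul]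
    have hx0 : 0 ≤ (∏ t ∈ T, gu t u a) * (th R u * (2 * ∑ j ∈ range K, Fj j a u + cst)) := by
      have h1 : 0 ≤ ∑ j ∈ range K, Fj j a u := sum_nonneg fun j _ => hFj0 j a u
      have h2 := th_nonneg R u
      have h4 := hPg0 u a
      positivity
    have hcard : ((A0 W q r).filter (fun b => u ≡ vn q t0 a b [MOD q])).card ≤ 1 := by
      rw [card_le_one]
      intro b hb b' hb'
      unfold A0 at hb hb'
      rw [mem_filter, mem_filter, mem_range] at hb hb'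
      have h1 : vn q t0 a b ≡ vn q t0 a b' [MOD q] := hb.2.symm.trans hb'.2
      unfold vn at h1
      have h2 : b ≡ b' [MOD q] := Nat.ModEq.add_left_cancel' _ h1
      exact Nat.ModEq.eq_of_lt_of_lt h2 hb.1.1 hb'.1.1
    calc _ ≤ (1 : ℝ) * ((∏ t ∈ T, gu t u a) * (th R u * (2 * ∑ j ∈ range K, Fj j a u + cst))) :=
          mul_le_mul_of_nonneg_right (by exact_mod_cast hcard) hx0
      _ = _ := one_mul _
  -- S3
  have S3 : ∑ a ∈ A0 W q s, ∑ u ∈ Ico 1 Y0, (∏ t ∈ T, gu t u a) * (th R u * cst) ≤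
      C * (cst * (Y * Real.log Y)) := by
    rw [sum_comm]
    have e1 : ∀ u ∈ Ico 1 Y0, ∑ a ∈ A0 W q s, (∏ t ∈ T, gu t u a) * (th R u * cst) ≤
        C * (cst * Real.log Y) := by
      intro u hu
      rw [mem_Ico] at hu
      rw [← sum_mul]
      have hthu : th R u ≤ Real.log Y := th_le R u Y (by omega)
      by_cases hz : th R u = 0
      · rw [hz, zero_mul, mul_zero]; positivity
      · have hup : u.Prime ∧ R < u := by
          unfold th at hz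
          by_contra h
          rw [if_neg h] at hz
          exact hz rfl
        have h5 : ∀ t ∈ T, ¬ ((t : ℕ) : ℤ) ∣ (u : ℤ) := by
          intro t _ hd
          have hd' : (t : ℕ) ∣ u := by exact_mod_cast hd
          have h6 := (Nat.prime_dvd_prime_iff_eq (hP t t.2) hup.1).1 hd'
          have := hRP t t.2
          omega
        have h6 : ∑ a ∈ A0 W q s, ∏ t ∈ T, gu t u a ≤ C := by
          rw [hgu]
          exact hA1 u _ _ h5
        have h7 := th_nonneg R u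
        calc _ ≤ C * (th R u * cst) := mul_le_mul_of_nonneg_right h6 (by positivity)
          _ ≤ C * (Real.log Y * cst) := by gcongr
          _ = _ := by ring
    refine (sum_le_card_nsmul _ _ _ e1).trans ?_
    rw [nsmul_eq_mul]
    have h8 : ((Ico 1 Y0).card : ℝ) ≤ Y := by
      have : (Ico 1 Y0).card ≤ Y := by rw [Nat.card_Ico]; omega
      exact_mod_cast this
    calc _ ≤ (Y : ℝ) * (C * (cst * Real.log Y)) := mul_le_mul_of_nonneg_right h8 (by positivity)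
      _ = _ := by ring
  -- S5
  obtain ⟨V2, hV2⟩ : ∃ V2, V2 = Y0 + c1 + k := ⟨_, rfl⟩
  have hV2Y : V2 ≤ 2 * Y := by omega
  obtain ⟨SV, hSV⟩ : ∃ SV, SV = (Ico 1 V2).filter (fun v => v.Coprime k) := ⟨_, rfl⟩
  obtain ⟨gv, hgv⟩ : ∃ gv : P → ℕ → ℕ → ℝ, gv = fun (t : P) (v a : ℕ) =>
    gl (t : ℕ) (v : ℤ) (fun j => (pos j : ℤ) - (t0 + δ : ℕ)) (fun j => (pos j : ℤ) + (t0 + δ : ℕ)) a := ⟨_, rfl⟩
  have hgv0 : ∀ t u a, 0 ≤ gv t u a := by intro t u a; rw [hgv]; exact gl_nonneg _ _ _ _ _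
  have hPv0 : ∀ u a, 0 ≤ ∏ t ∈ T, gv t u a := fun u a => prod_nonneg fun t _ => hgv0 t u a
  have S5 : ∀ j ∈ range K, ∀ a ∈ A0 W q s, ∑ u ∈ Ico 1 Y0, (∏ t ∈ T, gu t u a) * Fj j a u ≤
      ∑ v ∈ SV, (∏ t ∈ T, gv t v a) * (Fs R (v + 2 * δ * (m1 + j * L)) len k v + ρ) := by
    intro j hj a ha
    rw [mem_range] at hj
    unfold A0 at ha
    rw [mem_filter, mem_range] at ha
    have hda : 2 * δ * a < k := by
      rw [hk]
      exact Nat.mul_lt_mul_of_pos_left ha.1 (by omega)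
    have e1 : ∑ u ∈ Ico 1 Y0, (∏ t ∈ T, gu t u a) * Fj j a u =
        ∑ u ∈ (Ico 1 Y0).filter (fun u => (u + c1 + 2 * δ * a).Coprime k),
          (∏ t ∈ T, gu t u a) * Fj j a u := by
      rw [sum_filter]
      refine sum_congr rfl fun u _ => ?_
      split_ifs with h
      · rfl
      · rw [hFj]
        simp only
        rw [Fs_zero R _ len k _ hkR h, mul_zero]
    rw [e1]
    have e2 : ∀ u ∈ (Ico 1 Y0).filter (fun u => (u + c1 + 2 * δ * a).Coprime k),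
        (∏ t ∈ T, gu t u a) * Fj j a u ≤
        (fun v => (∏ t ∈ T, gv t v a) * (Fs R (v + 2 * δ * (m1 + j * L)) len k v + ρ))
          (u + c1 + 2 * δ * a) := by
      intro u hu
      rw [mem_filter, mem_Ico] at hu
      have h5 : ∏ t ∈ T, gu t u a = ∏ t ∈ T, gv t (u + c1 + 2 * δ * a) a := by
        refine prod_congr rfl fun t _ => ?_
        rw [hgu, hgv, hc1]
        exact gl_shift _ t0 δ u a pos
      simp only
      rw [h5]
      apply mul_le_mul_of_nonneg_left _ (hPv0 _ _)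
      have h6 : (j + 1) * L ≤ K * L := Nat.mul_le_mul_right _ (by omega)
      have h7 : (j + 1) * L = j * L + L := by ring
      have h8 : 2 * δ * (m1 + j * L) + len ≤ 2 * δ * m2 := by
        rw [hlen, ← Nat.mul_add]
        apply Nat.mul_le_mul_left
        omega
      have h9 := Fs_shift R (u + c1 + 2 * δ * (m1 + j * L)) len k (u + c1 + 2 * δ * a) (2 * δ * a)
        (2 * Y) hk1 (by omega)
      have h10 : u + c1 + 2 * δ * (m1 + j * L) + 2 * δ * a = u + c1 + 2 * δ * a + 2 * δ * (m1 + j * L) := by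
        ring
      rw [h10, abs_le] at h9
      have h11 : (((2 * δ * a : ℕ) : ℝ) / k + 1) * Real.log (2 * Y : ℕ) ≤ ρ := by
        rw [hρ]
        apply mul_le_mul_of_nonneg_right _ hlogY2
        have h12 : ((2 * δ * a : ℕ) : ℝ) ≤ D := by exact_mod_cast hda.le.trans hkD
        have := div_le_div_of_nonneg_right h12 (Nat.cast_nonneg k)
        linarith
      rw [hFj]
      simp only
      linarith [h9.2]
    refine (sum_le_sum e2).trans ?_
    have hinj : Set.InjOn (fun u => u + c1 + 2 * δ * a)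
        (((Ico 1 Y0).filter (fun u => (u + c1 + 2 * δ * a).Coprime k) : Finset ℕ) : Set ℕ) := by
      intro u _ u' _ h
      simp only at h
      omega
    rw [← sum_image (f := fun v => (∏ t ∈ T, gv t v a) * (Fs R (v + 2 * δ * (m1 + j * L)) len k v + ρ)) hinj]
    apply sum_le_sum_of_subset_of_nonneg
    · intro v hv
      rw [mem_image] at hv
      obtain ⟨u, hu, rfl⟩ := hv
      rw [mem_filter, mem_Ico] at hu
      rw [hSV, mem_filter, mem_Ico]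
      exact ⟨by omega, hu.2⟩
    · intro v _ _
      have h5 := Fs_nonneg R (v + 2 * δ * (m1 + j * L)) len k v
      have h6 := hPv0 v a
      positivity
  -- S6
  have S6 : ∀ j ∈ range K, ∑ a ∈ A0 W q s, ∑ u ∈ Ico 1 Y0, (∏ t ∈ T, gu t u a) * Fj j a u ≤
      C * (4 * Y * ρ + 2 / (k : ℝ) * VV R (R + 1) (2 * Y) len k) := by
    intro j hj
    refine (sum_le_sum (S5 j hj)).trans ?_
    rw [mem_range] at hj
    rw [sum_comm]
    have e1 : ∀ v ∈ SV, ∑ a ∈ A0 W q s, (∏ t ∈ T, gv t v a) *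
        (Fs R (v + 2 * δ * (m1 + j * L)) len k v + ρ) ≤
        C * (Fs R (v + 2 * δ * (m1 + j * L)) len k v + ρ) := by
      intro v hv
      rw [hSV, mem_filter] at hv
      rw [← sum_mul]
      apply mul_le_mul_of_nonneg_right _ (add_nonneg (Fs_nonneg _ _ _ _ _) hρ0)
      rw [hgv]
      apply hA1 v
      intro t ht hd
      have hd' : (t : ℕ) ∣ v := by exact_mod_cast hd
      have h5 : (t : ℕ) ∣ k := by rw [hk]; exact (htq t ht).mul_left _
      exact (hP t t.2).one_lt.ne' (Nat.eq_one_of_dvd_coprimes hv.2 hd' h5)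
    refine (sum_le_sum e1).trans ?_
    rw [← mul_sum]
    apply mul_le_mul_of_nonneg_left _ hC0
    rw [sum_add_distrib, sum_const, nsmul_eq_mul]
    have h6 : (j + 1) * L ≤ K * L := Nat.mul_le_mul_right _ (by omega)
    have h7 : (j + 1) * L = j * L + L := by ring
    have h8 : 2 * δ * (m1 + j * L) + len ≤ 2 * δ * m2 := by
      rw [hlen, ← Nat.mul_add]
      apply Nat.mul_le_mul_left
      omega
    have h9 := smooth R len k D (2 * δ * (m1 + j * L)) V2 (2 * Y) hk1 hkD (by omega)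
    rw [← hSV, ← hρ] at h9
    have h10 : VV R (2 * δ * (m1 + j * L)) (V2 + 2 * δ * (m1 + j * L) + D) len k ≤
        VV R (R + 1) (2 * Y) len k := by
      apply VV_mono
      · calc R + 1 ≤ m1 := hRm
          _ ≤ 1 * (m1 + j * L) := by omega
          _ ≤ _ := Nat.mul_le_mul_right _ (by omega)
      · omega
    have h11 : (SV.card : ℝ) ≤ V2 := by
      have : SV.card ≤ V2 := by
        rw [hSV]
        refine (card_filter_le _ _).trans ?_
        rw [Nat.card_Ico]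
        omega
      exact_mod_cast this
    have h12 : (V2 : ℝ) ≤ 2 * Y := by exact_mod_cast hV2Y
    have h13 : (SV.card : ℝ) * ρ ≤ (2 * Y) * ρ := mul_le_mul_of_nonneg_right (h11.trans h12) hρ0
    have h14 : (V2 : ℝ) * ρ ≤ (2 * Y) * ρ := mul_le_mul_of_nonneg_right h12 hρ0
    have h15 : 2 / (k : ℝ) * VV R (2 * δ * (m1 + j * L)) (V2 + 2 * δ * (m1 + j * L) + D) len k ≤
        2 / (k : ℝ) * VV R (R + 1) (2 * Y) len k := mul_le_mul_of_nonneg_left h10 (by positivity)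
    linarith
  -- S4
  have S4 : ∑ a ∈ A0 W q s, ∑ u ∈ Ico 1 Y0, (∏ t ∈ T, gu t u a) * (th R u * (2 * ∑ j ∈ range K, Fj j a u)) ≤
      C * (2 * Real.log Y * (K * (4 * Y * ρ + 2 / (k : ℝ) * VV R (R + 1) (2 * Y) len k))) := by
    have e1 : ∀ a ∈ A0 W q s, ∀ u ∈ Ico 1 Y0,
        (∏ t ∈ T, gu t u a) * (th R u * (2 * ∑ j ∈ range K, Fj j a u)) ≤
        2 * Real.log Y * ∑ j ∈ range K, (∏ t ∈ T, gu t u a) * Fj j a u := by
      intro a _ u hu
      rw [mem_Ico] at hu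
      have hthu : th R u ≤ Real.log Y := th_le R u Y (by omega)
      have h5 : 0 ≤ ∑ j ∈ range K, Fj j a u := sum_nonneg fun j _ => hFj0 j a u
      have h6 := hPg0 u a
      rw [← mul_sum]
      calc _ ≤ (∏ t ∈ T, gu t u a) * (Real.log Y * (2 * ∑ j ∈ range K, Fj j a u)) := by gcongr
        _ = _ := by ring
    refine (sum_le_sum fun a ha => sum_le_sum (e1 a ha)).trans ?_
    have e2 : ∑ a ∈ A0 W q s, ∑ u ∈ Ico 1 Y0, 2 * Real.log Y * ∑ j ∈ range K, (∏ t ∈ T, gu t u a) * Fj j a u =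
        2 * Real.log Y * ∑ j ∈ range K, ∑ a ∈ A0 W q s, ∑ u ∈ Ico 1 Y0, (∏ t ∈ T, gu t u a) * Fj j a u := by
      rw [sum_comm (s := range K), mul_sum]
      refine sum_congr rfl fun a _ => ?_
      rw [← mul_sum, sum_comm]
    rw [e2]
    have h5 := sum_le_card_nsmul _ _ _ S6
    rw [card_range, nsmul_eq_mul] at h5
    calc _ ≤ 2 * Real.log Y * (K * (C * (4 * Y * ρ + 2 / (k : ℝ) * VV R (R + 1) (2 * Y) len k))) :=
          mul_le_mul_of_nonneg_left h5 (by positivity)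
      _ = _ := by ring
  -- S1
  have S1 : ∑ a ∈ A0 W q s, ∑ b ∈ A0 W q r, (∏ t ∈ T, gw (t : ℕ) pos (a, b)) * B ≤ C * (TT T * B) := by
    have e1 : ∀ a ∈ A0 W q s, ∑ b ∈ A0 W q r, (∏ t ∈ T, gw (t : ℕ) pos (a, b)) * B ≤ C * B := by
      intro a _
      rw [← sum_mul]
      exact mul_le_mul_of_nonneg_right (hA2 a) hB0
    refine (sum_le_card_nsmul _ _ _ e1).trans ?_
    rw [nsmul_eq_mul, hA3]
    apply le_of_eq
    ring
  -- assembly
  have hE : ∀ a b, Er2 R Y M m1 m2 A2 L K t0 δ q a b =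
      (∑ u ∈ (Ico 1 Y0).filter (fun u => u ≡ vn q t0 a b [MOD q]), th R u *
        (2 * ∑ j ∈ range K, Fj j a u + cst)) + B := by
    intro a b
    unfold Er2
    rw [← hk, hFj, hY0, hc1, hlen, hcst, hB]
  have e3 : ∑ a ∈ A0 W q s, ∑ b ∈ A0 W q r, (∏ t ∈ T, gw (t : ℕ) pos (a, b)) *
      Er2 R Y M m1 m2 A2 L K t0 δ q a b =
      ∑ a ∈ A0 W q s, ∑ b ∈ A0 W q r, (∏ t ∈ T, gw (t : ℕ) pos (a, b)) *
        (∑ u ∈ (Ico 1 Y0).filter (fun u => u ≡ vn q t0 a b [MOD q]), th R u *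
        (2 * ∑ j ∈ range K, Fj j a u + cst)) +
      ∑ a ∈ A0 W q s, ∑ b ∈ A0 W q r, (∏ t ∈ T, gw (t : ℕ) pos (a, b)) * B := by
    rw [← sum_add_distrib]
    refine sum_congr rfl fun a _ => ?_
    rw [← sum_add_distrib]
    refine sum_congr rfl fun b _ => ?_
    rw [hE a b, mul_add]
  have e4 : ∑ a ∈ A0 W q s, ∑ u ∈ Ico 1 Y0, (∏ t ∈ T, gu t u a) *
      (th R u * (2 * ∑ j ∈ range K, Fj j a u + cst)) =
      ∑ a ∈ A0 W q s, ∑ u ∈ Ico 1 Y0, (∏ t ∈ T, gu t u a) * (th R u * (2 * ∑ j ∈ range K, Fj j a u)) +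
      ∑ a ∈ A0 W q s, ∑ u ∈ Ico 1 Y0, (∏ t ∈ T, gu t u a) * (th R u * cst) := by
    rw [← sum_add_distrib]
    refine sum_congr rfl fun a _ => ?_
    rw [← sum_add_distrib]
    refine sum_congr rfl fun u _ => ?_
    ring
  rw [e3]
  have h5 := sum_le_sum (fun a (_ : a ∈ A0 W q s) => S2 a)
  rw [e4] at h5
  calc _ ≤ (C * (2 * Real.log Y * (K * (4 * Y * ρ + 2 / (k : ℝ) * VV R (R + 1) (2 * Y) len k))) +
        C * (cst * (Y * Real.log Y))) + C * (TT T * B) := by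
        exact add_le_add (h5.trans (add_le_add S4 S3)) S1
    _ = _ := by ring

end av

end Pool.Agent.H43.BC
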