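import Pool.Agent.H43.BC.F1

set_option autoImplicit false
set_option linter.unusedSectionVars false

/-! The bound for the sum over the moduli of the average errors. -/

namespace Pool.Agent.H43.BC

open Finset

section av
variable {P : Finset ℕ} (hP : ∀ p ∈ P, p.Prime) (hP3 : ∀ p ∈ P, 3 ≤ p)
include hP hP3

theorem mass_le (c lam : ℝ) (hc : 0 ≤ c) (Q : ℕ) (hS : ∑ t : P, 1 / (((t : ℕ) : ℝ) - 1) ≤ lam) :
    ∑ T ∈ (univ : Finset (Finset P)).filter (fun T => TT T ≤ Q), c ^ T.card / (TT T : ℝ) ≤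
      Real.exp (c * lam) := by
  have h3 : ∀ t : P, (0 : ℝ) < ((t : ℕ) : ℝ) - 1 := by
    intro t
    have : (3 : ℝ) ≤ (t : ℕ) := by exact_mod_cast hP3 t t.2
    linarith
  calc _ ≤ ∑ T : Finset P, c ^ T.card / (TT T : ℝ) := by
        apply sum_le_sum_of_subset_of_nonneg (filter_subset _ _)
        intro T _ _
        positivity
    _ ≤ ∑ T : Finset P, ∏ t ∈ T, (c * (1 / (((t : ℕ) : ℝ) - 1))) := by
        apply sum_le_sum
        intro T _
        rw [prod_mul_distrib, prod_const, div_eq_mul_inv]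
        apply mul_le_mul_of_nonneg_left _ (pow_nonneg hc _)
        unfold TT
        push_cast
        rw [← prod_inv_distrib]
        apply prod_le_prod
        · intro t _
          positivity
        · intro t _
          rw [one_div]
          exact inv_anti₀ (h3 t) (by linarith)
    _ = ∏ t : P, (1 + c * (1 / (((t : ℕ) : ℝ) - 1))) := by
        rw [prod_one_add, powerset_univ]
    _ ≤ Real.exp (∑ t : P, c * (1 / (((t : ℕ) : ℝ) - 1))) := by
        rw [Real.exp_sum]
        apply prod_le_prod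
        · intro t _
          have := h3 t
          positivity
        · intro t _
          have := Real.add_one_le_exp (c * (1 / (((t : ℕ) : ℝ) - 1)))
          linarith
    _ ≤ _ := by
        rw [← mul_sum]
        exact Real.exp_le_exp.2 (mul_le_mul_of_nonneg_left hS hc)

theorem avb_le (C : ℝ) (hC : 1 ≤ C) (hPc : ∀ p ∈ P, C ≤ (p : ℝ)) (M : ℕ → ℝ) (hM0 : ∀ q, 0 ≤ M q)
    (Q W m1 m2 L K D R Y δ : ℕ) (hW0 : 1 ≤ W) (hW : ∀ p ∈ P, ¬ p ∣ W) (hm : m1 ≤ m2) (hδ : 1 ≤ δ)
    (lam : ℝ) (hlam : 0 ≤ lam) (hS : ∑ t : P, 1 / (((t : ℕ) : ℝ) - 1) ≤ lam)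
    (V : ℝ) (hV : ∑ T ∈ (univ : Finset (Finset P)).filter (fun T => TT T ≤ Q),
      ∑ w ∈ Ico (R + 1) (2 * Y), ∑ b ∈ (range (2 * δ * (W * TT T))).filter
        (fun b => b.Coprime (2 * δ * (W * TT T))), Fs R w (2 * δ * L) (2 * δ * (W * TT T)) b ^ 2 ≤ V)
    (μ : ℝ) (hμ : 0 < μ) (G : ℝ) (hG : G = Real.exp (2 * C ^ 2 * lam)) :
    AVb P M Q C m1 m2 L K W D R Y δ ≤
      4 * δ * ((m2 : ℝ) - m1) * BS P M Q (2 * C) W +
      2 * (Y * Real.log Y) * (Real.log Y * (L * G + (Q : ℝ) ^ 2) + 2 * δ * L * G) +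
      8 * K * Y * Real.log Y * Real.log (2 * Y : ℕ) * (D * G + (Q : ℝ) ^ 2) +
      4 * K * Real.log Y * (μ * Y * G + V / (2 * μ)) := by
  classical
  have hC0 : 0 < C := by linarith
  have hlog := Real.log_natCast_nonneg Y
  have hlog2 := Real.log_natCast_nonneg (2 * Y)
  have hmm : (0 : ℝ) ≤ (m2 : ℝ) - m1 := by
    have : (m1 : ℝ) ≤ m2 := by exact_mod_cast hm
    linarith
  have hδ0 : (1 : ℝ) ≤ δ := by exact_mod_cast hδ
  have hW1 : (1 : ℝ) ≤ W := by exact_mod_cast hW0
  have g1 : ∑ T ∈ (univ : Finset (Finset P)).filter (fun T => TT T ≤ Q), C ^ T.card / (TT T : ℝ) ≤ G := by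
    refine (mass_le hP hP3 C lam hC0.le Q hS).trans ?_
    rw [hG]
    apply Real.exp_le_exp.2
    apply mul_le_mul_of_nonneg_right _ hlam
    nlinarith
  have g2 : ∑ T ∈ (univ : Finset (Finset P)).filter (fun T => TT T ≤ Q), (2 * C) ^ T.card / (TT T : ℝ) ≤ G := by
    refine (mass_le hP hP3 (2 * C) lam (by linarith) Q hS).trans ?_
    rw [hG]
    apply Real.exp_le_exp.2
    apply mul_le_mul_of_nonneg_right _ hlam
    nlinarith
  have g3 : ∑ T ∈ (univ : Finset (Finset P)).filter (fun T => TT T ≤ Q), (C ^ 2) ^ T.card / (TT T : ℝ) ≤ G := by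
    refine (mass_le hP hP3 (C ^ 2) lam (by positivity) Q hS).trans ?_
    rw [hG]
    apply Real.exp_le_exp.2
    apply mul_le_mul_of_nonneg_right _ hlam
    nlinarith
  have g0 := sum_pow_le hP C hC0.le hPc Q
  -- the bound for each modulus
  have key : ∀ T ∈ (univ : Finset (Finset P)).filter (fun T => TT T ≤ Q), C ^ T.card *
      (TT T * (2 * δ / Nat.totient (2 * δ * (W * TT T)) * (((m2 : ℝ) - m1) * (2 * M (W * TT T)))) +
       2 * (((L : ℝ) / (W * TT T : ℕ) + 1) * Real.log Y +
          2 * δ / Nat.totient (2 * δ * (W * TT T)) * L) * (Y * Real.log Y) +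
       2 * Real.log Y * (K * (4 * Y * (((D : ℝ) / (2 * δ * (W * TT T) : ℕ) + 1) * Real.log (2 * Y : ℕ)) +
          2 / (2 * δ * (W * TT T) : ℕ) * VV R (R + 1) (2 * Y) (2 * δ * L) (2 * δ * (W * TT T))))) ≤
      4 * δ * ((m2 : ℝ) - m1) * ((2 * C) ^ T.card * M (W * TT T)) +
      2 * (Y * Real.log Y) * (Real.log Y * (L * (C ^ T.card / (TT T : ℝ)) + C ^ T.card) +
        2 * δ * L * ((2 * C) ^ T.card / (TT T : ℝ))) +
      8 * K * Y * Real.log Y * Real.log (2 * Y : ℕ) * (D * (C ^ T.card / (TT T : ℝ)) + C ^ T.card) +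
      4 * K * Real.log Y * (μ * Y * ((C ^ 2) ^ T.card / (TT T : ℝ)) +
        (∑ w ∈ Ico (R + 1) (2 * Y), ∑ b ∈ (range (2 * δ * (W * TT T))).filter
        (fun b => b.Coprime (2 * δ * (W * TT T))), Fs R w (2 * δ * L) (2 * δ * (W * TT T)) b ^ 2) / (2 * μ)) := by
    intro T hT
    have hTT := TT_pos' hP T
    have hTT1 : (1 : ℝ) ≤ TT T := by exact_mod_cast hTT
    have hq00 : 0 < W * TT T := Nat.mul_pos hW0 hTT
    obtain ⟨k, hk⟩ : ∃ k, k = 2 * δ * (W * TT T) := ⟨_, rfl⟩
    have hk1 : 1 ≤ k := by rw [hk]; exact Nat.mul_pos (by omega) hq00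
    have hk0 : (0 : ℝ) < k := by exact_mod_cast hk1
    rw [← hk]
    have hkT : (TT T : ℝ) ≤ k := by
      have : TT T ≤ k := by
        rw [hk]
        calc TT T = 1 * (1 * TT T) := by ring
          _ ≤ 2 * δ * (W * TT T) := Nat.mul_le_mul (by omega) (Nat.mul_le_mul_right _ hW0)
      exact_mod_cast this
    have hqT : (TT T : ℝ) ≤ ((W * TT T : ℕ) : ℝ) := by
      have : TT T ≤ W * TT T := Nat.le_mul_of_pos_left _ hW0
      exact_mod_cast this
    have hT0 : (0 : ℝ) < TT T := by linarith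
    have hφ : (0 : ℝ) < Nat.totient k := by exact_mod_cast Nat.totient_pos.2 hk1
    have hCT : 0 ≤ C ^ T.card := by positivity
    -- totient
    have h4 : 2 * (δ : ℝ) / Nat.totient k ≤ 2 * δ * (2 ^ T.card / TT T) := by
      have h5 := tot_ge hP hP3 W hW0 hW T
      have hφle : (Nat.totient (W * TT T) : ℝ) ≤ Nat.totient k := by
        have h5 : Nat.totient (W * TT T) ∣ Nat.totient k := by
          rw [hk]
          exact Nat.totient_dvd_of_dvd (Dvd.intro_left _ rfl)
        exact_mod_cast Nat.le_of_dvd (Nat.totient_pos.2 hk1) h5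
      rw [div_eq_mul_inv]
      apply mul_le_mul_of_nonneg_left _ (by positivity)
      rw [inv_eq_one_div, div_le_div_iff₀ hφ hT0, one_mul]
      refine h5.trans ?_
      gcongr
    have pa : C ^ T.card * (TT T * (2 * δ / Nat.totient k * (((m2 : ℝ) - m1) * (2 * M (W * TT T))))) ≤
        4 * δ * ((m2 : ℝ) - m1) * ((2 * C) ^ T.card * M (W * TT T)) := by
      have hM := hM0 (W * TT T)
      calc _ ≤ C ^ T.card * (TT T * ((2 * δ * (2 ^ T.card / TT T)) *
            (((m2 : ℝ) - m1) * (2 * M (W * TT T))))) := by gcongr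
        _ = _ := by
            rw [mul_pow]
            field_simp
            ring
    have pb : C ^ T.card * (2 * (((L : ℝ) / (W * TT T : ℕ) + 1) * Real.log Y +
          2 * δ / Nat.totient k * L) * (Y * Real.log Y)) ≤
        2 * (Y * Real.log Y) * (Real.log Y * (L * (C ^ T.card / (TT T : ℝ)) + C ^ T.card) +
        2 * δ * L * ((2 * C) ^ T.card / (TT T : ℝ))) := by
      calc _ ≤ C ^ T.card * (2 * (((L : ℝ) / TT T + 1) * Real.log Y +
          (2 * δ * (2 ^ T.card / TT T)) * L) * (Y * Real.log Y)) := by gcongr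
        _ = _ := by
            rw [mul_pow]
            field_simp
    have pc : C ^ T.card * (2 * Real.log Y * (K * (4 * Y * (((D : ℝ) / k + 1) * Real.log (2 * Y : ℕ))))) ≤
        8 * K * Y * Real.log Y * Real.log (2 * Y : ℕ) * (D * (C ^ T.card / (TT T : ℝ)) + C ^ T.card) := by
      calc _ ≤ C ^ T.card * (2 * Real.log Y * (K * (4 * Y * (((D : ℝ) / TT T + 1) *
            Real.log (2 * Y : ℕ))))) := by gcongr
        _ = _ := by
            field_simp
            ring
    have pd : C ^ T.card * (2 * Real.log Y * (K * (2 / (k : ℝ) * VV R (R + 1) (2 * Y) (2 * δ * L) k))) ≤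
        4 * K * Real.log Y * (μ * Y * ((C ^ 2) ^ T.card / (TT T : ℝ)) +
        (∑ w ∈ Ico (R + 1) (2 * Y), ∑ b ∈ (range k).filter (fun b => b.Coprime k),
          Fs R w (2 * δ * L) k b ^ 2) / (2 * μ)) := by
      have e1 : C ^ T.card * (2 * Real.log Y * (K * (2 / (k : ℝ) * VV R (R + 1) (2 * Y) (2 * δ * L) k))) =
          4 * K * Real.log Y * ((C ^ T.card / k) * VV R (R + 1) (2 * Y) (2 * δ * L) k) := by
        field_simp
        ring
      rw [e1]
      apply mul_le_mul_of_nonneg_left _ (by positivity)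
      unfold VV
      rw [mul_sum, sum_div]
      have e2 : ∀ w ∈ Ico (R + 1) (2 * Y), C ^ T.card / k *
          ∑ b ∈ (range k).filter (fun b => b.Coprime k), Fs R w (2 * δ * L) k b ≤
          μ / 2 * ((C ^ 2) ^ T.card / (TT T : ℝ)) +
          (∑ b ∈ (range k).filter (fun b => b.Coprime k), Fs R w (2 * δ * L) k b ^ 2) / (2 * μ) := by
        intro w _
        rw [mul_sum, sum_div]
        have e3 : ∀ b ∈ (range k).filter (fun b => b.Coprime k), C ^ T.card / k *
            Fs R w (2 * δ * L) k b ≤ μ / 2 * (C ^ T.card / k) ^ 2 +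
            Fs R w (2 * δ * L) k b ^ 2 / (2 * μ) := by
          intro b _
          set x := C ^ T.card / (k : ℝ)
          set y := Fs R w (2 * δ * L) k b
          have h5 : 0 ≤ (μ * x - y) ^ 2 / (2 * μ) := by positivity
          have h6 : (μ * x - y) ^ 2 / (2 * μ) = μ / 2 * x ^ 2 + y ^ 2 / (2 * μ) - x * y := by
            field_simp
            ring
          linarith
        refine (sum_le_sum e3).trans ?_
        rw [sum_add_distrib, sum_const, nsmul_eq_mul]
        apply add_le_add _ le_rfl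
        have h5 : (((range k).filter (fun b => b.Coprime k)).card : ℝ) ≤ k := by
          have := card_filter_le (range k) (fun b => b.Coprime k)
          rw [card_range] at this
          exact_mod_cast this
        calc (((range k).filter (fun b => b.Coprime k)).card : ℝ) * (μ / 2 * (C ^ T.card / k) ^ 2) ≤
              k * (μ / 2 * (C ^ T.card / k) ^ 2) := mul_le_mul_of_nonneg_right h5 (by positivity)
          _ = μ / 2 * ((C ^ 2) ^ T.card / k) := by
              rw [← pow_mul, mul_comm 2, pow_mul]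
              field_simp
          _ ≤ μ / 2 * ((C ^ 2) ^ T.card / (TT T : ℝ)) := by gcongr
      refine (sum_le_sum e2).trans ?_
      rw [sum_add_distrib, sum_const, nsmul_eq_mul]
      apply add_le_add _ le_rfl
      have h5 : ((Ico (R + 1) (2 * Y)).card : ℝ) ≤ 2 * Y := by
        have : (Ico (R + 1) (2 * Y)).card ≤ 2 * Y := by rw [Nat.card_Ico]; omega
        exact_mod_cast this
      calc _ ≤ (2 * Y : ℝ) * (μ / 2 * ((C ^ 2) ^ T.card / (TT T : ℝ))) :=
            mul_le_mul_of_nonneg_right h5 (by positivity)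
        _ = _ := by ring
    calc _ = C ^ T.card * (TT T * (2 * δ / Nat.totient k * (((m2 : ℝ) - m1) * (2 * M (W * TT T))))) +
          C ^ T.card * (2 * (((L : ℝ) / (W * TT T : ℕ) + 1) * Real.log Y +
          2 * δ / Nat.totient k * L) * (Y * Real.log Y)) +
          C ^ T.card * (2 * Real.log Y * (K * (4 * Y * (((D : ℝ) / k + 1) * Real.log (2 * Y : ℕ))))) +
          C ^ T.card * (2 * Real.log Y * (K * (2 / (k : ℝ) * VV R (R + 1) (2 * Y) (2 * δ * L) k))) := by
          ring
      _ ≤ _ := by linarith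
  unfold AVb
  refine (sum_le_sum key).trans ?_
  rw [sum_add_distrib, sum_add_distrib, sum_add_distrib]
  apply add_le_add (add_le_add (add_le_add _ _) _) _
  · rw [← mul_sum]
    exact le_rfl
  · rw [← mul_sum]
    apply mul_le_mul_of_nonneg_left _ (by positivity)
    rw [sum_add_distrib, ← mul_sum, sum_add_distrib, ← mul_sum, ← mul_sum]
    apply add_le_add
    · apply mul_le_mul_of_nonneg_left _ hlog
      exact add_le_add (mul_le_mul_of_nonneg_left g1 (Nat.cast_nonneg _)) g0
    · exact mul_le_mul_of_nonneg_left g2 (by positivity)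
  · rw [← mul_sum]
    apply mul_le_mul_of_nonneg_left _ (by positivity)
    rw [sum_add_distrib, ← mul_sum]
    exact add_le_add (mul_le_mul_of_nonneg_left g1 (Nat.cast_nonneg _)) g0
  · rw [← mul_sum]
    apply mul_le_mul_of_nonneg_left _ (by positivity)
    rw [sum_add_distrib, ← mul_sum, ← sum_div]
    apply add_le_add
    · exact mul_le_mul_of_nonneg_left g3 (by positivity)
    · exact div_le_div_of_nonneg_right hV (by positivity)

end av

end Pool.Agent.H43.BC
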