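import Mathlib

set_option autoImplicit false

/-! The local densities. -/

namespace Pool.Agent.H43.BC

open Finset

/-- the value at the position `τ`, `x = (M, a)` -/
def vv (τ : ℕ) (x : ℕ × ℕ) : ℤ := (x.1 + τ) ^ 2 + x.2

/-- the classes -/
def Cl (p : ℕ) : Finset (ℕ × ℕ) := range p ×ˢ range p

theorem one_b (p : ℕ) (hp : 0 < p) (c : ℤ) :
    ((range p).filter (fun b : ℕ => (p : ℤ) ∣ c - b)).card = 1 := by
  rw [card_eq_one]
  refine ⟨(c % p).toNat, ?_⟩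
  have hp' : (0 : ℤ) < p := by exact_mod_cast hp
  have h0 := Int.emod_nonneg c hp'.ne'
  have h1 := Int.emod_lt_of_pos c hp'
  ext b
  rw [mem_filter, mem_range, mem_singleton]
  constructor
  · rintro ⟨hb, hd⟩
    have h2 : (b : ℤ) % p = c % p := Int.modEq_iff_dvd.2 hd
    have h3 : (b : ℤ) % p = b := Int.emod_eq_of_lt (by positivity) (by exact_mod_cast hb)
    omega
  · intro hb
    have h2 : (b : ℤ) = c % p := by rw [hb]; exact Int.toNat_of_nonneg h0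
    refine ⟨by omega, ?_⟩
    rw [h2]
    exact Int.dvd_self_sub_emod

theorem one_c (p : ℕ) (hp : 0 < p) (c : ℤ) :
    ((range p).filter (fun b : ℕ => (p : ℤ) ∣ c + b)).card = 1 := by
  rw [← one_b p hp (-c)]
  congr 1
  apply filter_congr
  intro b _
  rw [← dvd_neg]
  have : -(c + (b : ℤ)) = -c - b := by ring
  rw [this]

theorem one_a (p : ℕ) (hp : p.Prime) (u c : ℤ) (hu : ¬ (p : ℤ) ∣ u) :
    ((range p).filter (fun a : ℕ => (p : ℤ) ∣ u * a + c)).card = 1 := by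
  have hpp : Prime (p : ℤ) := Nat.prime_iff_prime_int.1 hp
  have hco : IsCoprime u (p : ℤ) := by
    rw [isCoprime_comm]
    exact (Prime.coprime_iff_not_dvd hpp).2 hu
  obtain ⟨w, z, hw⟩ := hco
  rw [← one_b p hp.pos (-(w * c))]
  congr 1
  apply filter_congr
  intro a _
  constructor
  · rintro ⟨d, hd⟩
    refine ⟨-(w * d) - z * a, ?_⟩
    linear_combination (a : ℤ) * hw - w * hd
  · rintro ⟨d, hd⟩
    refine ⟨-(u * d) + z * c, ?_⟩
    linear_combination -(c : ℤ) * hw - u * hd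

theorem card_Z1 (p : ℕ) (hp : 0 < p) (τ : ℕ) :
    ((Cl p).filter (fun x => (p : ℤ) ∣ vv τ x)).card = p := by
  unfold Cl
  rw [card_filter, sum_product]
  have : ∀ a ∈ range p, ∑ b ∈ range p, (if (p : ℤ) ∣ vv τ (a, b) then 1 else 0) = 1 := by
    intro a _
    rw [← card_filter]
    exact one_c p hp ((a + τ) ^ 2)
  rw [sum_congr rfl this]
  simp

theorem diff_vv (τ τ' : ℕ) (x : ℕ × ℕ) :
    vv τ x - vv τ' x = ((τ : ℤ) - τ') * (2 * x.1 + (τ + τ')) := by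
  unfold vv; ring

theorem card_Z2 (p : ℕ) (hp : p.Prime) (h2 : p ≠ 2) (τ τ' : ℕ) (hd : ¬ (p : ℤ) ∣ (τ : ℤ) - τ') :
    ((Cl p).filter (fun x => (p : ℤ) ∣ vv τ x ∧ (p : ℤ) ∣ vv τ' x)).card = 1 := by
  have hpp : Prime (p : ℤ) := Nat.prime_iff_prime_int.1 hp
  have h22 : ¬ (p : ℤ) ∣ 2 := by
    intro h
    have h3 : p ∣ 2 := by exact_mod_cast h
    exact h2 ((Nat.prime_dvd_prime_iff_eq hp Nat.prime_two).1 h3)
  have hiff : ∀ x : ℕ × ℕ, ((p : ℤ) ∣ vv τ x ∧ (p : ℤ) ∣ vv τ' x) ↔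
      ((p : ℤ) ∣ 2 * x.1 + ((τ : ℤ) + τ') ∧ (p : ℤ) ∣ vv τ x) := by
    intro x
    constructor
    · rintro ⟨h3, h4⟩
      have h5 := dvd_sub h3 h4
      rw [diff_vv] at h5
      exact ⟨(hpp.dvd_or_dvd h5).resolve_left hd, h3⟩
    · rintro ⟨h3, h4⟩
      refine ⟨h4, ?_⟩
      have h5 : vv τ' x = vv τ x - ((τ : ℤ) - τ') * (2 * x.1 + (τ + τ')) := by
        rw [← diff_vv]; ring
      rw [h5]
      exact dvd_sub h4 (Dvd.dvd.mul_left h3 _)
  rw [filter_congr (fun x _ => hiff x)]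
  unfold Cl
  rw [card_filter, sum_product]
  have : ∀ a ∈ range p, ∑ b ∈ range p, (if (p : ℤ) ∣ 2 * (((a, b) : ℕ × ℕ).1 : ℤ) + ((τ : ℤ) + τ') ∧
      (p : ℤ) ∣ vv τ (a, b) then 1 else 0) =
      if (p : ℤ) ∣ 2 * (a : ℤ) + ((τ : ℤ) + τ') then 1 else 0 := by
    intro a _
    by_cases h : (p : ℤ) ∣ 2 * (a : ℤ) + ((τ : ℤ) + τ')
    · simp only [h, true_and, if_true]
      rw [← card_filter]
      exact one_c p hp.pos ((a + τ) ^ 2)
    · simp [h]
  rw [sum_congr rfl this, ← card_filter]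
  exact one_a p hp 2 _ h22

theorem Z3 (p : ℕ) (hp : p.Prime) (τ τ' τ'' : ℕ) (hd : ¬ (p : ℤ) ∣ (τ : ℤ) - τ')
    (hd' : ¬ (p : ℤ) ∣ (τ : ℤ) - τ'') (hd'' : ¬ (p : ℤ) ∣ (τ' : ℤ) - τ'') (x : ℕ × ℕ)
    (h1 : (p : ℤ) ∣ vv τ x) (h2 : (p : ℤ) ∣ vv τ' x) (h3 : (p : ℤ) ∣ vv τ'' x) : False := by
  have hpp : Prime (p : ℤ) := Nat.prime_iff_prime_int.1 hp
  have h4 := dvd_sub h1 h2
  rw [diff_vv] at h4
  have h5 := dvd_sub h1 h3
  rw [diff_vv] at h5
  have h6 := (hpp.dvd_or_dvd h4).resolve_left hd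
  have h7 := (hpp.dvd_or_dvd h5).resolve_left hd'
  have h8 := dvd_sub h6 h7
  apply hd''
  have e : 2 * (x.1 : ℤ) + (τ + τ') - (2 * x.1 + (τ + τ'')) = (τ' : ℤ) - τ'' := by ring
  rwa [e] at h8

/-- the probability of the intersections -/
theorem PU (p : ℕ) (hp : p.Prime) (h2 : p ≠ 2) {Q : Type} [Fintype Q] [DecidableEq Q] (pos : Q → ℕ)
    (hpos : ∀ q q', q ≠ q' → ¬ (p : ℤ) ∣ (pos q : ℤ) - pos q') (U : Finset Q) :
    |(((Cl p).filter (fun x => ∀ q ∈ U, (p : ℤ) ∣ vv (pos q) x)).card : ℝ) / (p : ℝ) ^ 2 -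
      (1 / (p : ℝ)) ^ U.card| ≤ (1 / (p : ℝ)) ^ 3 := by
  have hp0 : (0 : ℝ) < p := by exact_mod_cast hp.pos
  have hp1 : 1 / (p : ℝ) ≤ 1 := by
    rw [div_le_one hp0]
    exact_mod_cast hp.one_lt.le
  have hp1' : 0 ≤ 1 / (p : ℝ) := by positivity
  rcases Nat.lt_or_ge U.card 3 with hU | hU
  · have h30 : (0 : ℝ) ≤ (1 / (p : ℝ)) ^ 3 := by positivity
    interval_cases h : U.card
    · rw [card_eq_zero] at h
      subst h
      simp only [notMem_empty, false_implies, implies_true, filter_true]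
      unfold Cl
      rw [card_product, card_range]
      push_cast
      rw [pow_zero, ← sq, div_self (by positivity), sub_self, abs_zero]
      exact h30
    · rw [card_eq_one] at h
      obtain ⟨q, rfl⟩ := h
      simp only [mem_singleton, forall_eq]
      rw [card_Z1 p hp.pos]
      have : (p : ℝ) / (p : ℝ) ^ 2 - (1 / (p : ℝ)) ^ 1 = 0 := by field_simp; ring
      rw [this, abs_zero]
      exact h30
    · rw [card_eq_two] at h
      obtain ⟨q, q', hq, rfl⟩ := h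
      simp only [mem_insert, mem_singleton, forall_eq_or_imp, forall_eq]
      rw [card_Z2 p hp h2 _ _ (hpos q q' hq)]
      have : ((1 : ℕ) : ℝ) / (p : ℝ) ^ 2 - (1 / (p : ℝ)) ^ 2 = 0 := by push_cast; field_simp; ring
      rw [this, abs_zero]
      exact h30
  · have h3 : (Cl p).filter (fun x => ∀ q ∈ U, (p : ℤ) ∣ vv (pos q) x) = ∅ := by
      obtain ⟨V, hV, hVc⟩ := exists_subset_card_eq hU
      rw [card_eq_three] at hVc
      obtain ⟨a, b, c, hab, hac, hbc, rfl⟩ := hVc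
      ext x
      simp only [mem_filter, notMem_empty, iff_false, not_and]
      intro _ hx
      exact Z3 p hp _ _ _ (hpos a b hab) (hpos a c hac) (hpos b c hbc) x
        (hx a (hV (by simp))) (hx b (hV (by simp))) (hx c (hV (by simp)))
    rw [h3, card_empty]
    simp only [Nat.cast_zero, zero_div, zero_sub, abs_neg]
    rw [abs_of_nonneg (by positivity)]
    exact pow_le_pow_of_le_one hp1' hp1 hU

/-- averages of products over distinct positions -/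
theorem local_mix (p : ℕ) (hp : p.Prime) (h2 : p ≠ 2) {Q : Type} [Fintype Q] [DecidableEq Q]
    (pos : Q → ℕ) (hpos : ∀ q q', q ≠ q' → ¬ (p : ℤ) ∣ (pos q : ℤ) - pos q') (A B : Q → ℝ) :
    |(∑ x ∈ Cl p, ∏ q, (if (p : ℤ) ∣ vv (pos q) x then A q + B q else A q)) / (p : ℝ) ^ 2 -
      ∏ q, (A q + B q / p)| ≤ (1 / (p : ℝ)) ^ 3 * ∏ q, (|A q| + |B q|) := by
  classical
  have hp0 : (0 : ℝ) < p := by exact_mod_cast hp.pos
  have e1 : ∀ x, ∏ q, (if (p : ℤ) ∣ vv (pos q) x then A q + B q else A q) =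
      ∑ U ∈ (univ : Finset Q).powerset, (∏ q ∈ U, B q) * (∏ q ∈ univ \ U, A q) *
        (if ∀ q ∈ U, (p : ℤ) ∣ vv (pos q) x then 1 else 0) := by
    intro x
    have h1 : ∀ q, (if (p : ℤ) ∣ vv (pos q) x then A q + B q else A q) =
        B q * (if (p : ℤ) ∣ vv (pos q) x then 1 else 0) + A q := by
      intro q; split_ifs <;> ring
    rw [prod_congr rfl (fun q _ => h1 q), prod_add]
    refine sum_congr rfl fun U _ => ?_
    rw [prod_mul_distrib]
    have h3 : ∏ q ∈ U, (if (p : ℤ) ∣ vv (pos q) x then (1 : ℝ) else 0) =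
        if ∀ q ∈ U, (p : ℤ) ∣ vv (pos q) x then 1 else 0 := by
      rw [prod_ite_zero]
      simp
    rw [h3]; ring
  have e2 : (∑ x ∈ Cl p, ∏ q, (if (p : ℤ) ∣ vv (pos q) x then A q + B q else A q)) / (p : ℝ) ^ 2 =
      ∑ U ∈ (univ : Finset Q).powerset, (∏ q ∈ U, B q) * (∏ q ∈ univ \ U, A q) *
        ((((Cl p).filter (fun x => ∀ q ∈ U, (p : ℤ) ∣ vv (pos q) x)).card : ℝ) / (p : ℝ) ^ 2) := by
    rw [sum_congr rfl (fun x _ => e1 x), sum_comm, sum_div]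
    refine sum_congr rfl fun U _ => ?_
    rw [← mul_sum, mul_div_assoc, card_filter]
    push_cast
    rfl
  have e3 : ∏ q, (A q + B q / p) = ∑ U ∈ (univ : Finset Q).powerset, (∏ q ∈ U, B q) *
      (∏ q ∈ univ \ U, A q) * (1 / (p : ℝ)) ^ U.card := by
    have h1 : ∀ q, A q + B q / p = B q * (1 / (p : ℝ)) + A q := by intro q; ring
    rw [prod_congr rfl (fun q _ => h1 q), prod_add]
    refine sum_congr rfl fun U _ => ?_
    rw [prod_mul_distrib, prod_const]; ring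
  have e4 : ∏ q, (|A q| + |B q|) = ∑ U ∈ (univ : Finset Q).powerset, (∏ q ∈ U, |B q|) *
      (∏ q ∈ univ \ U, |A q|) := by
    rw [← prod_add]
    exact prod_congr rfl fun q _ => add_comm _ _
  rw [e2, e3, e4, ← sum_sub_distrib, mul_sum]
  refine (abs_sum_le_sum_abs _ _).trans (sum_le_sum fun U _ => ?_)
  rw [← mul_sub, abs_mul, abs_mul, abs_prod, abs_prod, mul_comm]
  exact mul_le_mul_of_nonneg_right (PU p hp h2 pos hpos U)
    (mul_nonneg (prod_nonneg fun _ _ => abs_nonneg _) (prod_nonneg fun _ _ => abs_nonneg _))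

end Pool.Agent.H43.BC
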