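import Pool.Agent.H43.BC.C1

set_option autoImplicit false

/-! Class sums over the pairs `(M, a)`, `m1 ≤ M < m2`, `A1 ≤ a < A2`. -/

namespace Pool.Agent.H43.BC

open Finset

/-- the pairs in a class -/
def CS (m1 m2 A1 A2 q a b : ℕ) : Finset (ℕ × ℕ) :=
  (Ico m1 m2 ×ˢ Ico A1 A2).filter (fun n => n.1 ≡ a [MOD q] ∧ n.2 ≡ b [MOD q])

/-- representative of the value in the class -/
def vn (_q t a b : ℕ) : ℕ := (a + t) ^ 2 + b

theorem sum_CS (m1 m2 A1 A2 q a b : ℕ) (f : ℕ × ℕ → ℝ) : ∑ n ∈ CS m1 m2 A1 A2 q a b, f n =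
    ∑ s ∈ (Ico m1 m2).filter (fun s => s ≡ a [MOD q]),
      ∑ r ∈ (Ico A1 A2).filter (fun r => r ≡ b [MOD q]), f (s, r) := by
  unfold CS
  rw [sum_filter, sum_product, sum_filter]
  refine sum_congr rfl fun s hs => ?_
  split_ifs with h
  · rw [← sum_filter]
    apply sum_congr _ (fun _ _ => rfl)
    ext r
    simp only [mem_filter, h, true_and]
  · apply sum_eq_zero
    intro r _
    rw [if_neg]
    exact fun h' => h h'.1

theorem shift_mod (q x r a : ℕ) (hq : 1 ≤ q) :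
    (x + r ≡ a [MOD q]) ↔ (r ≡ a + (q - 1) * x [MOD q]) := by
  have e1 : x + (a + (q - 1) * x) = a + q * x := by
    obtain ⟨m, rfl⟩ : ∃ m, q = m + 1 := ⟨q - 1, by omega⟩
    simp only [Nat.add_sub_cancel]
    ring
  constructor
  · intro h5
    have h6 : x + r ≡ x + (a + (q - 1) * x) [MOD q] := by
      rw [e1]
      exact h5.trans (by
        have : a ≡ a + q * x [MOD q] := by
          unfold Nat.ModEq
          simp
        exact this)
    exact Nat.ModEq.add_left_cancel' x h6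
  · intro h5
    have h6 : x + r ≡ x + (a + (q - 1) * x) [MOD q] := Nat.ModEq.add_left x h5
    rw [e1] at h6
    exact h6.trans (by unfold Nat.ModEq; simp)

/-- the number of integers of an interval in a class -/
theorem cmodI (x y q a : ℕ) (hq : 1 ≤ q) (hxy : x ≤ y) :
    |(((Ico x y).filter (fun s => s ≡ a [MOD q])).card : ℝ) - ((y : ℝ) - x) / q| ≤ 1 := by
  have h := cmod (y - x) q (a + (q - 1) * x) hq
  have e : ((Ico x y).filter (fun s => s ≡ a [MOD q])).card =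
      ((range (y - x)).filter (fun s => s ≡ a + (q - 1) * x [MOD q])).card := by
    symm
    apply card_bij (fun r _ => x + r)
    · intro r hr
      rw [mem_filter, mem_range] at hr
      rw [mem_filter, mem_Ico]
      exact ⟨⟨by omega, by omega⟩, (shift_mod q x r a hq).2 hr.2⟩
    · intro r _ r' _ h5
      omega
    · intro u hu
      rw [mem_filter, mem_Ico] at hu
      refine ⟨u - x, ?_, by omega⟩
      rw [mem_filter, mem_range]
      refine ⟨by omega, (shift_mod q x _ a hq).1 ?_⟩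
      have : x + (u - x) = u := by omega
      rw [this]
      exact hu.2
  rw [e]
  rw [Nat.cast_sub hxy] at h
  exact h

theorem card_le (x y q a : ℕ) (hq : 1 ≤ q) (hxy : x ≤ y) :
    (((Ico x y).filter (fun s => s ≡ a [MOD q])).card : ℝ) ≤ ((y : ℝ) - x) / q + 1 := by
  have h := cmodI x y q a hq hxy
  rw [abs_le] at h
  linarith [h.2]

theorem claim0 (m1 m2 A1 A2 q a b : ℕ) (hm : m1 ≤ m2) (hA : A1 ≤ A2) (hq : 1 ≤ q) :
    |((CS m1 m2 A1 A2 q a b).card : ℝ) - ((m2 : ℝ) - m1) * ((A2 : ℝ) - A1) / (q : ℝ) ^ 2| ≤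
      ((m2 : ℝ) - m1) + ((A2 : ℝ) - A1) + 1 := by
  have hq0 : (1 : ℝ) ≤ q := by exact_mod_cast hq
  have h0 : ((CS m1 m2 A1 A2 q a b).card : ℝ) = ∑ n ∈ CS m1 m2 A1 A2 q a b, (1 : ℝ) := by simp
  rw [h0, sum_CS]
  have h1 := cmodI m1 m2 q a hq hm
  have h2 := cmodI A1 A2 q b hq hA
  simp only [sum_const, nsmul_eq_mul, mul_one]
  set x : ℝ := (((Ico m1 m2).filter (fun s => s ≡ a [MOD q])).card : ℝ) with hx
  set y : ℝ := (((Ico A1 A2).filter (fun s => s ≡ b [MOD q])).card : ℝ) with hy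
  have hmm : (0 : ℝ) ≤ (m2 : ℝ) - m1 := by
    have : (m1 : ℝ) ≤ m2 := by exact_mod_cast hm
    linarith
  have hAA : (0 : ℝ) ≤ (A2 : ℝ) - A1 := by
    have : (A1 : ℝ) ≤ A2 := by exact_mod_cast hA
    linarith
  have h3 : ((m2 : ℝ) - m1) / q ≤ (m2 : ℝ) - m1 := div_le_self hmm hq0
  have h4 : ((A2 : ℝ) - A1) / q ≤ (A2 : ℝ) - A1 := div_le_self hAA hq0
  have e : x * y - ((m2 : ℝ) - m1) * ((A2 : ℝ) - A1) / (q : ℝ) ^ 2 =
      (x - ((m2 : ℝ) - m1) / q) * (y - ((A2 : ℝ) - A1) / q) +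
      (x - ((m2 : ℝ) - m1) / q) * (((A2 : ℝ) - A1) / q) +
      (((m2 : ℝ) - m1) / q) * (y - ((A2 : ℝ) - A1) / q) := by
    field_simp
    ring
  rw [e]
  have h5 : |(x - ((m2 : ℝ) - m1) / q) * (y - ((A2 : ℝ) - A1) / q)| ≤ 1 := by
    rw [abs_mul]
    exact mul_le_one₀ h1 (abs_nonneg _) h2
  have h6 : |(x - ((m2 : ℝ) - m1) / q) * (((A2 : ℝ) - A1) / q)| ≤ (A2 : ℝ) - A1 := by
    rw [abs_mul, abs_of_nonneg (div_nonneg hAA (by linarith) : 0 ≤ ((A2 : ℝ) - A1) / q)]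
    calc _ ≤ 1 * (((A2 : ℝ) - A1) / q) := mul_le_mul_of_nonneg_right h1 (div_nonneg hAA (by linarith))
      _ ≤ _ := by rw [one_mul]; exact h4
  have h7 : |(((m2 : ℝ) - m1) / q) * (y - ((A2 : ℝ) - A1) / q)| ≤ (m2 : ℝ) - m1 := by
    rw [abs_mul, abs_of_nonneg (div_nonneg hmm (by linarith) : 0 ≤ ((m2 : ℝ) - m1) / q)]
    calc _ ≤ (((m2 : ℝ) - m1) / q) * 1 := mul_le_mul_of_nonneg_left h2 (div_nonneg hmm (by linarith))
      _ ≤ _ := by rw [mul_one]; exact h3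
  refine (abs_add_le _ _).trans ?_
  have h8 := abs_add_le ((x - ((m2 : ℝ) - m1) / q) * (y - ((A2 : ℝ) - A1) / q))
    ((x - ((m2 : ℝ) - m1) / q) * (((A2 : ℝ) - A1) / q))
  linarith

/-- the class of the values -/
theorem val_mod (q t a b s r : ℕ) (hs : s ≡ a [MOD q]) :
    ((s + t) ^ 2 + r ≡ vn q t a b [MOD q]) ↔ (r ≡ b [MOD q]) := by
  have h1 : (s + t) ^ 2 ≡ (a + t) ^ 2 [MOD q] := Nat.ModEq.pow 2 (Nat.ModEq.add_right t hs)
  unfold vn
  constructor
  · intro h3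
    exact Nat.ModEq.add_left_cancel h1 h3
  · intro h3
    exact Nat.ModEq.add h1 h3

/-- shifting a row -/
theorem row_sh (A1 A2 q t a b s : ℕ) (hs : s ≡ a [MOD q]) (f : ℕ → ℝ) :
    ∑ r ∈ (Ico A1 A2).filter (fun r => r ≡ b [MOD q]), f ((s + t) ^ 2 + r) =
    ∑ u ∈ (Ico ((s + t) ^ 2 + A1) ((s + t) ^ 2 + A2)).filter
      (fun u => u ≡ vn q t a b [MOD q]), f u := by
  apply sum_bij (fun r _ => (s + t) ^ 2 + r)
  · intro r hr
    rw [mem_filter, mem_Ico] at hr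
    rw [mem_filter, mem_Ico]
    exact ⟨⟨by omega, by omega⟩, (val_mod q t a b s r hs).2 hr.2⟩
  · intro r _ r' _ h
    omega
  · intro u hu
    rw [mem_filter, mem_Ico] at hu
    obtain ⟨⟨h1, h2⟩, h3⟩ := hu
    refine ⟨u - (s + t) ^ 2, ?_, by omega⟩
    rw [mem_filter, mem_Ico]
    refine ⟨by omega, ?_⟩
    rw [← val_mod q t a b s _ hs]
    have : (s + t) ^ 2 + (u - (s + t) ^ 2) = u := by omega
    rw [this]
    exact h3
  · intro r _
    rfl

/-- a row -/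
theorem row (R Y : ℕ) (M : ℕ → ℝ) (hM : BVh R Y M) (q : ℕ) (hq : 1 ≤ q)
    (hR : ∀ p : ℕ, p.Prime → p ∣ q → p ≤ R) (x y c : ℕ) (hx : 1 ≤ x) (hxy : x ≤ y) (hY : y ≤ Y) :
    |∑ u ∈ (Ico x y).filter (fun u => u ≡ c [MOD q]), th R u -
      (if c.Coprime q then ((y : ℝ) - x) / Nat.totient q else 0)| ≤ 2 * M q := by
  have h := AP1 R Y M hM 1 q le_rfl hq (by rw [one_mul]; exact hR) x (c + (q - 1) * x) 0 (y - x)
    hx (by omega) (by omega)
  simp only [one_mul, Nat.cast_one, Nat.cast_zero, sub_zero] at h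
  have e1 : x + (c + (q - 1) * x) = c + q * x := by
    obtain ⟨m, rfl⟩ : ∃ m, q = m + 1 := ⟨q - 1, by omega⟩
    simp only [Nat.add_sub_cancel]
    ring
  rw [e1] at h
  have e2 : (c + q * x).Coprime q ↔ c.Coprime q := by
    rw [Nat.coprime_add_mul_left_left]
  have e3 : ∑ u ∈ (Ico x y).filter (fun u => u ≡ c [MOD q]), th R u =
      ∑ r ∈ (Ico 0 (y - x)).filter (fun r => r ≡ c + (q - 1) * x [MOD q]), th R (x + r) := by
    symm
    apply sum_bij (fun r _ => x + r)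
    · intro r hr
      rw [mem_filter, mem_Ico] at hr
      rw [mem_filter, mem_Ico]
      exact ⟨⟨by omega, by omega⟩, (shift_mod q x r c hq).2 hr.2⟩
    · intro r _ r' _ h5
      omega
    · intro u hu
      rw [mem_filter, mem_Ico] at hu
      obtain ⟨⟨h5, h6⟩, h7⟩ := hu
      refine ⟨u - x, ?_, by omega⟩
      rw [mem_filter, mem_Ico]
      refine ⟨⟨by omega, by omega⟩, (shift_mod q x _ c hq).1 ?_⟩
      have : x + (u - x) = u := by omega
      rw [this]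
      exact h7
    · intro r _
      rfl
  rw [e3]
  rw [Nat.cast_sub hxy] at h
  by_cases hc : c.Coprime q
  · rw [if_pos hc]
    rw [if_pos (e2.2 hc)] at h
    exact h
  · rw [if_neg hc]
    rw [if_neg (fun h5 => hc (e2.1 h5))] at h
    exact h

theorem claim1 (R Y : ℕ) (M : ℕ → ℝ) (hM : BVh R Y M) (hM0 : ∀ q, 0 ≤ M q) (m1 m2 A1 A2 q a b t : ℕ)
    (hm : m1 ≤ m2) (hA1 : 1 ≤ A1) (hA : A1 ≤ A2)
    (hq : 1 ≤ q) (hR : ∀ p : ℕ, p.Prime → p ∣ q → p ≤ R)
    (hY : (m2 + t) ^ 2 + A2 ≤ Y) :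
    |∑ n ∈ CS m1 m2 A1 A2 q a b, th R ((n.1 + t) ^ 2 + n.2) -
      (if (vn q t a b).Coprime q then ((m2 : ℝ) - m1) * ((A2 : ℝ) - A1) / (q * Nat.totient q) else 0)| ≤
      (((m2 : ℝ) - m1) / q + 1) * (2 * M q) + ((A2 : ℝ) - A1) / Nat.totient q := by
  have hq0 : (0 : ℝ) < q := by exact_mod_cast hq
  have hφ : (0 : ℝ) < Nat.totient q := by exact_mod_cast Nat.totient_pos.2 hq
  have hAA : (0 : ℝ) ≤ (A2 : ℝ) - A1 := by
    have : (A1 : ℝ) ≤ A2 := by exact_mod_cast hA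
    linarith
  rw [sum_CS]
  have e1 : ∀ s ∈ (Ico m1 m2).filter (fun s => s ≡ a [MOD q]),
      ∑ r ∈ (Ico A1 A2).filter (fun r => r ≡ b [MOD q]),
        th R (((s, r).1 + t) ^ 2 + (s, r).2) =
      ∑ u ∈ (Ico ((s + t) ^ 2 + A1) ((s + t) ^ 2 + A2)).filter
        (fun u => u ≡ vn q t a b [MOD q]), th R u := by
    intro s hs
    exact row_sh A1 A2 q t a b s (mem_filter.1 hs).2 (th R)
  rw [sum_congr rfl e1]
  have h2 := cmodI m1 m2 q a hq hm
  set δ : ℝ := if (vn q t a b).Coprime q then 1 else 0 with hδ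
  have hδ1 : |δ| ≤ 1 := by rw [hδ]; split_ifs <;> simp
  have h3 : |∑ s ∈ (Ico m1 m2).filter (fun s => s ≡ a [MOD q]),
      (∑ u ∈ (Ico ((s + t) ^ 2 + A1) ((s + t) ^ 2 + A2)).filter
        (fun u => u ≡ vn q t a b [MOD q]), th R u -
        (if (vn q t a b).Coprime q then (((((s + t) ^ 2 + A2 : ℕ) : ℝ) - (((s + t) ^ 2 + A1 : ℕ) : ℝ))) /
          Nat.totient q else 0))| ≤
      (((m2 : ℝ) - m1) / q + 1) * (2 * M q) := by
    refine (abs_sum_le_sum_abs _ _).trans ?_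
    refine (sum_le_sum (fun s hs => row R Y M hM q hq hR ((s + t) ^ 2 + A1) ((s + t) ^ 2 + A2)
      (vn q t a b) (by omega) (by omega) (by
      have h5 := (mem_Ico.1 (mem_filter.1 hs).1).2
      have h6 : (s + t) ^ 2 ≤ (m2 + t) ^ 2 := by gcongr
      omega))).trans ?_
    rw [sum_const, nsmul_eq_mul]
    apply mul_le_mul_of_nonneg_right _ (by linarith [hM0 q])
    rw [abs_le] at h2
    linarith
  rw [sum_sub_distrib] at h3
  have e2 : ∑ s ∈ (Ico m1 m2).filter (fun s => s ≡ a [MOD q]),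
      (if (vn q t a b).Coprime q then (((((s + t) ^ 2 + A2 : ℕ) : ℝ) - (((s + t) ^ 2 + A1 : ℕ) : ℝ))) /
          Nat.totient q else 0) =
      δ * ((((Ico m1 m2).filter (fun s => s ≡ a [MOD q])).card : ℝ) * (((A2 : ℝ) - A1) /
        Nat.totient q)) := by
    rw [hδ]
    split_ifs
    · rw [one_mul, ← nsmul_eq_mul, ← sum_const]
      refine sum_congr rfl fun s _ => ?_
      push_cast
      ring
    · simp
  have e3 : (if (vn q t a b).Coprime q then ((m2 : ℝ) - m1) * ((A2 : ℝ) - A1) / (q * Nat.totient q) else 0) =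
      δ * ((((m2 : ℝ) - m1) / q) * (((A2 : ℝ) - A1) / Nat.totient q)) := by
    rw [hδ]
    split_ifs
    · rw [one_mul, div_mul_div_comm]
    · simp
  rw [e2] at h3
  rw [e3]
  have h4 : |δ * ((((Ico m1 m2).filter (fun s => s ≡ a [MOD q])).card : ℝ) * (((A2 : ℝ) - A1) /
        Nat.totient q)) - δ * ((((m2 : ℝ) - m1) / q) * (((A2 : ℝ) - A1) / Nat.totient q))| ≤
      ((A2 : ℝ) - A1) / Nat.totient q := by
    rw [← mul_sub, ← sub_mul, abs_mul, abs_mul, abs_of_nonneg (div_nonneg hAA hφ.le)]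
    calc _ ≤ 1 * (1 * (((A2 : ℝ) - A1) / Nat.totient q)) := by
          apply mul_le_mul hδ1 _ (by positivity) zero_le_one
          exact mul_le_mul_of_nonneg_right h2 (div_nonneg hAA hφ.le)
      _ = _ := by ring
  rw [abs_le] at h3 h4 ⊢
  constructor <;> linarith [h3.1, h3.2, h4.1, h4.2]

end Pool.Agent.H43.BC
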