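import Pool.Agent.H43.BC.C2

set_option autoImplicit false

/-! Class sums with two primes, in terms of primes in short intervals and progressions. -/

namespace Pool.Agent.H43.BC

open Finset

/-- the discrepancy of the primes in `[w, w + len)` in the class of `b` modulo `k` -/
noncomputable def Fs (R w len k b : ℕ) : ℝ :=
  |∑ v ∈ (Ico w (w + len)).filter (fun v => v ≡ b [MOD k]), th R v -
    (if b.Coprime k then (len : ℝ) / Nat.totient k else 0)|

theorem Fs_nonneg (R w len k b : ℕ) : 0 ≤ Fs R w len k b := abs_nonneg _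

theorem ap_bij (d q u0 a s1 s2 : ℕ) (hd : 1 ≤ d) (f : ℕ → ℝ) :
    ∑ s ∈ (Ico s1 s2).filter (fun s => s ≡ a [MOD q]), f (u0 + d * s) =
      ∑ u ∈ (Ico (u0 + d * s1) (u0 + d * s2)).filter (fun u => u ≡ u0 + d * a [MOD (d * q)]), f u := by
  apply sum_bij (fun s _ => u0 + d * s)
  · intro s hs'
    rw [mem_filter, mem_Ico] at hs' ⊢
    obtain ⟨⟨h1, h2⟩, h3⟩ := hs'
    refine ⟨⟨by gcongr, ?_⟩, Nat.ModEq.add_left _ (Nat.ModEq.mul_left' d h3)⟩
    have : d * s < d * s2 := Nat.mul_lt_mul_of_pos_left h2 hd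
    omega
  · intro s _ s' _ h
    have : d * s = d * s' := by omega
    exact Nat.eq_of_mul_eq_mul_left hd this
  · intro u hu
    rw [mem_filter, mem_Ico] at hu
    obtain ⟨⟨h1, h2⟩, h3⟩ := hu
    have h4 : u0 ≤ u := by
      have : 0 ≤ d * s1 := Nat.zero_le _
      omega
    obtain ⟨v, hv⟩ := Nat.exists_eq_add_of_le h4
    subst hv
    have h5 : v ≡ d * a [MOD (d * q)] := Nat.ModEq.add_left_cancel' u0 h3
    have h6 : d ∣ v := by
      have h7 : v ≡ d * a [MOD d] := h5.of_mul_right q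
      have h8 : d * a ≡ 0 [MOD d] := (Nat.modEq_zero_iff_dvd.2 (dvd_mul_right d a))
      exact Nat.modEq_zero_iff_dvd.1 (h7.trans h8)
    obtain ⟨s, rfl⟩ := h6
    have h7 : s ≡ a [MOD q] := Nat.ModEq.mul_left_cancel' (by omega) h5
    refine ⟨s, ?_, rfl⟩
    rw [mem_filter, mem_Ico]
    refine ⟨⟨?_, ?_⟩, h7⟩
    · have : d * s1 ≤ d * s := by omega
      exact Nat.le_of_mul_le_mul_left this hd
    · have : d * s < d * s2 := by omega
      exact Nat.lt_of_mul_lt_mul_left this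
  · intro s _
    rfl

/-- splitting of an interval -/
theorem sum_split (f : ℕ → ℝ) (q a x y z : ℕ) (h1 : x ≤ y) (h2 : y ≤ z) :
    ∑ s ∈ (Ico x z).filter (fun s => s ≡ a [MOD q]), f s =
      ∑ s ∈ (Ico x y).filter (fun s => s ≡ a [MOD q]), f s +
      ∑ s ∈ (Ico y z).filter (fun s => s ≡ a [MOD q]), f s := by
  rw [← sum_union]
  · congr 1
    rw [← filter_union, Ico_union_Ico_eq_Ico h1 h2]
  · rw [disjoint_left]
    intro s hs hs'
    rw [mem_filter, mem_Ico] at hs hs'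
    omega

/-- the discrepancy of an arbitrary interval is bounded by the ones of the blocks -/
theorem blocks (f : ℕ → ℝ) (q a m1 L K : ℕ) (hq : 1 ≤ q) (hL : 1 ≤ L) (B c : ℝ) (hB1 : 0 ≤ B) (hc : 0 ≤ c)
    (hf : ∀ s < m1 + K * L, 0 ≤ f s ∧ f s ≤ B) (s1 s2 : ℕ) (h1 : m1 ≤ s1) (h12 : s1 ≤ s2)
    (h2 : s2 ≤ m1 + K * L) :
    |∑ s ∈ (Ico s1 s2).filter (fun s => s ≡ a [MOD q]), f s - c * ((s2 : ℝ) - s1)| ≤
      2 * ∑ j ∈ range K, |∑ s ∈ (Ico (m1 + j * L) (m1 + (j + 1) * L)).filter (fun s => s ≡ a [MOD q]), f s -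
        c * L| + 2 * (((L : ℝ) / q + 1) * B + c * L) := by
  classical
  have hq0 : (0 : ℝ) < q := by exact_mod_cast hq
  obtain ⟨G, hG⟩ : ∃ G : ℕ → ℝ, G = fun y => ∑ s ∈ (Ico m1 y).filter (fun s => s ≡ a [MOD q]), f s -
    c * ((y : ℝ) - m1) := ⟨_, rfl⟩
  -- whole blocks
  have hw : ∀ i : ℕ, G (m1 + i * L) = ∑ j ∈ range i,
      (∑ s ∈ (Ico (m1 + j * L) (m1 + (j + 1) * L)).filter (fun s => s ≡ a [MOD q]), f s - c * L) := by
    intro i
    induction i with
    | zero => rw [hG]; simp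
    | succ i ih =>
      rw [sum_range_succ, ← ih, hG]
      simp only
      rw [sum_split f q a m1 (m1 + i * L) (m1 + (i + 1) * L) (by omega) (by
        have : i * L ≤ (i + 1) * L := by gcongr; omega
        omega)]
      push_cast
      ring
  have key : ∀ y, m1 ≤ y → y ≤ m1 + K * L → |G y| ≤
      ∑ j ∈ range K, |∑ s ∈ (Ico (m1 + j * L) (m1 + (j + 1) * L)).filter (fun s => s ≡ a [MOD q]), f s -
        c * L| + (((L : ℝ) / q + 1) * B + c * L) := by
    intro y hy1 hy2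
    obtain ⟨i, hi⟩ : ∃ i, i = (y - m1) / L := ⟨_, rfl⟩
    have hi1 : i * L ≤ y - m1 := by rw [hi]; exact Nat.div_mul_le_self _ _
    have hi2 : y - m1 < (i + 1) * L := by
      rw [hi]
      have := Nat.lt_div_mul_add (a := y - m1) hL
      calc y - m1 < (y - m1) / L * L + L := this
        _ = ((y - m1) / L + 1) * L := by ring
    have hiK : i ≤ K := by
      rw [hi]
      have : y - m1 ≤ K * L := by omega
      calc (y - m1) / L ≤ (K * L) / L := Nat.div_le_div_right this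
        _ = K := Nat.mul_div_cancel _ hL
    have e1 : G y = G (m1 + i * L) +
        (∑ s ∈ (Ico (m1 + i * L) y).filter (fun s => s ≡ a [MOD q]), f s -
          c * ((y : ℝ) - (m1 + i * L : ℕ))) := by
      rw [hG]
      simp only
      rw [sum_split f q a m1 (m1 + i * L) y (by omega) (by omega)]
      push_cast
      ring
    have e2 : |G (m1 + i * L)| ≤ ∑ j ∈ range K,
        |∑ s ∈ (Ico (m1 + j * L) (m1 + (j + 1) * L)).filter (fun s => s ≡ a [MOD q]), f s - c * L| := by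
      rw [hw i]
      refine (abs_sum_le_sum_abs _ _).trans ?_
      apply sum_le_sum_of_subset_of_nonneg
      · intro j hj
        rw [mem_range] at hj ⊢
        omega
      · intro j _ _
        exact abs_nonneg _
    have hylen : (y : ℝ) - (m1 + i * L : ℕ) ≤ L := by
      have : y ≤ m1 + i * L + L := by
        have : (i + 1) * L = i * L + L := by ring
        omega
      have h3 : (y : ℝ) ≤ ((m1 + i * L + L : ℕ) : ℝ) := by exact_mod_cast this
      push_cast at h3 ⊢
      linarith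
    have hylen0 : 0 ≤ (y : ℝ) - (m1 + i * L : ℕ) := by
      have : m1 + i * L ≤ y := by omega
      have h3 : ((m1 + i * L : ℕ) : ℝ) ≤ y := by exact_mod_cast this
      linarith
    have hB0 : ∀ s ∈ (Ico (m1 + i * L) y).filter (fun s => s ≡ a [MOD q]), 0 ≤ f s ∧ f s ≤ B := by
      intro s hs
      have := (mem_Ico.1 (mem_filter.1 hs).1).2
      exact hf s (by omega)
    have e3 : 0 ≤ ∑ s ∈ (Ico (m1 + i * L) y).filter (fun s => s ≡ a [MOD q]), f s :=
      sum_nonneg fun s hs => (hB0 s hs).1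
    have e4 : ∑ s ∈ (Ico (m1 + i * L) y).filter (fun s => s ≡ a [MOD q]), f s ≤ ((L : ℝ) / q + 1) * B := by
      calc _ ≤ ∑ s ∈ (Ico (m1 + i * L) y).filter (fun s => s ≡ a [MOD q]), B :=
            sum_le_sum fun s hs => (hB0 s hs).2
        _ = (((Ico (m1 + i * L) y).filter (fun s => s ≡ a [MOD q])).card : ℝ) * B := by
            rw [sum_const, nsmul_eq_mul]
        _ ≤ (((y : ℝ) - (m1 + i * L : ℕ)) / q + 1) * B :=
            mul_le_mul_of_nonneg_right (card_le _ _ q a hq (by omega)) hB1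
        _ ≤ _ := by
            apply mul_le_mul_of_nonneg_right _ hB1
            have := div_le_div_of_nonneg_right hylen hq0.le
            linarith
    have e5 : |∑ s ∈ (Ico (m1 + i * L) y).filter (fun s => s ≡ a [MOD q]), f s -
          c * ((y : ℝ) - (m1 + i * L : ℕ))| ≤ ((L : ℝ) / q + 1) * B + c * L := by
      have h3 : c * ((y : ℝ) - (m1 + i * L : ℕ)) ≤ c * L := mul_le_mul_of_nonneg_left hylen hc
      have h4 : 0 ≤ c * ((y : ℝ) - (m1 + i * L : ℕ)) := mul_nonneg hc hylen0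
      have h5 : 0 ≤ c * L := by positivity
      rw [abs_le]
      constructor <;> linarith
    rw [e1]
    exact (abs_add_le _ _).trans (add_le_add e2 e5)
  have e6 : ∑ s ∈ (Ico s1 s2).filter (fun s => s ≡ a [MOD q]), f s - c * ((s2 : ℝ) - s1) = G s2 - G s1 := by
    rw [hG]
    simp only
    rw [sum_split f q a m1 s1 s2 h1 h12]
    ring
  rw [e6]
  refine (abs_sub _ _).trans ?_
  have h3 := key s1 h1 (h12.trans h2)
  have h4 := key s2 (h1.trans h12) h2
  linarith

/-- an intersection of an upper and a lower set of an interval is an interval -/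
theorem interval (m1 m2 : ℕ) (hm : m1 ≤ m2) (P Q : ℕ → Prop) [DecidablePred P] [DecidablePred Q]
    (hP : ∀ s s', s ≤ s' → P s → P s') (hQ : ∀ s s', s ≤ s' → Q s' → Q s) :
    ∃ s1 s2 : ℕ, m1 ≤ s1 ∧ s1 ≤ s2 ∧ s2 ≤ m2 ∧ (Ico m1 m2).filter (fun s => P s ∧ Q s) = Ico s1 s2 := by
  by_cases h : ((Ico m1 m2).filter (fun s => P s ∧ Q s)).Nonempty
  · have h1 := min'_mem _ h
    have h2 := max'_mem _ h
    rw [mem_filter, mem_Ico] at h1 h2
    refine ⟨((Ico m1 m2).filter (fun s => P s ∧ Q s)).min' h,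
      ((Ico m1 m2).filter (fun s => P s ∧ Q s)).max' h + 1, h1.1.1, ?_, by omega, ?_⟩
    · have := min'_le_max' _ h
      omega
    · ext s
      constructor
      · intro hs
        rw [mem_Ico]
        have h3 := min'_le _ s hs
        have h4 := le_max' _ s hs
        omega
      · intro hs
        rw [mem_Ico] at hs
        rw [mem_filter, mem_Ico]
        refine ⟨by omega, hP _ _ hs.1 h1.2.1, hQ _ _ (by omega) h2.2.2⟩
  · rw [not_nonempty_iff_eq_empty] at h
    exact ⟨m1, m1, le_rfl, le_rfl, hm, by rw [h]; simp⟩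

theorem vn_shift (q t δ a b : ℕ) :
    vn q t a b + δ * (2 * a + (2 * t + δ)) = vn q (t + δ) a b := by
  unfold vn
  ring

/-- two primes -/
theorem claim2 (R Y : ℕ) (M : ℕ → ℝ) (hM : BVh R Y M) (hM0 : ∀ q, 0 ≤ M q)
    (m1 m2 A1 A2 L K q a b t δ : ℕ) (hL : 1 ≤ L) (hm2 : m2 = m1 + K * L) (hA1 : 1 ≤ A1) (hA : A1 ≤ A2)
    (hq : 1 ≤ q) (h2q : 2 ∣ q) (hR : ∀ p : ℕ, p.Prime → p ∣ q → p ≤ R) (hδ : 1 ≤ δ) (hδR : δ ≤ R)
    (hY : (m2 + t + δ) ^ 2 + A2 ≤ Y) (Y0 : ℕ) (hY0 : Y0 = (m2 + t) ^ 2 + A2) :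
    |∑ n ∈ CS m1 m2 A1 A2 q a b, th R ((n.1 + t) ^ 2 + n.2) * th R ((n.1 + (t + δ)) ^ 2 + n.2) -
      (if (vn q t a b).Coprime q ∧ (vn q (t + δ) a b).Coprime q then
        2 * δ * (((m2 : ℝ) - m1) * ((A2 : ℝ) - A1)) / (Nat.totient (2 * δ * q) * Nat.totient q) else 0)| ≤
      ∑ u ∈ (Ico 1 Y0).filter (fun u => u ≡ vn q t a b [MOD q]), th R u *
        (2 * ∑ j ∈ range K, Fs R (u + δ * (2 * t + δ) + 2 * δ * (m1 + j * L)) (2 * δ * L) (2 * δ * q)
            (u + δ * (2 * t + δ) + 2 * δ * a) +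
          2 * (((L : ℝ) / q + 1) * Real.log Y + 2 * δ / Nat.totient (2 * δ * q) * L)) +
      2 * δ / Nat.totient (2 * δ * q) * (((m2 : ℝ) - m1) * (2 * M q)) := by
  have hq0 : (0 : ℝ) < q := by exact_mod_cast hq
  have hm : m1 ≤ m2 := by omega
  have hφ : (0 : ℝ) < Nat.totient q := by exact_mod_cast Nat.totient_pos.2 hq
  have h2δq : 1 ≤ 2 * δ * q := Nat.mul_pos (by omega) hq
  have hφ2 : (0 : ℝ) < Nat.totient (2 * δ * q) := by exact_mod_cast Nat.totient_pos.2 h2δq
  have hmm : (0 : ℝ) ≤ (m2 : ℝ) - m1 := by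
    have : (m1 : ℝ) ≤ m2 := by exact_mod_cast hm
    linarith
  obtain ⟨c, hc⟩ : ∃ c, c = vn q t a b := ⟨_, rfl⟩
  rw [← hc]
  -- the predicate
  set I : ℕ → ℕ → Prop := fun s u => u < (s + t) ^ 2 + A2 ∧ (s + t) ^ 2 + A1 ≤ u with hI
  have hdec : ∀ s u, Decidable (I s u) := fun s u => by rw [hI]; infer_instance
  have hval : ∀ s r : ℕ, (s + (t + δ)) ^ 2 + r = ((s + t) ^ 2 + r) + δ * (2 * s + (2 * t + δ)) := by
    intro s r
    ring
  -- first form
  have e1 : ∑ n ∈ CS m1 m2 A1 A2 q a b, th R ((n.1 + t) ^ 2 + n.2) * th R ((n.1 + (t + δ)) ^ 2 + n.2) =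
      ∑ s ∈ (Ico m1 m2).filter (fun s => s ≡ a [MOD q]),
        ∑ u ∈ (Ico ((s + t) ^ 2 + A1) ((s + t) ^ 2 + A2)).filter (fun u => u ≡ c [MOD q]),
          th R u * th R (u + δ * (2 * s + (2 * t + δ))) := by
    rw [sum_CS]
    refine sum_congr rfl fun s hs => ?_
    rw [hc, ← row_sh A1 A2 q t a b s (mem_filter.1 hs).2
      (fun u => th R u * th R (u + δ * (2 * s + (2 * t + δ))))]
    refine sum_congr rfl fun r hr => ?_
    simp only
    rw [hval s r]
  have e2 : ∀ s ∈ Ico m1 m2, ∀ g : ℕ → ℝ,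
      ∑ u ∈ (Ico ((s + t) ^ 2 + A1) ((s + t) ^ 2 + A2)).filter (fun u => u ≡ c [MOD q]), g u =
      ∑ u ∈ (Ico 1 Y0).filter (fun u => u ≡ c [MOD q]), if I s u then g u else 0 := by
    intro s hs g
    rw [← sum_filter, filter_filter]
    apply sum_congr _ (fun _ _ => rfl)
    ext u
    simp only [mem_filter, mem_Ico, hI]
    have h1 := (mem_Ico.1 hs).2
    have h2 : (s + t) ^ 2 ≤ (m2 + t) ^ 2 := by gcongr
    constructor
    · rintro ⟨⟨h5, h6⟩, h7⟩
      exact ⟨⟨by omega, by omega⟩, h7, h6, h5⟩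
    · rintro ⟨⟨h5, h6⟩, h7, h8, h9⟩
      exact ⟨⟨h9, h8⟩, h7⟩
  have e3 : ∑ n ∈ CS m1 m2 A1 A2 q a b, th R ((n.1 + t) ^ 2 + n.2) * th R ((n.1 + (t + δ)) ^ 2 + n.2) =
      ∑ u ∈ (Ico 1 Y0).filter (fun u => u ≡ c [MOD q]), th R u *
        ∑ s ∈ ((Ico m1 m2).filter (fun s => I s u)).filter (fun s => s ≡ a [MOD q]),
          th R (u + δ * (2 * t + δ) + 2 * δ * s) := by
    rw [e1, sum_congr rfl (fun s hs => e2 s (mem_filter.1 hs).1 _), sum_comm]
    refine sum_congr rfl fun u _ => ?_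
    rw [mul_sum, ← sum_filter, Finset.filter_comm]
    refine sum_congr rfl fun s _ => ?_
    have h1 : u + δ * (2 * s + (2 * t + δ)) = u + δ * (2 * t + δ) + 2 * δ * s := by ring
    rw [h1]
  -- intervals
  have hint : ∀ u, ∃ s1 s2 : ℕ, m1 ≤ s1 ∧ s1 ≤ s2 ∧ s2 ≤ m2 ∧
      (Ico m1 m2).filter (fun s => I s u) = Ico s1 s2 := by
    intro u
    obtain ⟨s1, s2, g0, g1, g2, g3⟩ := interval m1 m2 hm (fun s => u < (s + t) ^ 2 + A2)
      (fun s => (s + t) ^ 2 + A1 ≤ u)
      (fun s s' h1 h2 => by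
        have : (s + t) ^ 2 ≤ (s' + t) ^ 2 := by gcongr
        omega)
      (fun s s' h1 h2 => by
        have : (s + t) ^ 2 ≤ (s' + t) ^ 2 := by gcongr
        omega)
    refine ⟨s1, s2, g0, g1, g2, ?_⟩
    rw [← g3]
    ext s
    simp only [mem_filter, hI]
  -- the inner sums
  set κ : ℝ := if (vn q (t + δ) a b).Coprime q then 2 * δ / (Nat.totient (2 * δ * q) : ℝ) else 0 with hκ
  have hκ0 : 0 ≤ κ := by rw [hκ]; split_ifs <;> positivity
  have hκ1 : κ ≤ 2 * δ / (Nat.totient (2 * δ * q) : ℝ) := by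
    rw [hκ]; split_ifs
    · exact le_rfl
    · positivity
  have hin : ∀ u ∈ (Ico 1 Y0).filter (fun u => u ≡ c [MOD q]),
      |th R u * ∑ s ∈ ((Ico m1 m2).filter (fun s => I s u)).filter (fun s => s ≡ a [MOD q]),
          th R (u + δ * (2 * t + δ) + 2 * δ * s) -
        κ * (th R u * (((Ico m1 m2).filter (fun s => I s u)).card : ℝ))| ≤
      th R u * (2 * ∑ j ∈ range K, Fs R (u + δ * (2 * t + δ) + 2 * δ * (m1 + j * L)) (2 * δ * L)
            (2 * δ * q) (u + δ * (2 * t + δ) + 2 * δ * a) +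
          2 * (((L : ℝ) / q + 1) * Real.log Y + 2 * δ / Nat.totient (2 * δ * q) * L)) := by
    intro u hu
    rw [mem_filter, mem_Ico] at hu
    obtain ⟨⟨hu1, hu2⟩, huc⟩ := hu
    by_cases hz : th R u = 0
    · rw [hz]; simp
    · have hup : u.Prime ∧ R < u := by
        unfold th at hz
        by_contra h
        rw [if_neg h] at hz
        exact hz rfl
      obtain ⟨s1, s2, g0, g1, g2, g3⟩ := hint u
      rw [g3, Nat.card_Ico]
      have hcop : (u + δ * (2 * t + δ) + 2 * δ * a).Coprime (2 * δ * q) ↔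
          (vn q (t + δ) a b).Coprime q := by
        have hx : u + δ * (2 * t + δ) + 2 * δ * a ≡ vn q (t + δ) a b [MOD q] := by
          rw [← vn_shift q t δ a b, ← hc]
          have : u + δ * (2 * t + δ) + 2 * δ * a = u + δ * (2 * a + (2 * t + δ)) := by ring
          rw [this]
          exact Nat.ModEq.add_right _ huc
        have hcq : (u + δ * (2 * t + δ) + 2 * δ * a).Coprime q ↔ (vn q (t + δ) a b).Coprime q := by
          unfold Nat.Coprime
          rw [hx.gcd_eq]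
        rw [← hcq]
        constructor
        · intro h1
          exact Nat.Coprime.coprime_dvd_right (dvd_mul_left q _) h1
        · intro h1
          apply Nat.Coprime.mul_right _ h1
          apply Nat.Coprime.mul_right
          · exact Nat.Coprime.coprime_dvd_right h2q h1
          · have h3 : u.Coprime δ := by
              rw [Nat.Prime.coprime_iff_not_dvd hup.1]
              intro h4
              have := Nat.le_of_dvd (by omega) h4
              omega
            have h4 : u + δ * (2 * t + δ) + 2 * δ * a = u + δ * ((2 * t + δ) + 2 * a) := by ring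
            rw [h4, Nat.coprime_add_mul_left_left]
            exact h3
      have hbl := blocks (fun s => th R (u + δ * (2 * t + δ) + 2 * δ * s)) q a m1 L K hq hL
        (Real.log Y) κ (Real.log_natCast_nonneg Y) hκ0 (by
          intro s hs
          refine ⟨th_nonneg _ _, th_le _ _ _ ?_⟩
          have h5 : δ * s ≤ δ * m2 := by
            apply Nat.mul_le_mul_left
            omega
          have h6 : (m2 + t + δ) ^ 2 + A2 = ((m2 + t) ^ 2 + A2) + δ * (2 * t + δ) + 2 * δ * m2 := by ring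
          have h7 : 2 * δ * s = 2 * (δ * s) := by ring
          have h8 : 2 * δ * m2 = 2 * (δ * m2) := by ring
          omega) s1 s2 g0 g1 (by rw [← hm2]; exact g2)
      have hFs : ∀ j ∈ range K, |∑ s ∈ (Ico (m1 + j * L) (m1 + (j + 1) * L)).filter
          (fun s => s ≡ a [MOD q]), th R (u + δ * (2 * t + δ) + 2 * δ * s) - κ * L| =
          Fs R (u + δ * (2 * t + δ) + 2 * δ * (m1 + j * L)) (2 * δ * L) (2 * δ * q)
            (u + δ * (2 * t + δ) + 2 * δ * a) := by
        intro j _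
        unfold Fs
        rw [ap_bij (2 * δ) q (u + δ * (2 * t + δ)) a (m1 + j * L) (m1 + (j + 1) * L) (by omega) (th R)]
        have h5 : u + δ * (2 * t + δ) + 2 * δ * (m1 + (j + 1) * L) =
            u + δ * (2 * t + δ) + 2 * δ * (m1 + j * L) + 2 * δ * L := by ring
        rw [h5]
        congr 2
        rw [hκ]
        by_cases h6 : (vn q (t + δ) a b).Coprime q
        · rw [if_pos h6, if_pos (hcop.2 h6)]
          push_cast
          ring
        · rw [if_neg h6, if_neg (fun h7 => h6 (hcop.1 h7)), zero_mul]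
      rw [sum_congr rfl hFs] at hbl
      rw [Nat.cast_sub g1]
      have e5 : κ * (th R u * ((s2 : ℝ) - s1)) = th R u * (κ * ((s2 : ℝ) - s1)) := by ring
      rw [e5, ← mul_sub, abs_mul, abs_of_nonneg (th_nonneg R u)]
      apply mul_le_mul_of_nonneg_left _ (th_nonneg R u)
      refine hbl.trans ?_
      have h9 : κ * L ≤ 2 * δ / (Nat.totient (2 * δ * q) : ℝ) * L :=
        mul_le_mul_of_nonneg_right hκ1 (Nat.cast_nonneg _)
      linarith
  -- the outer sum
  have hout : |∑ u ∈ (Ico 1 Y0).filter (fun u => u ≡ c [MOD q]),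
      th R u * (((Ico m1 m2).filter (fun s => I s u)).card : ℝ) -
      (if c.Coprime q then ((m2 : ℝ) - m1) * ((A2 : ℝ) - A1) / Nat.totient q else 0)| ≤
      ((m2 : ℝ) - m1) * (2 * M q) := by
    have e6 : ∑ u ∈ (Ico 1 Y0).filter (fun u => u ≡ c [MOD q]),
        th R u * (((Ico m1 m2).filter (fun s => I s u)).card : ℝ) =
        ∑ s ∈ Ico m1 m2, ∑ u ∈ (Ico ((s + t) ^ 2 + A1) ((s + t) ^ 2 + A2)).filter
          (fun u => u ≡ c [MOD q]), th R u := by
      rw [sum_congr rfl (fun s hs => e2 s hs (th R)), sum_comm]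
      refine sum_congr rfl fun u _ => ?_
      rw [← sum_filter, sum_const, nsmul_eq_mul, mul_comm]
    have e7 : (if c.Coprime q then ((m2 : ℝ) - m1) * ((A2 : ℝ) - A1) / Nat.totient q else 0) =
        ∑ s ∈ Ico m1 m2, (if c.Coprime q then (((((s + t) ^ 2 + A2 : ℕ) : ℝ) -
          (((s + t) ^ 2 + A1 : ℕ) : ℝ))) / Nat.totient q else 0) := by
      split_ifs
      · have : ∀ s ∈ Ico m1 m2, (((((s + t) ^ 2 + A2 : ℕ) : ℝ) -
          (((s + t) ^ 2 + A1 : ℕ) : ℝ))) / (Nat.totient q : ℝ) = ((A2 : ℝ) - A1) / Nat.totient q := by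
          intro s _
          push_cast
          ring
        rw [sum_congr rfl this, sum_const, nsmul_eq_mul, Nat.card_Ico, Nat.cast_sub hm, mul_div_assoc]
      · rw [sum_const_zero]
    rw [e6, e7, ← sum_sub_distrib]
    refine (abs_sum_le_sum_abs _ _).trans ?_
    refine (sum_le_sum (fun s hs => row R Y M hM q hq hR ((s + t) ^ 2 + A1) ((s + t) ^ 2 + A2) c
      (by omega) (by omega) (by
      have h5 := (mem_Ico.1 hs).2
      have h6 : (s + t) ^ 2 ≤ (m2 + t + δ) ^ 2 := by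
        apply Nat.pow_le_pow_left
        omega
      omega))).trans ?_
    rw [sum_const, nsmul_eq_mul, Nat.card_Ico, Nat.cast_sub hm]
  rw [e3]
  have hA' : |∑ u ∈ (Ico 1 Y0).filter (fun u => u ≡ c [MOD q]),
      (th R u * ∑ s ∈ ((Ico m1 m2).filter (fun s => I s u)).filter (fun s => s ≡ a [MOD q]),
          th R (u + δ * (2 * t + δ) + 2 * δ * s) -
        κ * (th R u * (((Ico m1 m2).filter (fun s => I s u)).card : ℝ)))| ≤
      ∑ u ∈ (Ico 1 Y0).filter (fun u => u ≡ c [MOD q]), th R u *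
        (2 * ∑ j ∈ range K, Fs R (u + δ * (2 * t + δ) + 2 * δ * (m1 + j * L)) (2 * δ * L) (2 * δ * q)
            (u + δ * (2 * t + δ) + 2 * δ * a) +
          2 * (((L : ℝ) / q + 1) * Real.log Y + 2 * δ / Nat.totient (2 * δ * q) * L)) :=
    (abs_sum_le_sum_abs _ _).trans (sum_le_sum hin)
  rw [sum_sub_distrib, ← mul_sum] at hA'
  have hB : |κ * ∑ u ∈ (Ico 1 Y0).filter (fun u => u ≡ c [MOD q]),
      th R u * (((Ico m1 m2).filter (fun s => I s u)).card : ℝ) -
      κ * (if c.Coprime q then ((m2 : ℝ) - m1) * ((A2 : ℝ) - A1) / Nat.totient q else 0)| ≤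
      2 * δ / Nat.totient (2 * δ * q) * (((m2 : ℝ) - m1) * (2 * M q)) := by
    rw [← mul_sub, abs_mul, abs_of_nonneg hκ0]
    exact mul_le_mul hκ1 hout (abs_nonneg _) (by positivity)
  have e8 : (if c.Coprime q ∧ (vn q (t + δ) a b).Coprime q then
        2 * δ * (((m2 : ℝ) - m1) * ((A2 : ℝ) - A1)) / (Nat.totient (2 * δ * q) * Nat.totient q) else 0) =
      κ * (if c.Coprime q then ((m2 : ℝ) - m1) * ((A2 : ℝ) - A1) / Nat.totient q else 0) := by
    rw [hκ]
    by_cases h1 : c.Coprime q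
    · by_cases h2 : (vn q (t + δ) a b).Coprime q
      · rw [if_pos ⟨h1, h2⟩, if_pos h2, if_pos h1, div_mul_div_comm]
      · rw [if_neg (fun h => h2 h.2), if_neg h2, zero_mul]
    · rw [if_neg (fun h => h1 h.1), if_neg h1, mul_zero]
  rw [e8]
  rw [abs_le] at hA' hB ⊢
  constructor <;> linarith [hA'.1, hA'.2, hB.1, hB.2]

end Pool.Agent.H43.BC
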