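import Pool.Agent.H43.BC.C3
import Pool.Agent.H43.BC.B3

set_option autoImplicit false
set_option linter.unusedSectionVars false

/-! The class hypothesis of the engine. -/

namespace Pool.Agent.H43.BC

open Finset

/-- the modulus -/
def TT {P : Finset ℕ} (T : Finset P) : ℕ := ∏ t ∈ T, (t : ℕ)

/-- local classes -/
def loc {P : Finset ℕ} (n : ℕ × ℕ) (t : P) : ℕ × ℕ := (n.1 % t, n.2 % t)

theorem loc_mem {P : Finset ℕ} (hP : ∀ p ∈ P, p.Prime) (n : ℕ × ℕ) (t : P) : loc n t ∈ Cl (t : ℕ) := by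
  unfold loc Cl
  have h := (hP t t.2).pos
  rw [mem_product, mem_range, mem_range]
  exact ⟨Nat.mod_lt _ h, Nat.mod_lt _ h⟩

theorem cop_TT {P : Finset ℕ} (hP : ∀ p ∈ P, p.Prime) (W : ℕ) (hW : ∀ p ∈ P, ¬ p ∣ W)
    (T : Finset P) (t : P) (ht : t ∉ T) : (W * TT T).Coprime t := by
  have hp := hP t t.2
  rw [Nat.coprime_comm, Nat.Prime.coprime_iff_not_dvd hp]
  intro h
  rcases (Nat.Prime.dvd_mul hp).1 h with h1 | h1
  · exact hW t t.2 h1
  · unfold TT at h1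
    obtain ⟨s, hs, h2⟩ := (Prime.dvd_finsetProd_iff hp.prime _).1 h1
    have h3 := (Nat.prime_dvd_prime_iff_eq hp (hP s s.2)).1 h2
    exact ht (by rwa [Subtype.ext h3])

theorem TT_insert {P : Finset ℕ} (T : Finset P) (t : P) (ht : t ∉ T) (W : ℕ) :
    W * TT (insert t T) = W * TT T * t := by
  unfold TT
  rw [prod_insert ht]
  ring

theorem crtT {P : Finset ℕ} (hP : ∀ p ∈ P, p.Prime) (W : ℕ) (hW : ∀ p ∈ P, ¬ p ∣ W) (s0 r0 : ℕ)
    (c : P → ℕ × ℕ) (T : Finset P) :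
    ∃ a b : ℕ, ∀ m : ℕ × ℕ, (m.1 ≡ a [MOD (W * TT T)] ∧ m.2 ≡ b [MOD (W * TT T)]) ↔
      (m.1 ≡ s0 [MOD W] ∧ m.2 ≡ r0 [MOD W] ∧
        ∀ t ∈ T, m.1 ≡ (c t).1 [MOD t] ∧ m.2 ≡ (c t).2 [MOD t]) := by
  induction T using Finset.induction_on with
  | empty =>
    refine ⟨s0, r0, fun m => ?_⟩
    unfold TT
    simp
  | insert t T ht ih =>
    obtain ⟨a, b, hab⟩ := ih
    have hco := cop_TT hP W hW T t ht
    obtain ⟨a', ha'⟩ := Nat.chineseRemainder hco a (c t).1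
    obtain ⟨b', hb'⟩ := Nat.chineseRemainder hco b (c t).2
    refine ⟨a', b', fun m => ?_⟩
    rw [TT_insert T t ht W, ← Nat.modEq_and_modEq_iff_modEq_mul hco,
      ← Nat.modEq_and_modEq_iff_modEq_mul hco]
    constructor
    · rintro ⟨⟨h1, h2⟩, h3, h4⟩
      obtain ⟨g1, g2, g3⟩ := (hab m).1 ⟨h1.trans ha'.1, h3.trans hb'.1⟩
      refine ⟨g1, g2, fun s hs => ?_⟩
      rw [mem_insert] at hs
      rcases hs with rfl | hs
      · exact ⟨h2.trans ha'.2, h4.trans hb'.2⟩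
      · exact g3 s hs
    · rintro ⟨h1, h2, h3⟩
      obtain ⟨g1, g2⟩ := (hab m).2 ⟨h1, h2, fun s hs => h3 s (mem_insert_of_mem hs)⟩
      obtain ⟨g3, g4⟩ := h3 t (mem_insert_self _ _)
      exact ⟨⟨g1.trans ha'.1.symm, g3.trans ha'.2.symm⟩, g2.trans hb'.1.symm, g4.trans hb'.2.symm⟩

theorem filter_CS {P : Finset ℕ} (hP : ∀ p ∈ P, p.Prime) (W : ℕ) (hW : ∀ p ∈ P, ¬ p ∣ W)
    (m1 m2 A1 A2 s0 r0 : ℕ) (c : P → ℕ × ℕ) (T : Finset P) (hc : ∀ t ∈ T, c t ∈ Cl (t : ℕ)) :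
    ∃ a b : ℕ, (CS m1 m2 A1 A2 W s0 r0).filter (fun n => ∀ t ∈ T, loc n t = c t) =
      CS m1 m2 A1 A2 (W * TT T) a b ∧
      a ≡ s0 [MOD W] ∧ b ≡ r0 [MOD W] ∧ ∀ t ∈ T, a ≡ (c t).1 [MOD t] ∧ b ≡ (c t).2 [MOD t] := by
  obtain ⟨a, b, hab⟩ := crtT hP W hW s0 r0 c T
  refine ⟨a, b, ?_, ((hab (a, b)).1 ⟨rfl, rfl⟩)⟩
  ext n
  unfold CS
  simp only [mem_filter]
  have hl : ∀ t ∈ T, (loc n t = c t ↔ n.1 ≡ (c t).1 [MOD t] ∧ n.2 ≡ (c t).2 [MOD t]) := by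
    intro t ht
    have h1 := hc t ht
    unfold Cl at h1
    rw [mem_product, mem_range, mem_range] at h1
    unfold loc
    rw [Prod.ext_iff]
    simp only [Nat.ModEq]
    rw [Nat.mod_eq_of_lt h1.1, Nat.mod_eq_of_lt h1.2]
  constructor
  · rintro ⟨⟨h1, h3, h4⟩, h5⟩
    have h6 := (hab n).2 ⟨h3, h4, fun t ht => (hl t ht).1 (h5 t ht)⟩
    exact ⟨h1, h6.1, h6.2⟩
  · rintro ⟨h1, h3, h4⟩
    have h5 := (hab n).1 ⟨h3, h4⟩
    exact ⟨⟨h1, h5.1, h5.2.1⟩, fun t ht => (hl t ht).2 (h5.2.2 t ht)⟩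

/-- divisibility of the representative -/
theorem dvd_vn (q t a b p : ℕ) : p ∣ vn q t a b ↔ (p : ℤ) ∣ vv t (a, b) := by
  unfold vn vv
  rw [← Int.natCast_dvd_natCast]
  push_cast
  rfl

theorem vv_congr (p t : ℕ) (x y : ℕ × ℕ) (h1 : x.1 ≡ y.1 [MOD p]) (h2 : x.2 ≡ y.2 [MOD p]) :
    (p : ℤ) ∣ vv t x ↔ (p : ℤ) ∣ vv t y := by
  unfold vv
  have g1 : (p : ℤ) ∣ (y.1 : ℤ) - x.1 := Nat.modEq_iff_dvd.1 h1
  have g2 : (p : ℤ) ∣ (y.2 : ℤ) - x.2 := Nat.modEq_iff_dvd.1 h2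
  have e : (((y.1 : ℤ) + t) ^ 2 + y.2) - (((x.1 : ℤ) + t) ^ 2 + x.2) =
      (y.1 + x.1 + 2 * t) * (y.1 - x.1) + (y.2 - x.2) := by ring
  have g3 : (p : ℤ) ∣ (((y.1 : ℤ) + t) ^ 2 + y.2) - (((x.1 : ℤ) + t) ^ 2 + x.2) := by
    rw [e]
    exact dvd_add (Dvd.dvd.mul_left g1 _) g2
  constructor
  · intro h
    have := dvd_add h g3
    simpa using this
  · intro h
    have := dvd_sub h g3
    simpa using this

theorem cop_iff {P : Finset ℕ} (hP : ∀ p ∈ P, p.Prime) (W : ℕ) (T : Finset P)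
    (c : P → ℕ × ℕ) (a b s0 r0 τ : ℕ) (ha : a ≡ s0 [MOD W]) (hb : b ≡ r0 [MOD W])
    (hab : ∀ t ∈ T, a ≡ (c t).1 [MOD t] ∧ b ≡ (c t).2 [MOD t])
    (hcl : (vn W τ s0 r0).Coprime W) :
    (vn (W * TT T) τ a b).Coprime (W * TT T) ↔ ∀ t ∈ T, ¬ ((t : ℕ) : ℤ) ∣ vv τ (c t) := by
  constructor
  · intro h t ht hd
    have hp := hP t t.2
    have h1 : (t : ℕ) ∣ W * TT T := (dvd_prod_of_mem _ ht).mul_left W
    have h2 : (t : ℕ) ∣ vn (W * TT T) τ a b := by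
      rw [dvd_vn]
      exact (vv_congr t τ (a, b) (c t) (hab t ht).1 (hab t ht).2).2 hd
    have h3 := Nat.eq_one_of_dvd_coprimes h h2 h1
    exact hp.one_lt.ne' h3
  · intro h
    rw [Nat.coprime_iff_gcd_eq_one]
    by_contra hne
    obtain ⟨p, hp, hpd⟩ := Nat.exists_prime_and_dvd hne
    have h1 := hpd.trans (Nat.gcd_dvd_left _ _)
    have h2 := hpd.trans (Nat.gcd_dvd_right _ _)
    have h3 := (dvd_vn _ _ _ _ p).1 h1
    rcases (Nat.Prime.dvd_mul hp).1 h2 with h4 | h4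
    · have h5 := (vv_congr p τ (a, b) (s0, r0) (ha.of_dvd h4) (hb.of_dvd h4)).1 h3
      have h6 := (dvd_vn W τ s0 r0 p).2 h5
      exact hp.one_lt.ne' (Nat.eq_one_of_dvd_coprimes hcl h6 h4)
    · unfold TT at h4
      obtain ⟨t, ht, h5⟩ := (Prime.dvd_finsetProd_iff hp.prime _).1 h4
      have h6 := (Nat.prime_dvd_prime_iff_eq hp (hP t t.2)).1 h5
      subst h6
      exact h t ht ((vv_congr t τ (a, b) (c t) (hab t ht).1 (hab t ht).2).1 h3)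

/-- `φ` of the modulus -/
theorem tot_TT {P : Finset ℕ} (hP : ∀ p ∈ P, p.Prime) (W : ℕ) (hW : ∀ p ∈ P, ¬ p ∣ W) (T : Finset P) :
    (Nat.totient (W * TT T) : ℝ) = Nat.totient W * ∏ t ∈ T, (((t : ℕ) : ℝ) - 1) := by
  induction T using Finset.induction_on with
  | empty => unfold TT; simp
  | insert t T ht ih =>
    have hco := cop_TT hP W hW T t ht
    rw [TT_insert T t ht W, Nat.totient_mul hco, prod_insert ht, Nat.totient_prime (hP t t.2)]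
    push_cast
    rw [ih, Nat.cast_sub (hP t t.2).one_lt.le]
    push_cast
    ring

theorem tot_TT2 {P : Finset ℕ} (hP : ∀ p ∈ P, p.Prime) (W δ : ℕ) (hW : ∀ p ∈ P, ¬ p ∣ W)
    (h2 : 2 ∣ W) (T : Finset P) :
    (Nat.totient (2 * δ * (W * TT T)) : ℝ) = Nat.totient (2 * δ * W) *
      ∏ t ∈ T, (if (t : ℕ) ∣ δ then ((t : ℕ) : ℝ) else ((t : ℕ) : ℝ) - 1) := by
  induction T using Finset.induction_on with
  | empty => unfold TT; simp
  | insert t T ht ih =>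
    have hco := cop_TT hP W hW T t ht
    have hp := hP t t.2
    have ht2 : ¬ (t : ℕ) ∣ 2 := by
      intro h
      exact hW t t.2 (h.trans h2)
    have hiff : (t : ℕ) ∣ 2 * δ * (W * TT T) ↔ (t : ℕ) ∣ δ := by
      constructor
      · intro h
        rcases (Nat.Prime.dvd_mul hp).1 h with h1 | h1
        · rcases (Nat.Prime.dvd_mul hp).1 h1 with h3 | h3
          · exact absurd h3 ht2
          · exact h3
        · exfalso
          have := Nat.eq_one_of_dvd_coprimes hco h1 dvd_rfl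
          exact hp.one_lt.ne' this
      · intro h
        exact (h.mul_left 2).mul_right _
    have e : 2 * δ * (W * TT (insert t T)) = t * (2 * δ * (W * TT T)) := by
      rw [TT_insert T t ht W]; ring
    rw [e, prod_insert ht]
    by_cases h : (t : ℕ) ∣ δ
    · rw [Nat.totient_mul_of_prime_of_dvd hp (hiff.2 h), if_pos h]
      push_cast
      rw [ih]; ring
    · rw [Nat.totient_mul_of_prime_of_not_dvd hp (fun h' => h (hiff.1 h')), if_neg h]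
      push_cast
      rw [ih, Nat.cast_sub hp.one_lt.le]
      push_cast
      ring

end Pool.Agent.H43.BC
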