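import Pool.Agent.H43.BC.C4

set_option autoImplicit false
set_option linter.unusedSectionVars false

/-! The class hypothesis of the engine: the three cases. -/

namespace Pool.Agent.H43.BC

open Finset

noncomputable def β0 (p : ℕ) (_ : ℕ × ℕ) : ℝ := 1 / (p : ℝ) ^ 2

noncomputable def β1 (τ p : ℕ) (x : ℕ × ℕ) : ℝ :=
  if (p : ℤ) ∣ vv τ x then 0 else 1 / ((p : ℝ) * (p - 1))

noncomputable def β2 (τ τ' δ p : ℕ) (x : ℕ × ℕ) : ℝ :=
  if (p : ℤ) ∣ vv τ x ∨ (p : ℤ) ∣ vv τ' x then 0 else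
    1 / (((p : ℝ) - 1) * (if p ∣ δ then (p : ℝ) else (p : ℝ) - 1))

section cases
variable {P : Finset ℕ} (hP : ∀ p ∈ P, p.Prime) (W : ℕ) (hW : ∀ p ∈ P, ¬ p ∣ W) (hW0 : 1 ≤ W)
include hP hW hW0

theorem TT_pos (T : Finset P) : 1 ≤ TT T := Finset.prod_pos (fun (t : P) _ => (hP t t.2).pos)

theorem hc0 (m1 m2 A1 A2 s0 r0 : ℕ) (hm : m1 ≤ m2) (hA : A1 ≤ A2) (T : Finset P) (c : P → ℕ × ℕ)
    (hc : ∀ t ∈ T, c t ∈ Cl (t : ℕ)) :
    |∑ _n ∈ (CS m1 m2 A1 A2 W s0 r0).filter (fun n => ∀ t ∈ T, loc n t = c t), (1 : ℝ) -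
      ((m2 : ℝ) - m1) * ((A2 : ℝ) - A1) / (W : ℝ) ^ 2 * ∏ t ∈ T, β0 (t : ℕ) (c t)| ≤
      ((m2 : ℝ) - m1) + ((A2 : ℝ) - A1) + 1 := by
  obtain ⟨a, b, h1, -, -, -⟩ := filter_CS hP W hW m1 m2 A1 A2 s0 r0 c T hc
  have hT := TT_pos hP W hW hW0 T
  rw [h1]
  have h2 := claim0 m1 m2 A1 A2 (W * TT T) a b hm hA (Nat.mul_pos hW0 hT)
  rw [sum_const, nsmul_eq_mul, mul_one]
  have e : ((m2 : ℝ) - m1) * ((A2 : ℝ) - A1) / (W : ℝ) ^ 2 * ∏ t ∈ T, β0 (t : ℕ) (c t) =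
      ((m2 : ℝ) - m1) * ((A2 : ℝ) - A1) / ((W * TT T : ℕ) : ℝ) ^ 2 := by
    unfold β0 TT
    push_cast
    rw [prod_div_distrib, prod_const_one, prod_pow, mul_pow, div_mul_div_comm, mul_one]
  rw [e]
  exact h2

theorem hc1 (R Y : ℕ) (M : ℕ → ℝ) (hM : BVh R Y M) (hM0 : ∀ q, 0 ≤ M q)
    (hRW : ∀ p : ℕ, p.Prime → p ∣ W → p ≤ R) (hRP : ∀ p ∈ P, p ≤ R) (m1 m2 A1 A2 s0 r0 τ : ℕ)
    (hm : m1 ≤ m2) (hA1 : 1 ≤ A1) (hA : A1 ≤ A2)
    (hY : (m2 + τ) ^ 2 + A2 ≤ Y) (hcl : (vn W τ s0 r0).Coprime W)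
    (T : Finset P) (c : P → ℕ × ℕ) (hc : ∀ t ∈ T, c t ∈ Cl (t : ℕ)) :
    |∑ n ∈ (CS m1 m2 A1 A2 W s0 r0).filter (fun n => ∀ t ∈ T, loc n t = c t),
        th R ((n.1 + τ) ^ 2 + n.2) -
      ((m2 : ℝ) - m1) * ((A2 : ℝ) - A1) / (W * Nat.totient W) * ∏ t ∈ T, β1 τ (t : ℕ) (c t)| ≤
      (((m2 : ℝ) - m1) / ((W * TT T : ℕ) : ℝ) + 1) * (2 * M (W * TT T)) +
        ((A2 : ℝ) - A1) / Nat.totient (W * TT T) := by
  obtain ⟨a, b, h1, ha, hb, hab⟩ := filter_CS hP W hW m1 m2 A1 A2 s0 r0 c T hc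
  have hT := TT_pos hP W hW hW0 T
  rw [h1]
  have hR : ∀ p : ℕ, p.Prime → p ∣ W * TT T → p ≤ R := by
    intro p hp hd
    rcases (Nat.Prime.dvd_mul hp).1 hd with h | h
    · exact hRW p hp h
    · unfold TT at h
      obtain ⟨t, ht, h5⟩ := (Prime.dvd_finsetProd_iff hp.prime _).1 h
      rw [(Nat.prime_dvd_prime_iff_eq hp (hP t t.2)).1 h5]
      exact hRP t t.2
  have h2 := claim1 R Y M hM hM0 m1 m2 A1 A2 (W * TT T) a b τ hm hA1 hA (Nat.mul_pos hW0 hT) hR hY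
  have hco := cop_iff hP W T c a b s0 r0 τ ha hb hab hcl
  have e : ((m2 : ℝ) - m1) * ((A2 : ℝ) - A1) / (W * Nat.totient W) * ∏ t ∈ T, β1 τ (t : ℕ) (c t) =
      (if (vn (W * TT T) τ a b).Coprime (W * TT T) then
        ((m2 : ℝ) - m1) * ((A2 : ℝ) - A1) / (((W * TT T : ℕ) : ℝ) * Nat.totient (W * TT T)) else 0) := by
    by_cases h : (vn (W * TT T) τ a b).Coprime (W * TT T)
    · rw [if_pos h]
      have h3 := hco.1 h
      have h4 : ∏ t ∈ T, β1 τ (t : ℕ) (c t) = ∏ t ∈ T, 1 / (((t : ℕ) : ℝ) * (((t : ℕ) : ℝ) - 1)) := by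
        refine prod_congr rfl fun t ht => ?_
        unfold β1
        rw [if_neg (h3 t ht)]
      rw [h4, prod_div_distrib, prod_const_one, prod_mul_distrib, tot_TT hP W hW T]
      unfold TT
      push_cast
      rw [div_mul_div_comm, mul_one]
      congr 1
      ring
    · rw [if_neg h]
      have h3 : ∃ t ∈ T, ((t : ℕ) : ℤ) ∣ vv τ (c t) := by
        by_contra hcon
        push Not at hcon
        exact h (hco.2 hcon)
      obtain ⟨t, ht, h4⟩ := h3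
      rw [prod_eq_zero ht (by unfold β1; rw [if_pos h4]), mul_zero]
  rw [e]
  exact h2

/-- the error in a class with two primes -/
noncomputable def Er2 (R Y : ℕ) (M : ℕ → ℝ) (m1 m2 A2 L K t δ q a b : ℕ) : ℝ :=
  ∑ u ∈ (Ico 1 ((m2 + t) ^ 2 + A2)).filter (fun u => u ≡ vn q t a b [MOD q]), th R u *
        (2 * ∑ j ∈ range K, Fs R (u + δ * (2 * t + δ) + 2 * δ * (m1 + j * L)) (2 * δ * L) (2 * δ * q)
            (u + δ * (2 * t + δ) + 2 * δ * a) +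
          2 * (((L : ℝ) / q + 1) * Real.log Y + 2 * δ / Nat.totient (2 * δ * q) * L)) +
      2 * δ / Nat.totient (2 * δ * q) * (((m2 : ℝ) - m1) * (2 * M q))

theorem hc2 (R Y : ℕ) (M : ℕ → ℝ) (hM : BVh R Y M) (hM0 : ∀ q, 0 ≤ M q) (h2W : 2 ∣ W)
    (hRW : ∀ p : ℕ, p.Prime → p ∣ W → p ≤ R) (hRP : ∀ p ∈ P, p ≤ R) (m1 m2 A1 A2 L K s0 r0 τ δ : ℕ)
    (hL : 1 ≤ L) (hm2 : m2 = m1 + K * L) (hA1 : 1 ≤ A1) (hA : A1 ≤ A2)
    (hδ : 1 ≤ δ) (hδR : δ ≤ R)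
    (hY : (m2 + τ + δ) ^ 2 + A2 ≤ Y) (hcl : (vn W τ s0 r0).Coprime W)
    (hcl' : (vn W (τ + δ) s0 r0).Coprime W)
    (T : Finset P) (a b : ℕ) (ha : a ≡ s0 [MOD W]) (hb : b ≡ r0 [MOD W]) :
    |∑ n ∈ CS m1 m2 A1 A2 (W * TT T) a b,
        th R ((n.1 + τ) ^ 2 + n.2) * th R ((n.1 + (τ + δ)) ^ 2 + n.2) -
      2 * δ * (((m2 : ℝ) - m1) * ((A2 : ℝ) - A1)) / (Nat.totient (2 * δ * W) * Nat.totient W) *
        ∏ t ∈ T, β2 τ (τ + δ) δ (t : ℕ) (loc (a, b) t)| ≤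
      Er2 R Y M m1 m2 A2 L K τ δ (W * TT T) a b := by
  have hT := TT_pos hP W hW hW0 T
  have hR : ∀ p : ℕ, p.Prime → p ∣ W * TT T → p ≤ R := by
    intro p hp hd
    rcases (Nat.Prime.dvd_mul hp).1 hd with h | h
    · exact hRW p hp h
    · unfold TT at h
      obtain ⟨t, ht, h5⟩ := (Prime.dvd_finsetProd_iff hp.prime _).1 h
      rw [(Nat.prime_dvd_prime_iff_eq hp (hP t t.2)).1 h5]
      exact hRP t t.2
  have h2 := claim2 R Y M hM hM0 m1 m2 A1 A2 L K (W * TT T) a b τ δ hL hm2 hA1 hA (Nat.mul_pos hW0 hT)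
    (h2W.mul_right _) hR hδ hδR hY _ rfl
  have hab : ∀ t ∈ T, a ≡ (loc (a, b) t).1 [MOD t] ∧ b ≡ (loc (a, b) t).2 [MOD t] := fun t _ =>
    ⟨(Nat.mod_modEq a t).symm, (Nat.mod_modEq b t).symm⟩
  have hco := cop_iff hP W T (fun t => loc (a, b) t) a b s0 r0 τ ha hb hab hcl
  have hco' := cop_iff hP W T (fun t => loc (a, b) t) a b s0 r0 (τ + δ) ha hb hab hcl'
  have e : 2 * δ * (((m2 : ℝ) - m1) * ((A2 : ℝ) - A1)) / (Nat.totient (2 * δ * W) * Nat.totient W) *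
        ∏ t ∈ T, β2 τ (τ + δ) δ (t : ℕ) (loc (a, b) t) =
      (if (vn (W * TT T) τ a b).Coprime (W * TT T) ∧ (vn (W * TT T) (τ + δ) a b).Coprime (W * TT T) then
        2 * δ * (((m2 : ℝ) - m1) * ((A2 : ℝ) - A1)) /
          (Nat.totient (2 * δ * (W * TT T)) * Nat.totient (W * TT T)) else 0) := by
    by_cases h : (vn (W * TT T) τ a b).Coprime (W * TT T) ∧
        (vn (W * TT T) (τ + δ) a b).Coprime (W * TT T)
    · rw [if_pos h]
      have h3 := hco.1 h.1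
      have h3' := hco'.1 h.2
      have h4 : ∏ t ∈ T, β2 τ (τ + δ) δ (t : ℕ) (loc (a, b) t) = ∏ t ∈ T, 1 / ((((t : ℕ) : ℝ) - 1) *
          (if (t : ℕ) ∣ δ then ((t : ℕ) : ℝ) else ((t : ℕ) : ℝ) - 1)) := by
        refine prod_congr rfl fun t ht => ?_
        unfold β2
        rw [if_neg (not_or.2 ⟨h3 t ht, h3' t ht⟩)]
      rw [h4, prod_div_distrib, prod_const_one, prod_mul_distrib, tot_TT hP W hW T,
        tot_TT2 hP W δ hW h2W T]
      rw [div_mul_div_comm, mul_one]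
      congr 1
      ring
    · rw [if_neg h]
      have h3 : ∃ t ∈ T, ((t : ℕ) : ℤ) ∣ vv τ (loc (a, b) t) ∨
          ((t : ℕ) : ℤ) ∣ vv (τ + δ) (loc (a, b) t) := by
        by_contra hcon
        push Not at hcon
        exact h ⟨hco.2 (fun t ht => (hcon t ht).1), hco'.2 (fun t ht => (hcon t ht).2)⟩
      obtain ⟨t, ht, h4⟩ := h3
      rw [prod_eq_zero ht (by unfold β2; rw [if_pos h4]), mul_zero]
  rw [e]
  exact h2

end cases

/-! normalization -/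

theorem sum_β0 (p : ℕ) (hp : p.Prime) : ∑ x ∈ Cl p, β0 p x = 1 := by
  unfold β0 Cl
  rw [sum_const, card_product, card_range, nsmul_eq_mul]
  have : (p : ℝ) ≠ 0 := by exact_mod_cast hp.pos.ne'
  push_cast
  field_simp

theorem card_Cl (p : ℕ) : ((Cl p).card : ℝ) = (p : ℝ) ^ 2 := by
  unfold Cl
  rw [card_product, card_range]
  push_cast
  ring

theorem card_not1 (p : ℕ) (hp : p.Prime) (τ : ℕ) :
    (((Cl p).filter (fun x => ¬ (p : ℤ) ∣ vv τ x)).card : ℝ) = (p : ℝ) ^ 2 - p := by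
  have h := card_filter_add_card_filter_not (s := Cl p) (fun x => (p : ℤ) ∣ vv τ x)
  rw [card_Z1 p hp.pos] at h
  have h2 : (p : ℝ) + ((Cl p).filter (fun x => ¬ (p : ℤ) ∣ vv τ x)).card = (Cl p).card := by
    exact_mod_cast h
  rw [card_Cl] at h2
  linarith

theorem sum_β1 (τ p : ℕ) (hp : p.Prime) : ∑ x ∈ Cl p, β1 τ p x = 1 := by
  unfold β1
  have h2 : (1 : ℝ) < p := by exact_mod_cast hp.one_lt
  have h3 : (p : ℝ) - 1 ≠ 0 := by linarith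
  have h4 : (p : ℝ) ≠ 0 := by linarith
  have e : ∀ x ∈ Cl p, (if (p : ℤ) ∣ vv τ x then (0 : ℝ) else 1 / ((p : ℝ) * (p - 1))) =
      if ¬ (p : ℤ) ∣ vv τ x then 1 / ((p : ℝ) * (p - 1)) else 0 := by
    intro x _
    split_ifs <;> rfl
  rw [sum_congr rfl e, ← sum_filter, sum_const, nsmul_eq_mul, card_not1 p hp]
  field_simp

theorem sum_β2 (τ δ p : ℕ) (hp : p.Prime) (h2 : p ≠ 2) :
    ∑ x ∈ Cl p, β2 τ (τ + δ) δ p x = 1 := by
  unfold β2
  have hp1 : (1 : ℝ) < p := by exact_mod_cast hp.one_lt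
  have h3 : (p : ℝ) - 1 ≠ 0 := by linarith
  have h4 : (p : ℝ) ≠ 0 := by linarith
  have e : ∀ x ∈ Cl p, (if (p : ℤ) ∣ vv τ x ∨ (p : ℤ) ∣ vv (τ + δ) x then (0 : ℝ) else
      1 / (((p : ℝ) - 1) * (if p ∣ δ then (p : ℝ) else (p : ℝ) - 1))) =
      if ¬ ((p : ℤ) ∣ vv τ x ∨ (p : ℤ) ∣ vv (τ + δ) x) then
        1 / (((p : ℝ) - 1) * (if p ∣ δ then (p : ℝ) else (p : ℝ) - 1)) else 0 := by
    intro x _
    rw [ite_not]
  rw [sum_congr rfl e, ← sum_filter, sum_const, nsmul_eq_mul]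
  by_cases hd : p ∣ δ
  · have h5 : (Cl p).filter (fun x => ¬ ((p : ℤ) ∣ vv τ x ∨ (p : ℤ) ∣ vv (τ + δ) x)) =
        (Cl p).filter (fun x => ¬ (p : ℤ) ∣ vv τ x) := by
      apply filter_congr
      intro x _
      have h6 : (p : ℤ) ∣ vv τ x ↔ (p : ℤ) ∣ vv (τ + δ) x := by
        have h7 := diff_vv (τ + δ) τ x
        have h8 : (p : ℤ) ∣ vv (τ + δ) x - vv τ x := by
          rw [h7]
          apply Dvd.dvd.mul_right
          push_cast
          rw [add_sub_cancel_left]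
          exact_mod_cast hd
        constructor
        · intro h9
          have := dvd_add h9 h8
          simpa using this
        · intro h9
          have := dvd_sub h9 h8
          simpa using this
      rw [← h6, or_self]
    rw [h5, card_not1 p hp, if_pos hd]
    field_simp
  · rw [if_neg hd]
    have h6 : ¬ (p : ℤ) ∣ ((τ : ℤ) - (τ + δ : ℕ)) := by
      push_cast
      rw [show (τ : ℤ) - (τ + δ) = -δ by ring, dvd_neg]
      exact_mod_cast hd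
    have h7 := card_Z2 p hp h2 τ (τ + δ) h6
    have h8 := card_filter_add_card_filter_not (s := Cl p)
      (fun x => (p : ℤ) ∣ vv τ x ∨ (p : ℤ) ∣ vv (τ + δ) x)
    have h9 : ((Cl p).filter (fun x => (p : ℤ) ∣ vv τ x ∨ (p : ℤ) ∣ vv (τ + δ) x)).card +
        ((Cl p).filter (fun x => (p : ℤ) ∣ vv τ x ∧ (p : ℤ) ∣ vv (τ + δ) x)).card = p + p := by
      rw [filter_or, filter_and, card_union_add_card_inter, card_Z1 p hp.pos, card_Z1 p hp.pos]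
    rw [h7] at h9
    have h10 : (((Cl p).filter (fun x => (p : ℤ) ∣ vv τ x ∨ (p : ℤ) ∣ vv (τ + δ) x)).card : ℝ) + 1 =
        p + p := by exact_mod_cast h9
    have h11 : (((Cl p).filter (fun x => (p : ℤ) ∣ vv τ x ∨ (p : ℤ) ∣ vv (τ + δ) x)).card : ℝ) +
        ((Cl p).filter (fun x => ¬ ((p : ℤ) ∣ vv τ x ∨ (p : ℤ) ∣ vv (τ + δ) x))).card =
        (Cl p).card := by exact_mod_cast h8
    rw [card_Cl] at h11
    have h12 : (((Cl p).filter (fun x => ¬ ((p : ℤ) ∣ vv τ x ∨ (p : ℤ) ∣ vv (τ + δ) x))).card : ℝ) =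
        ((p : ℝ) - 1) * (p - 1) := by linarith
    rw [h12]
    field_simp

theorem β_bd (τ τ' δ p : ℕ) (h3 : 3 ≤ p) (x : ℕ × ℕ) : |β0 p x| ≤ 4 / (p : ℝ) ^ 2 ∧
    |β1 τ p x| ≤ 4 / (p : ℝ) ^ 2 ∧ |β2 τ τ' δ p x| ≤ 4 / (p : ℝ) ^ 2 := by
  have hp3 : (3 : ℝ) ≤ p := by exact_mod_cast h3
  refine ⟨?_, ?_, ?_⟩
  · unfold β0
    rw [abs_of_nonneg (by positivity)]
    gcongr
    norm_num
  · unfold β1
    split_ifs
    · rw [abs_zero]; positivity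
    · rw [abs_of_nonneg (div_nonneg zero_le_one (mul_nonneg (by linarith) (by linarith))),
        div_le_div_iff₀ (mul_pos (by linarith) (by linarith)) (by positivity)]
      nlinarith
  · unfold β2
    split_ifs
    · rw [abs_zero]; positivity
    · rw [abs_of_nonneg (div_nonneg zero_le_one (mul_nonneg (by linarith) (by linarith))),
        div_le_div_iff₀ (mul_pos (by linarith) (by linarith)) (by positivity)]
      nlinarith
    · rw [abs_of_nonneg (div_nonneg zero_le_one (mul_nonneg (by linarith) (by linarith))),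
        div_le_div_iff₀ (mul_pos (by linarith) (by linarith)) (by positivity)]
      nlinarith

end Pool.Agent.H43.BC
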