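import Pool.Agent.H43.BC.C5
import Pool.Agent.H43.BC.B4

set_option autoImplicit false
set_option linter.unusedSectionVars false

/-! Class sums with errors depending on the class. -/

namespace Pool.Agent.H43.BC

open Finset

/-- the residues modulo `q` in a class modulo `W` -/
def A0 (W q s : ℕ) : Finset ℕ := (range q).filter (fun a => a ≡ s [MOD W])

theorem crt_sum (W q p s : ℕ) (hqp : q.Coprime p) (hW : W ∣ q) (hq : 1 ≤ q) (hp : 1 ≤ p)
    (F : ℕ → ℕ → ℝ) :
    ∑ a ∈ A0 W (q * p) s, F (a % q) (a % p) = ∑ a ∈ A0 W q s, ∑ x ∈ range p, F a x := by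
  rw [← sum_product']
  apply sum_bij' (fun a _ => (a % q, a % p)) (fun x _ => (Nat.chineseRemainder hqp x.1 x.2 : ℕ))
  · intro a ha
    unfold A0 at ha ⊢
    rw [mem_filter, mem_range] at ha
    rw [mem_product, mem_filter, mem_range, mem_range]
    refine ⟨⟨Nat.mod_lt _ hq, ?_⟩, Nat.mod_lt _ hp⟩
    exact ((Nat.mod_modEq a q).of_dvd hW).trans ha.2
  · intro x hx
    unfold A0 at hx ⊢
    rw [mem_product, mem_filter, mem_range, mem_range] at hx
    rw [mem_filter, mem_range]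
    refine ⟨Nat.chineseRemainder_lt_mul hqp _ _ (by omega) (by omega), ?_⟩
    exact ((Nat.chineseRemainder hqp x.1 x.2).2.1.of_dvd hW).trans hx.1.2
  · intro a ha
    unfold A0 at ha
    rw [mem_filter, mem_range] at ha
    have h1 := (Nat.chineseRemainder hqp (a % q) (a % p)).2
    have h2 : (Nat.chineseRemainder hqp (a % q) (a % p) : ℕ) ≡ a [MOD q * p] := by
      rw [← Nat.modEq_and_modEq_iff_modEq_mul hqp]
      exact ⟨h1.1.trans (Nat.mod_modEq a q), h1.2.trans (Nat.mod_modEq a p)⟩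
    have h3 := Nat.chineseRemainder_lt_mul hqp (a % q) (a % p) (by omega) (by omega)
    exact Nat.ModEq.eq_of_lt_of_lt h2 h3 ha.1
  · intro x hx
    unfold A0 at hx
    rw [mem_product, mem_filter, mem_range, mem_range] at hx
    have h1 := (Nat.chineseRemainder hqp x.1 x.2).2
    have e1 : (Nat.chineseRemainder hqp x.1 x.2 : ℕ) % q = x.1 := by
      have := h1.1
      unfold Nat.ModEq at this
      rw [this, Nat.mod_eq_of_lt hx.1.1]
    have e2 : (Nat.chineseRemainder hqp x.1 x.2 : ℕ) % p = x.2 := by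
      have := h1.2
      unfold Nat.ModEq at this
      rw [this, Nat.mod_eq_of_lt hx.2]
    rw [e1, e2]
  · intro a _
    rfl

theorem A0_one (W s : ℕ) (hW : 1 ≤ W) (F : ℕ → ℝ) : ∑ a ∈ A0 W W s, F a = F (s % W) := by
  have : A0 W W s = {s % W} := by
    unfold A0
    ext a
    rw [mem_filter, mem_range, mem_singleton]
    constructor
    · rintro ⟨h1, h2⟩
      unfold Nat.ModEq at h2
      rw [Nat.mod_eq_of_lt h1] at h2
      exact h2
    · intro h
      rw [h]
      exact ⟨Nat.mod_lt _ hW, Nat.mod_modEq _ _⟩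
  rw [this, sum_singleton]

section crt
variable {P : Finset ℕ} (hP : ∀ p ∈ P, p.Prime) (W : ℕ) (hW : ∀ p ∈ P, ¬ p ∣ W) (hW0 : 1 ≤ W)
include hP hW hW0

theorem crt1 (s : ℕ) (f : P → ℕ → ℝ) (T : Finset P) :
    ∑ a ∈ A0 W (W * TT T) s, ∏ t ∈ T, f t (a % t) = ∏ t ∈ T, ∑ x ∈ range (t : ℕ), f t x := by
  induction T using Finset.induction_on with
  | empty =>
    unfold TT
    simp only [prod_empty, mul_one]
    rw [A0_one W s hW0 (fun _ => 1)]
  | insert p T hp ih =>
    have hco := cop_TT hP W hW T p hp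
    have hT := TT_pos hP W hW hW0 T
    rw [TT_insert T p hp W, prod_insert hp, ← ih]
    have e1 : ∀ a, ∏ t ∈ insert p T, f t (a % t) =
        (fun a x => f p x * ∏ t ∈ T, f t (a % t)) (a % (W * TT T)) (a % (p : ℕ)) := by
      intro a
      rw [prod_insert hp]
      congr 1
      refine prod_congr rfl fun t ht => ?_
      rw [Nat.mod_mod_of_dvd]
      exact (dvd_prod_of_mem _ ht).mul_left W
    rw [sum_congr rfl (fun a _ => e1 a), crt_sum W (W * TT T) p s hco (dvd_mul_right _ _)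
      (Nat.mul_pos hW0 hT) (hP p p.2).one_lt.le (fun a x => f p x * ∏ t ∈ T, f t (a % t)),
      sum_mul_sum, sum_comm]

theorem crt2 (s r : ℕ) (f : P → ℕ × ℕ → ℝ) (T : Finset P) :
    ∑ a ∈ A0 W (W * TT T) s, ∑ b ∈ A0 W (W * TT T) r, ∏ t ∈ T, f t (loc (a, b) t) =
      ∏ t ∈ T, ∑ x ∈ Cl (t : ℕ), f t x := by
  induction T using Finset.induction_on with
  | empty =>
    unfold TT
    simp only [prod_empty, mul_one]
    rw [A0_one W s hW0 (fun _ => ∑ b ∈ A0 W W r, (1 : ℝ)), A0_one W r hW0 (fun _ => 1)]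
  | insert p T hp ih =>
    have hco := cop_TT hP W hW T p hp
    have hT := TT_pos hP W hW hW0 T
    rw [TT_insert T p hp W, prod_insert hp, ← ih]
    have e1 : ∀ a b, ∏ t ∈ insert p T, f t (loc (a, b) t) =
        f p (a % (p : ℕ), b % (p : ℕ)) * ∏ t ∈ T, f t (loc (a % (W * TT T), b % (W * TT T)) t) := by
      intro a b
      rw [prod_insert hp]
      congr 1
      refine prod_congr rfl fun t ht => ?_
      unfold loc
      simp only
      have hd : (t : ℕ) ∣ W * TT T := (dvd_prod_of_mem _ ht).mul_left W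
      rw [Nat.mod_mod_of_dvd _ hd, Nat.mod_mod_of_dvd _ hd]
    have hq := Nat.mul_pos hW0 hT
    have hp1 := (hP p p.2).one_lt.le
    have e2 : ∀ a, ∑ b ∈ A0 W (W * TT T * p) r, ∏ t ∈ insert p T, f t (loc (a, b) t) =
        (fun a' x => ∑ b ∈ A0 W (W * TT T) r, ∑ y ∈ range (p : ℕ),
          f p (x, y) * ∏ t ∈ T, f t (loc (a', b) t)) (a % (W * TT T)) (a % (p : ℕ)) := by
      intro a
      rw [sum_congr rfl (fun b _ => e1 a b)]
      exact crt_sum W (W * TT T) p r hco (dvd_mul_right _ _) hq hp1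
        (fun b y => f p (a % (p : ℕ), y) * ∏ t ∈ T, f t (loc (a % (W * TT T), b) t))
    rw [sum_congr rfl (fun a _ => e2 a), crt_sum W (W * TT T) p s hco (dvd_mul_right _ _) hq hp1
      (fun a' x => ∑ b ∈ A0 W (W * TT T) r, ∑ y ∈ range (p : ℕ),
          f p (x, y) * ∏ t ∈ T, f t (loc (a', b) t))]
    have e3 : ∑ x ∈ Cl (p : ℕ), f p x = ∑ x ∈ range (p : ℕ), ∑ y ∈ range (p : ℕ), f p (x, y) := by
      unfold Cl
      rw [sum_product]
    rw [e3, sum_mul_sum, sum_comm]
    refine sum_congr rfl fun x _ => sum_congr rfl fun a _ => ?_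
    rw [sum_mul_sum, sum_comm]

/-- sums over classes, the error depending on the class -/
theorem classSum' (m1 m2 A1 A2 s r : ℕ) (β g : P → ℕ × ℕ → ℝ) (μ : ℕ × ℕ → ℝ) (κ : ℝ) (T : Finset P)
    (E : ℕ → ℕ → ℝ)
    (h : ∀ a b : ℕ, a ≡ s [MOD W] → b ≡ r [MOD W] →
      |∑ n ∈ CS m1 m2 A1 A2 (W * TT T) a b, μ n - κ * ∏ t ∈ T, β t (loc (a, b) t)| ≤ E a b) :
    |∑ n ∈ CS m1 m2 A1 A2 W s r, μ n * ∏ t ∈ T, g t (loc n t) -
      κ * ∏ t ∈ T, ∑ x ∈ Cl (t : ℕ), β t x * g t x| ≤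
      ∑ a ∈ A0 W (W * TT T) s, ∑ b ∈ A0 W (W * TT T) r, (∏ t ∈ T, |g t (loc (a, b) t)|) * E a b := by
  have hT := TT_pos hP W hW hW0 T
  obtain ⟨q, hq⟩ : ∃ q, q = W * TT T := ⟨_, rfl⟩
  have hq1 : 1 ≤ q := by rw [hq]; exact Nat.mul_pos hW0 hT
  have hWq : W ∣ q := by rw [hq]; exact dvd_mul_right _ _
  rw [← crt2 hP W hW hW0 s r (fun t x => β t x * g t x) T]
  rw [← hq] at h ⊢
  have e1 : ∑ n ∈ CS m1 m2 A1 A2 W s r, μ n * ∏ t ∈ T, g t (loc n t) =
      ∑ a ∈ A0 W q s, ∑ b ∈ A0 W q r, (∏ t ∈ T, g t (loc (a, b) t)) *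
        ∑ n ∈ CS m1 m2 A1 A2 q a b, μ n := by
    rw [← sum_product']
    rw [← sum_fiberwise_of_maps_to (s := CS m1 m2 A1 A2 W s r) (t := A0 W q s ×ˢ A0 W q r)
      (g := fun n => (n.1 % q, n.2 % q))]
    · refine sum_congr rfl fun x hx => ?_
      rw [mul_sum]
      rw [mem_product] at hx
      unfold A0 at hx
      rw [mem_filter, mem_range, mem_filter, mem_range] at hx
      have e2 : (CS m1 m2 A1 A2 W s r).filter (fun n => (n.1 % q, n.2 % q) = x) =
          CS m1 m2 A1 A2 q x.1 x.2 := by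
        unfold CS
        ext n
        simp only [mem_filter, Prod.ext_iff]
        constructor
        · rintro ⟨⟨h1, h2, h3⟩, h4, h5⟩
          refine ⟨h1, ?_, ?_⟩
          · unfold Nat.ModEq
            rw [h4, Nat.mod_eq_of_lt hx.1.1]
          · unfold Nat.ModEq
            rw [h5, Nat.mod_eq_of_lt hx.2.1]
        · rintro ⟨h1, h2, h3⟩
          refine ⟨⟨h1, (h2.of_dvd hWq).trans hx.1.2, (h3.of_dvd hWq).trans hx.2.2⟩, ?_, ?_⟩
          · unfold Nat.ModEq at h2
            rw [h2, Nat.mod_eq_of_lt hx.1.1]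
          · unfold Nat.ModEq at h3
            rw [h3, Nat.mod_eq_of_lt hx.2.1]
      rw [e2]
      refine sum_congr rfl fun n hn => ?_
      rw [mul_comm]
      congr 1
      refine prod_congr rfl fun t ht => ?_
      congr 1
      unfold CS at hn
      rw [mem_filter] at hn
      have hd : (t : ℕ) ∣ q := by rw [hq]; exact (dvd_prod_of_mem _ ht).mul_left W
      unfold loc
      exact Prod.ext (hn.2.1.of_dvd hd) (hn.2.2.of_dvd hd)
    · intro n hn
      unfold CS at hn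
      rw [mem_filter] at hn
      unfold A0
      rw [mem_product, mem_filter, mem_range, mem_filter, mem_range]
      exact ⟨⟨Nat.mod_lt _ hq1, ((Nat.mod_modEq _ _).of_dvd hWq).trans hn.2.1⟩,
        Nat.mod_lt _ hq1, ((Nat.mod_modEq _ _).of_dvd hWq).trans hn.2.2⟩
  rw [e1, mul_sum, ← sum_sub_distrib]
  refine (abs_sum_le_sum_abs _ _).trans (sum_le_sum fun a ha => ?_)
  rw [mul_sum, ← sum_sub_distrib]
  refine (abs_sum_le_sum_abs _ _).trans (sum_le_sum fun b hb => ?_)
  unfold A0 at ha hb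
  rw [mem_filter] at ha hb
  have h1 := h a b ha.2 hb.2
  have e3 : (∏ t ∈ T, g t (loc (a, b) t)) * ∑ n ∈ CS m1 m2 A1 A2 q a b, μ n -
      κ * ∏ t ∈ T, β t (loc (a, b) t) * g t (loc (a, b) t) =
      (∏ t ∈ T, g t (loc (a, b) t)) * (∑ n ∈ CS m1 m2 A1 A2 q a b, μ n -
        κ * ∏ t ∈ T, β t (loc (a, b) t)) := by
    rw [prod_mul_distrib]
    ring
  rw [e3, abs_mul, abs_prod]
  exact mul_le_mul_of_nonneg_left h1 (prod_nonneg fun _ _ => abs_nonneg _)

end crt

/-- the expansion of products of weights, with a general bound for the classes -/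
theorem step1' {α ι S I : Type} [Fintype S] [Fintype I] [DecidableEq S] [DecidableEq I]
    (loc : α → S → ι) (Cl : S → Finset ι) (N : Finset α) (μ : α → ℝ) (β : S → ι → ℝ)
    (hβ : ∀ t, ∑ x ∈ Cl t, β t x = 1) (X : I → S → ι → ℝ) (Y : (I → Finset S) → ℝ)
    (hY1 : ∀ F, |Y F| ≤ 1) (κ : ℝ) (EE : Finset S → ℝ) (hE : ∀ T, 0 ≤ EE T) (Adm : Finset S → Prop)
    [DecidablePred Adm] (hY : ∀ F, Y F ≠ 0 → Adm (univ.biUnion F))
    (hc : ∀ F : I → Finset S, Adm (univ.biUnion F) →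
      |∑ n ∈ N, μ n * ∏ t ∈ univ.biUnion F, ∏ τ ∈ univ.filter (fun τ => t ∈ F τ), X τ t (loc n t) -
        κ * ∏ t ∈ univ.biUnion F, ∑ x ∈ Cl t, β t x *
          ∏ τ ∈ univ.filter (fun τ => t ∈ F τ), X τ t x| ≤ EE (univ.biUnion F)) :
    |∑ n ∈ N, μ n * ∑ F : I → Finset S, Y F * ∏ τ, ∏ t ∈ F τ, X τ t (loc n t) -
      κ * ∑ F : I → Finset S, Y F * ∏ t, ∑ x ∈ Cl t, β t x *
        ∏ τ ∈ univ.filter (fun τ => t ∈ F τ), X τ t x| ≤
      ∑ T ∈ univ.filter (fun T => Adm T), (2 : ℝ) ^ (Fintype.card I * T.card) * EE T := by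
  classical
  have hre : ∀ (F : I → Finset S) (n : α), ∏ τ, ∏ t ∈ F τ, X τ t (loc n t) =
      ∏ t ∈ univ.biUnion F, ∏ τ ∈ univ.filter (fun τ => t ∈ F τ), X τ t (loc n t) := by
    intro F n
    have h1 : ∀ τ : I, ∏ t ∈ F τ, X τ t (loc n t) =
        ∏ t ∈ univ.biUnion F, (if t ∈ F τ then X τ t (loc n t) else 1) := by
      intro τ
      rw [← prod_filter]
      apply prod_congr _ (fun _ _ => rfl)
      ext t
      simp only [mem_filter, mem_biUnion, mem_univ, true_and]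
      exact ⟨fun h => ⟨⟨τ, h⟩, h⟩, fun h => h.2⟩
    rw [prod_congr rfl (fun τ _ => h1 τ), prod_comm]
    refine prod_congr rfl fun t _ => ?_
    rw [prod_filter]
  have hfull : ∀ F : I → Finset S, ∏ t, ∑ x ∈ Cl t, β t x *
        ∏ τ ∈ univ.filter (fun τ => t ∈ F τ), X τ t x =
      ∏ t ∈ univ.biUnion F, ∑ x ∈ Cl t, β t x *
        ∏ τ ∈ univ.filter (fun τ => t ∈ F τ), X τ t x := by
    intro F
    symm
    apply prod_subset (subset_univ _)
    intro t _ ht
    have : univ.filter (fun τ => t ∈ F τ) = ∅ := by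
      ext τ
      simp only [mem_filter, mem_univ, true_and, notMem_empty, iff_false]
      intro h
      exact ht (mem_biUnion.2 ⟨τ, mem_univ _, h⟩)
    rw [this]
    simp [hβ t]
  have h1 : ∑ n ∈ N, μ n * ∑ F : I → Finset S, Y F * ∏ τ, ∏ t ∈ F τ, X τ t (loc n t) -
      κ * ∑ F : I → Finset S, Y F * ∏ t, ∑ x ∈ Cl t, β t x *
        ∏ τ ∈ univ.filter (fun τ => t ∈ F τ), X τ t x =
      ∑ F : I → Finset S, Y F * (∑ n ∈ N, μ n * ∏ t ∈ univ.biUnion F,
        ∏ τ ∈ univ.filter (fun τ => t ∈ F τ), X τ t (loc n t) -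
        κ * ∏ t ∈ univ.biUnion F, ∑ x ∈ Cl t, β t x *
          ∏ τ ∈ univ.filter (fun τ => t ∈ F τ), X τ t x) := by
    simp_rw [mul_sum]
    rw [sum_comm, ← sum_sub_distrib]
    refine sum_congr rfl fun F _ => ?_
    rw [mul_sub, mul_sum]
    congr 1
    · refine sum_congr rfl fun n _ => ?_
      rw [hre F n]; ring
    · rw [hfull F]; ring
  rw [h1]
  refine (abs_sum_le_sum_abs _ _).trans ?_
  have h2 : ∀ F : I → Finset S, |Y F * (∑ n ∈ N, μ n * ∏ t ∈ univ.biUnion F,
        ∏ τ ∈ univ.filter (fun τ => t ∈ F τ), X τ t (loc n t) -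
        κ * ∏ t ∈ univ.biUnion F, ∑ x ∈ Cl t, β t x *
          ∏ τ ∈ univ.filter (fun τ => t ∈ F τ), X τ t x)| ≤
      if Adm (univ.biUnion F) then EE (univ.biUnion F) else 0 := by
    intro F
    by_cases h0 : Y F = 0
    · rw [h0, zero_mul, abs_zero]
      split_ifs
      · exact hE _
      · exact le_rfl
    · have ha := hY F h0
      rw [if_pos ha, abs_mul]
      have h6 := mul_le_mul (hY1 F) (hc F ha) (abs_nonneg _) zero_le_one
      rw [one_mul] at h6
      exact h6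
  refine (sum_le_sum fun F _ => h2 F).trans ?_
  rw [← sum_fiberwise_of_maps_to (s := univ) (t := univ) (g := fun F : I → Finset S => univ.biUnion F)
    (fun _ _ => mem_univ _)]
  rw [sum_filter]
  apply sum_le_sum
  intro T _
  have h6 : ∀ F ∈ univ.filter (fun F : I → Finset S => univ.biUnion F = T),
      (if Adm (univ.biUnion F) then EE (univ.biUnion F) else 0) = if Adm T then EE T else 0 := by
    intro F hF
    rw [(mem_filter.1 hF).2]
  rw [sum_congr rfl h6, sum_const, nsmul_eq_mul]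
  by_cases hT : Adm T
  · rw [if_pos hT, if_pos hT]
    apply mul_le_mul_of_nonneg_right _ (hE _)
    have h7 : univ.filter (fun F : I → Finset S => univ.biUnion F = T) ⊆
        Fintype.piFinset (fun _ : I => T.powerset) := by
      intro F hF
      rw [Fintype.mem_piFinset]
      intro τ
      rw [mem_powerset, ← (mem_filter.1 hF).2]
      exact subset_biUnion_of_mem F (mem_univ τ)
    have h8 := card_le_card h7
    rw [Fintype.card_piFinset, prod_const, card_powerset, ← pow_mul, mul_comm, card_univ] at h8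
    exact_mod_cast h8
  · rw [if_neg hT, if_neg hT, mul_zero]

end Pool.Agent.H43.BC
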