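import Pool.Agent.H43.BC.AV2

set_option autoImplicit false
set_option linter.unusedSectionVars false

/-! The moments. -/

namespace Pool.Agent.H43.BC

open Finset

section expand
variable {S B J : Type} [Fintype S] [DecidableEq S] [Fintype B] [Fintype J] [DecidableEq B]
  [DecidableEq J]

theorem expand (G : B → J → Finset S → ℝ) (y : (J → Finset S) → ℝ) :
    ∏ b, (∑ f : J → Finset S, y f * ∏ j, G b j (f j)) ^ 2 =
      ∑ F : B × Bool × J → Finset S, Yp y F * ∏ τ : B × Bool × J, G τ.1 τ.2.2 (F τ) := by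
  have h1 : ∀ b, (∑ f : J → Finset S, y f * ∏ j, G b j (f j)) ^ 2 =
      ∑ φ : J → Finset S × Finset S, y (fun j => (φ j).1) * y (fun j => (φ j).2) *
        ((∏ j, G b j (φ j).1) * ∏ j, G b j (φ j).2) := by
    intro b
    rw [sq, sum_mul_sum, ← Fintype.sum_prod_type']
    rw [← Equiv.sum_comp (Equiv.arrowProdEquivProdArrow J (fun _ => Finset S) (fun _ => Finset S))
      (fun x : (J → Finset S) × (J → Finset S) => (y x.1 * ∏ j, G b j (x.1 j)) *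
        (y x.2 * ∏ j, G b j (x.2 j)))]
    refine sum_congr rfl fun φ _ => ?_
    simp only [Equiv.arrowProdEquivProdArrow_apply]
    ring
  rw [prod_congr rfl (fun b _ => h1 b), Finset.prod_univ_sum, Fintype.piFinset_univ]
  rw [← Equiv.sum_comp (unc (S := S) (B := B) (J := J))]
  refine sum_congr rfl fun F _ => ?_
  rw [prod_mul_distrib]
  congr 1
  rw [Fintype.prod_prod_type]
  refine prod_congr rfl fun b _ => ?_
  rw [Fintype.prod_prod_type, Fintype.prod_bool, mul_comm]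
  rfl

end expand

section mom
variable {P : Finset ℕ} {B J : Type} [Fintype B] [Fintype J] [DecidableEq B] [DecidableEq J]

/-- the weight -/
noncomputable def Lam (P : Finset ℕ) (h : J → ℕ) (y : (J → Finset P) → ℝ) (i : ℕ) (n : ℕ × ℕ) : ℝ :=
  ∑ f : J → Finset P, y f * ∏ j, ∏ t ∈ f j, chi (t : ℕ) (i + h j) (loc n t)

/-- the discrepancies -/
noncomputable def DD (B J : Type) [Fintype B] [Fintype J] [DecidableEq B] [DecidableEq J]
    (good : Prop) [Decidable good] (t : ℕ) : ℝ :=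
  2 ^ (Fintype.card (B × Bool × J)) *
    ((if good then (1 / (t : ℝ)) ^ 3 * 4 ^ (Fintype.card (B × J)) else (14 : ℝ) / t) : ℝ)

theorem DD_bd (good : Prop) [Decidable good] (t : ℕ) (ht : t.Prime) (h3 : 3 ≤ t) (l : Option J)
    (pos : B × J → ℕ) (β : ℕ × ℕ → ℝ) (hβ1 : ∑ x ∈ Cl t, β x = 1)
    (hβ : ∀ x, |β x| ≤ 4 / (t : ℝ) ^ 2)
    (hpos : good → ∀ q q', q ≠ q' → ¬ (t : ℤ) ∣ (pos q : ℤ) - pos q')
    (hg : good → ∀ x, β x = pf t l pos x / (t : ℝ) ^ 2) :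
    ∑ A : Finset (B × Bool × J), |∑ x ∈ Cl t, β x * ∏ τ ∈ A, chi t (pos (τ.1, τ.2.2)) x -
      Ip (1 / ((t : ℝ) - 1)) l A| ≤ DD B J good t := by
  have ht3 : (3 : ℝ) ≤ t := by exact_mod_cast h3
  have hν0 : 0 ≤ 1 / ((t : ℝ) - 1) := by apply div_nonneg zero_le_one; linarith
  have hν1 : 1 / ((t : ℝ) - 1) ≤ 1 := by rw [div_le_one (by linarith)]; linarith
  have hν2 : 1 / ((t : ℝ) - 1) ≤ 2 / t := by
    rw [div_le_div_iff₀ (by linarith) (by linarith)]; linarith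
  unfold DD
  have hcard : ((univ : Finset (Finset (B × Bool × J))).card : ℝ) =
      2 ^ (Fintype.card (B × Bool × J)) := by
    rw [card_univ, Fintype.card_finset]
    push_cast
    rfl
  rw [← hcard, ← nsmul_eq_mul]
  apply sum_le_card_nsmul
  intro A _
  split_ifs with hgood
  · have h1 := local_good t ht h3 l pos (hpos hgood) A
    have h2 : ∑ x ∈ Cl t, β x * ∏ τ ∈ A, chi t (pos (τ.1, τ.2.2)) x =
        (∑ x ∈ Cl t, pf t l pos x * ∏ τ ∈ A, chi t (pos (τ.1, τ.2.2)) x) / (t : ℝ) ^ 2 := by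
      rw [sum_div]
      refine sum_congr rfl fun x _ => ?_
      rw [hg hgood x]
      ring
    rw [h2]
    exact h1
  · by_cases hA : A.Nonempty
    · have h1 := local_bad t ht h3 β hβ pos A hA
      have h2 := Ip_bd (B := B) (1 / ((t : ℝ) - 1)) hν0 hν1 l A hA
      have h4 : (14 : ℝ) / t = 12 / t + 2 / t := by ring
      rw [h4]
      rw [abs_le] at h1 ⊢
      constructor <;> linarith [h1.1, h1.2, h2.1, h2.2]
    · rw [not_nonempty_iff_eq_empty] at hA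
      subst hA
      rw [Ip_empty]
      simp only [prod_empty, mul_one]
      rw [hβ1, sub_self, abs_zero]
      positivity

variable (hP : ∀ p ∈ P, p.Prime) (h3 : ∀ p ∈ P, 3 ≤ p)
include hP h3

theorem moment_aux (h : J → ℕ) (y : (J → Finset P) → ℝ) (hy : ∀ f, |y f| ≤ 1) (ib : B → ℕ)
    (N : Finset (ℕ × ℕ)) (μ : ℕ × ℕ → ℝ) (β : P → ℕ × ℕ → ℝ) (hβ1 : ∀ t : P, ∑ x ∈ Cl (t : ℕ), β t x = 1)
    (κ : ℝ) (E : Finset P → ℝ) (hE : ∀ T, 0 ≤ E T) (Adm : Finset P → Prop)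
    [DecidablePred Adm] (hAdm : ∀ F : B × Bool × J → Finset P, Yp y F ≠ 0 → Adm (univ.biUnion F))
    (hc : ∀ T, Adm T → ∀ c : P → ℕ × ℕ, (∀ t ∈ T, c t ∈ Cl (t : ℕ)) →
      |∑ n ∈ N.filter (fun n => ∀ t ∈ T, loc n t = c t), μ n - κ * ∏ t ∈ T, β t (c t)| ≤ E T) :
    |∑ n ∈ N, μ n * ∏ b, (Lam P h y (ib b) n) ^ 2 -
      κ * ∑ F : B × Bool × J → Finset P, Yp y F * ∏ t : P, ∑ x ∈ Cl (t : ℕ), β t x *
        ∏ τ ∈ univ.filter (fun τ => t ∈ F τ), chi (t : ℕ) (ib τ.1 + h τ.2.2) x| ≤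
      ∑ T ∈ univ.filter (fun T => Adm T), (2 : ℝ) ^ (Fintype.card (B × Bool × J) * T.card) *
        (E T * ∏ t ∈ T, (3 * ((t : ℕ) : ℝ))) := by
  have hY : ∀ F : B × Bool × J → Finset P, |Yp y F| ≤ 1 := by
    intro F
    unfold Yp
    rw [abs_prod]
    apply prod_le_one (fun _ _ => abs_nonneg _)
    intro b _
    rw [abs_mul]
    exact mul_le_one₀ (hy _) (abs_nonneg _) (hy _)
  have h1 := step1 (α := ℕ × ℕ) (ι := ℕ × ℕ) (S := P) (I := B × Bool × J) loc (fun t => Cl (t : ℕ)) N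
    (fun n _ t => loc_mem hP n t) μ β hβ1 (fun τ t x => chi (t : ℕ) (ib τ.1 + h τ.2.2) x) (Yp y) hY κ E hE
    Adm hAdm (by
      intro T hT c hcc
      have h9 := hc T hT c hcc
      convert h9) (fun t => 3 * ((t : ℕ) : ℝ)) (by
        intro t A hA
        exact sum_chi (t : ℕ) (hP t t.2) (h3 t t.2) (fun q : B × J => ib q.1 + h q.2) A hA)
    (fun t => by positivity)
  have h2 : ∀ n, ∏ b, (Lam P h y (ib b) n) ^ 2 =
      ∑ F : B × Bool × J → Finset P, Yp y F * ∏ τ : B × Bool × J, ∏ t ∈ F τ,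
        chi (t : ℕ) (ib τ.1 + h τ.2.2) (loc n t) := by
    intro n
    exact expand (fun b j (a : Finset P) => ∏ t ∈ a, chi (t : ℕ) (ib b + h j) (loc n t)) y
  rw [sum_congr rfl (fun n _ => by rw [h2 n])]
  exact h1

/-- the moments, general form -/
theorem moment_gen (h : J → ℕ) (y : (J → Finset P) → ℝ) (hy : ∀ f, |y f| ≤ 1) (ib : B → ℕ)
    (l : Option J)
    (N : Finset (ℕ × ℕ)) (μ : ℕ × ℕ → ℝ) (β : P → ℕ × ℕ → ℝ) (hβ1 : ∀ t : P, ∑ x ∈ Cl (t : ℕ), β t x = 1)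
    (hβ : ∀ t : P, ∀ x, |β t x| ≤ 4 / ((t : ℕ) : ℝ) ^ 2) (good : P → Prop) [DecidablePred good]
    (hpos : ∀ t : P, good t → ∀ q q' : B × J, q ≠ q' →
      ¬ ((t : ℕ) : ℤ) ∣ ((ib q.1 + h q.2 : ℕ) : ℤ) - (ib q'.1 + h q'.2 : ℕ))
    (hg : ∀ t : P, good t → ∀ x, β t x = pf (t : ℕ) l (fun q : B × J => ib q.1 + h q.2) x / ((t : ℕ) : ℝ) ^ 2)
    (κ : ℝ) (hκ : 0 ≤ κ) (Et : ℝ)
    (h1 : |∑ n ∈ N, μ n * ∏ b, (Lam P h y (ib b) n) ^ 2 -
      κ * ∑ F : B × Bool × J → Finset P, Yp y F * ∏ t : P, ∑ x ∈ Cl (t : ℕ), β t x *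
        ∏ τ ∈ univ.filter (fun τ => t ∈ F τ), chi (t : ℕ) (ib τ.1 + h τ.2.2) x| ≤ Et) :
    |∑ n ∈ N, μ n * ∏ b, (Lam P h y (ib b) n) ^ 2 -
      κ * (Wb (fun t : P => 1 / (((t : ℕ) : ℝ) - 1)) l y) ^ (Fintype.card B)| ≤
      κ * ((Wb (fun t : P => 1 / (((t : ℕ) : ℝ) - 1)) l (fun _ => 1)) ^ (Fintype.card B) *
        (Real.exp (∑ t : P, DD B J (good t) (t : ℕ)) - 1)) + Et := by
  have hν0 : ∀ t : P, 0 ≤ 1 / (((t : ℕ) : ℝ) - 1) := by
    intro t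
    have : (3 : ℝ) ≤ (t : ℕ) := by exact_mod_cast h3 t t.2
    apply div_nonneg zero_le_one; linarith
  have hν1 : ∀ t : P, 1 / (((t : ℕ) : ℝ) - 1) ≤ 1 := by
    intro t
    have : (3 : ℝ) ≤ (t : ℕ) := by exact_mod_cast h3 t t.2
    rw [div_le_one (by linarith)]; linarith
  have h2 := comp (B := B) (fun t : P => 1 / (((t : ℕ) : ℝ) - 1)) hν0 hν1 l y hy
    (fun t A => ∑ x ∈ Cl (t : ℕ), β t x * ∏ τ ∈ A, chi (t : ℕ) (ib τ.1 + h τ.2.2) x)
    (fun t => DD B J (good t) (t : ℕ)) (fun t => DD_bd (good t) (t : ℕ) (hP t t.2) (h3 t t.2) l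
      (fun q : B × J => ib q.1 + h q.2) (β t) (hβ1 t) (hβ t) (hpos t) (hg t))
  have h4 := mul_le_mul_of_nonneg_left h2 hκ
  rw [← abs_of_nonneg hκ, ← abs_mul, abs_of_nonneg hκ, mul_sub] at h4
  rw [abs_le] at h1 h4 ⊢
  constructor <;> linarith [h1.1, h1.2, h4.1, h4.2]

/-- the moments -/
theorem moment (h : J → ℕ) (y : (J → Finset P) → ℝ) (hy : ∀ f, |y f| ≤ 1) (ib : B → ℕ)
    (l : Option J)
    (N : Finset (ℕ × ℕ)) (μ : ℕ × ℕ → ℝ) (β : P → ℕ × ℕ → ℝ) (hβ1 : ∀ t : P, ∑ x ∈ Cl (t : ℕ), β t x = 1)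
    (hβ : ∀ t : P, ∀ x, |β t x| ≤ 4 / ((t : ℕ) : ℝ) ^ 2) (good : P → Prop) [DecidablePred good]
    (hpos : ∀ t : P, good t → ∀ q q' : B × J, q ≠ q' →
      ¬ ((t : ℕ) : ℤ) ∣ ((ib q.1 + h q.2 : ℕ) : ℤ) - (ib q'.1 + h q'.2 : ℕ))
    (hg : ∀ t : P, good t → ∀ x, β t x = pf (t : ℕ) l (fun q : B × J => ib q.1 + h q.2) x / ((t : ℕ) : ℝ) ^ 2)
    (κ : ℝ) (hκ : 0 ≤ κ) (E : Finset P → ℝ) (hE : ∀ T, 0 ≤ E T) (Adm : Finset P → Prop)
    [DecidablePred Adm] (hAdm : ∀ F : B × Bool × J → Finset P, Yp y F ≠ 0 → Adm (univ.biUnion F))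
    (hc : ∀ T, Adm T → ∀ c : P → ℕ × ℕ, (∀ t ∈ T, c t ∈ Cl (t : ℕ)) →
      |∑ n ∈ N.filter (fun n => ∀ t ∈ T, loc n t = c t), μ n - κ * ∏ t ∈ T, β t (c t)| ≤ E T) :
    |∑ n ∈ N, μ n * ∏ b, (Lam P h y (ib b) n) ^ 2 -
      κ * (Wb (fun t : P => 1 / (((t : ℕ) : ℝ) - 1)) l y) ^ (Fintype.card B)| ≤
      κ * ((Wb (fun t : P => 1 / (((t : ℕ) : ℝ) - 1)) l (fun _ => 1)) ^ (Fintype.card B) *
        (Real.exp (∑ t : P, DD B J (good t) (t : ℕ)) - 1)) +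
      ∑ T ∈ univ.filter (fun T => Adm T), (2 : ℝ) ^ (Fintype.card (B × Bool × J) * T.card) *
        (E T * ∏ t ∈ T, (3 * ((t : ℕ) : ℝ))) :=
  moment_gen hP h3 h y hy ib l N μ β hβ1 hβ good hpos hg κ hκ _
    (moment_aux hP h3 h y hy ib N μ β hβ1 κ E hE Adm hAdm hc)

/-- the expansion with errors depending on the class -/
theorem moment_aux' (W : ℕ) (hW : ∀ p ∈ P, ¬ p ∣ W) (hW0 : 1 ≤ W) (m1 m2 A1 A2 s0 r0 : ℕ)
    (h : J → ℕ) (y : (J → Finset P) → ℝ) (hy : ∀ f, |y f| ≤ 1) (ib : B → ℕ)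
    (μ : ℕ × ℕ → ℝ) (β : P → ℕ × ℕ → ℝ) (hβ1 : ∀ t : P, ∑ x ∈ Cl (t : ℕ), β t x = 1)
    (κ : ℝ) (E : Finset P → ℕ → ℕ → ℝ) (hE : ∀ T a b, 0 ≤ E T a b) (Adm : Finset P → Prop)
    [DecidablePred Adm] (hAdm : ∀ F : B × Bool × J → Finset P, Yp y F ≠ 0 → Adm (univ.biUnion F))
    (hc : ∀ T, Adm T → ∀ a b : ℕ, a ≡ s0 [MOD W] → b ≡ r0 [MOD W] →
      |∑ n ∈ CS m1 m2 A1 A2 (W * TT T) a b, μ n - κ * ∏ t ∈ T, β t (loc (a, b) t)| ≤ E T a b) :
    |∑ n ∈ CS m1 m2 A1 A2 W s0 r0, μ n * ∏ b, (Lam P h y (ib b) n) ^ 2 -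
      κ * ∑ F : B × Bool × J → Finset P, Yp y F * ∏ t : P, ∑ x ∈ Cl (t : ℕ), β t x *
        ∏ τ ∈ univ.filter (fun τ => t ∈ F τ), chi (t : ℕ) (ib τ.1 + h τ.2.2) x| ≤
      ∑ T ∈ univ.filter (fun T => Adm T), (2 : ℝ) ^ (Fintype.card (B × Bool × J) * T.card) *
        (∑ a ∈ A0 W (W * TT T) s0, ∑ b ∈ A0 W (W * TT T) r0,
          (∏ t ∈ T, gw (t : ℕ) (fun q : B × J => ib q.1 + h q.2) (a, b)) * E T a b) := by
  have hY : ∀ F : B × Bool × J → Finset P, |Yp y F| ≤ 1 := by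
    intro F
    unfold Yp
    rw [abs_prod]
    apply prod_le_one (fun _ _ => abs_nonneg _)
    intro b _
    rw [abs_mul]
    exact mul_le_one₀ (hy _) (abs_nonneg _) (hy _)
  have h1 := step1' (α := ℕ × ℕ) (ι := ℕ × ℕ) (S := P) (I := B × Bool × J) loc (fun t => Cl (t : ℕ))
    (CS m1 m2 A1 A2 W s0 r0) μ β hβ1 (fun τ t x => chi (t : ℕ) (ib τ.1 + h τ.2.2) x) (Yp y) hY κ
    (fun T => ∑ a ∈ A0 W (W * TT T) s0, ∑ b ∈ A0 W (W * TT T) r0,
          (∏ t ∈ T, gw (t : ℕ) (fun q : B × J => ib q.1 + h q.2) (a, b)) * E T a b)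
    (fun T => sum_nonneg fun a _ => sum_nonneg fun b _ =>
      mul_nonneg (prod_nonneg fun t _ => gw_nonneg _ _ _) (hE T a b))
    Adm hAdm (by
      intro F hF
      have h9 := classSum' hP W hW hW0 m1 m2 A1 A2 s0 r0 β
        (fun t x => ∏ τ ∈ univ.filter (fun τ => t ∈ F τ), chi (t : ℕ) (ib τ.1 + h τ.2.2) x) μ κ
        (univ.biUnion F) (E (univ.biUnion F)) (fun a b ha hb => hc _ hF a b ha hb)
      refine h9.trans ?_
      apply sum_le_sum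
      intro a _
      apply sum_le_sum
      intro b _
      apply mul_le_mul_of_nonneg_right _ (hE _ a b)
      apply prod_le_prod (fun _ _ => abs_nonneg _)
      intro t ht
      obtain ⟨τ, _, hτ⟩ := mem_biUnion.1 ht
      have h10 := prod_chi_le (t : ℕ) (h3 t t.2) (fun q : B × J => ib q.1 + h q.2)
        (univ.filter (fun τ => t ∈ F τ)) τ (mem_filter.2 ⟨mem_univ _, hτ⟩) (loc (a, b) t)
      refine h10.trans ?_
      rw [← gw_loc t (fun q : B × J => ib q.1 + h q.2) (a, b)]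
      unfold gw
      apply add_le_add le_rfl
      exact single_le_sum (f := fun q : B × J => if ((t : ℕ) : ℤ) ∣ vv (ib q.1 + h q.2) (loc (a, b) t)
        then (1 : ℝ) else 0) (fun q _ => by split_ifs <;> norm_num) (mem_univ (τ.1, τ.2.2)))
  have h2 : ∀ n, ∏ b, (Lam P h y (ib b) n) ^ 2 =
      ∑ F : B × Bool × J → Finset P, Yp y F * ∏ τ : B × Bool × J, ∏ t ∈ F τ,
        chi (t : ℕ) (ib τ.1 + h τ.2.2) (loc n t) := by
    intro n
    exact expand (fun b j (a : Finset P) => ∏ t ∈ a, chi (t : ℕ) (ib b + h j) (loc n t)) y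
  rw [sum_congr rfl (fun n _ => by rw [h2 n])]
  exact h1

/-- crude bound for the diagonal -/
theorem moment_crude (h : J → ℕ) (y : (J → Finset P) → ℝ) (hy : ∀ f, |y f| ≤ 1) (ib : B → ℕ)
    (N : Finset (ℕ × ℕ)) (μ : ℕ × ℕ → ℝ) (β : P → ℕ × ℕ → ℝ) (hβ1 : ∀ t : P, ∑ x ∈ Cl (t : ℕ), β t x = 1)
    (hβ : ∀ t : P, ∀ x, |β t x| ≤ 4 / ((t : ℕ) : ℝ) ^ 2)
    (κ : ℝ) (hκ : 0 ≤ κ) (E : Finset P → ℝ) (hE : ∀ T, 0 ≤ E T) (Adm : Finset P → Prop)
    [DecidablePred Adm] (hAdm : ∀ F : B × Bool × J → Finset P, Yp y F ≠ 0 → Adm (univ.biUnion F))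
    (hc : ∀ T, Adm T → ∀ c : P → ℕ × ℕ, (∀ t ∈ T, c t ∈ Cl (t : ℕ)) →
      |∑ n ∈ N.filter (fun n => ∀ t ∈ T, loc n t = c t), μ n - κ * ∏ t ∈ T, β t (c t)| ≤ E T) :
    ∑ n ∈ N, μ n * ∏ b, (Lam P h y (ib b) n) ^ 2 ≤
      κ * Real.exp (∑ t : P, 2 ^ (Fintype.card (B × Bool × J)) * (12 / ((t : ℕ) : ℝ))) +
      ∑ T ∈ univ.filter (fun T => Adm T), (2 : ℝ) ^ (Fintype.card (B × Bool × J) * T.card) *
        (E T * ∏ t ∈ T, (3 * ((t : ℕ) : ℝ))) := by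
  have h1 := moment_aux hP h3 h y hy ib N μ β hβ1 κ E hE Adm hAdm hc
  have hY : ∀ F : B × Bool × J → Finset P, |Yp y F| ≤ 1 := by
    intro F
    unfold Yp
    rw [abs_prod]
    apply prod_le_one (fun _ _ => abs_nonneg _)
    intro b _
    rw [abs_mul]
    exact mul_le_one₀ (hy _) (abs_nonneg _) (hy _)
  have h2 : ∑ F : B × Bool × J → Finset P, Yp y F * ∏ t : P, ∑ x ∈ Cl (t : ℕ), β t x *
        ∏ τ ∈ univ.filter (fun τ => t ∈ F τ), chi (t : ℕ) (ib τ.1 + h τ.2.2) x ≤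
      Real.exp (∑ t : P, 2 ^ (Fintype.card (B × Bool × J)) * (12 / ((t : ℕ) : ℝ))) := by
    calc _ ≤ ∑ F : B × Bool × J → Finset P, ∏ t : P, (fun (t : P) (A : Finset (B × Bool × J)) =>
          |∑ x ∈ Cl (t : ℕ), β t x * ∏ τ ∈ A, chi (t : ℕ) (ib τ.1 + h τ.2.2) x|) t
            (univ.filter (fun τ => t ∈ F τ)) := by
          apply sum_le_sum
          intro F _
          refine (le_abs_self _).trans ?_
          rw [abs_mul, abs_prod]
          have := mul_le_mul_of_nonneg_right (hY F) (prod_nonneg fun t _ => abs_nonneg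
            (∑ x ∈ Cl (t : ℕ), β t x * ∏ τ ∈ univ.filter (fun τ => t ∈ F τ),
              chi (t : ℕ) (ib τ.1 + h τ.2.2) x) : (0 : ℝ) ≤ ∏ t : P, |∑ x ∈ Cl (t : ℕ), β t x *
                ∏ τ ∈ univ.filter (fun τ => t ∈ F τ), chi (t : ℕ) (ib τ.1 + h τ.2.2) x|)
          rw [one_mul] at this
          exact this
      _ = ∏ t : P, ∑ A : Finset (B × Bool × J),
          |∑ x ∈ Cl (t : ℕ), β t x * ∏ τ ∈ A, chi (t : ℕ) (ib τ.1 + h τ.2.2) x| :=
          swap (fun (t : P) (A : Finset (B × Bool × J)) =>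
          |∑ x ∈ Cl (t : ℕ), β t x * ∏ τ ∈ A, chi (t : ℕ) (ib τ.1 + h τ.2.2) x|)
      _ ≤ _ := by
          rw [Real.exp_sum]
          apply prod_le_prod
          · intro t _
            exact sum_nonneg fun _ _ => abs_nonneg _
          · intro t _
            refine le_trans ?_ (Real.add_one_le_exp _)
            rw [← add_sum_erase univ _ (mem_univ (∅ : Finset (B × Bool × J)))]
            have e1 : |∑ x ∈ Cl (t : ℕ), β t x * ∏ τ ∈ (∅ : Finset (B × Bool × J)),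
                chi (t : ℕ) (ib τ.1 + h τ.2.2) x| = 1 := by
              simp only [prod_empty, mul_one]
              rw [hβ1 t, abs_one]
            rw [e1, add_comm]
            apply add_le_add _ le_rfl
            have e2 : ∀ A ∈ univ.erase (∅ : Finset (B × Bool × J)),
                |∑ x ∈ Cl (t : ℕ), β t x * ∏ τ ∈ A, chi (t : ℕ) (ib τ.1 + h τ.2.2) x| ≤
                12 / ((t : ℕ) : ℝ) := by
              intro A hA
              exact local_bad (t : ℕ) (hP t t.2) (h3 t t.2) (β t) (hβ t)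
                (fun q : B × J => ib q.1 + h q.2) A (nonempty_iff_ne_empty.2 (ne_of_mem_erase hA))
            refine (sum_le_card_nsmul _ _ _ e2).trans ?_
            rw [nsmul_eq_mul]
            apply mul_le_mul_of_nonneg_right _ (by positivity)
            have hcard : ((univ : Finset (Finset (B × Bool × J))).card : ℝ) =
                2 ^ (Fintype.card (B × Bool × J)) := by
              rw [card_univ, Fintype.card_finset]
              push_cast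
              rfl
            rw [← hcard]
            exact_mod_cast card_le_card (erase_subset _ _)
  have h4 := mul_le_mul_of_nonneg_left h2 hκ
  rw [abs_le] at h1
  linarith [h1.2]

end mom

end Pool.Agent.H43.BC
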