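import Pool.Agent.H43.BC.D2
import Pool.Agent.H43.G.R_seed8.Y889.PN.BVMax

set_option autoImplicit false
set_option linter.unusedSectionVars false

/-! The Bombieri-Vinogradov input. -/

namespace Pool.Agent.H43.BC

open Finset
open Pool.Agent.Y889.PN (PS bvmax)

/-- the difference between `Λ` and the restricted logarithm -/
theorem lam_sub_th (R Y : ℕ) (hY : 1 ≤ Y) :
    ∑ u ∈ Icc 1 Y, |ArithmeticFunction.vonMangoldt u - th R u| ≤
      2 * √(Y : ℝ) * Real.log Y + R * Real.log Y := by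
  have h1 : ∀ u ∈ Icc 1 Y, |ArithmeticFunction.vonMangoldt u - th R u| ≤
      (if ¬ u.Prime then ArithmeticFunction.vonMangoldt u else 0) +
      (if u ≤ R then Real.log Y else 0) := by
    intro u hu
    rw [mem_Icc] at hu
    have hlog : 0 ≤ Real.log Y := Real.log_natCast_nonneg Y
    unfold th
    by_cases hp : u.Prime
    · rw [ArithmeticFunction.vonMangoldt_apply_prime hp, if_neg (not_not.2 hp), zero_add]
      by_cases hR : R < u
      · rw [if_pos ⟨hp, hR⟩, sub_self, abs_zero]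
        split_ifs
        · exact hlog
        · exact le_rfl
      · rw [if_neg (fun h => hR h.2), sub_zero, if_pos (not_lt.1 hR),
          abs_of_nonneg (Real.log_natCast_nonneg u)]
        exact Real.log_le_log (by exact_mod_cast hp.pos) (by exact_mod_cast hu.2)
    · rw [if_neg (fun h => hp h.1), sub_zero, if_pos hp,
        abs_of_nonneg ArithmeticFunction.vonMangoldt_nonneg]
      have : (0 : ℝ) ≤ (if u ≤ R then Real.log Y else 0) := by split_ifs <;> simp [hlog]
      linarith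
  refine (sum_le_sum h1).trans ?_
  rw [sum_add_distrib]
  apply add_le_add
  · have h2 := Chebyshev.psi_sub_theta_le (x := (Y : ℝ)) (by exact_mod_cast hY)
    rw [Chebyshev.psi_sub_theta_eq_sum_not_prime, Nat.floor_natCast] at h2
    rw [← sum_filter]
    have e : Ioc 0 Y = Icc 1 Y := by ext; simp [Nat.succ_le_iff]
    rw [e] at h2
    exact h2
  · rw [← sum_filter, sum_const, nsmul_eq_mul]
    apply mul_le_mul_of_nonneg_right _ (Real.log_natCast_nonneg Y)
    have : ((Icc 1 Y).filter (fun u => u ≤ R)).card ≤ (Icc 1 R).card := by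
      apply card_le_card
      intro u hu
      rw [mem_filter, mem_Icc] at hu
      rw [mem_Icc]
      exact ⟨hu.1.1, hu.2⟩
    rw [Nat.card_Icc, Nat.add_sub_cancel] at this
    exact_mod_cast this

theorem bvh_of (R Y : ℕ) (hY : 1 ≤ Y) (M : ℕ → ℝ) (hM0 : ∀ q, 0 ≤ M q)
    (hM : ∀ q, 1 ≤ q → ∀ a : ℕ, a.Coprime q → ∀ y : ℕ, y ≤ Y → |PS y q a - y / (Nat.totient q : ℝ)| ≤ M q) :
    BVh R Y (fun q => M q + (2 * √(Y : ℝ) * Real.log Y + R * Real.log Y)) := by
  intro q hq hR a y hy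
  have h0 := lam_sub_th R Y hY
  by_cases hc : a.Coprime q
  · rw [if_pos hc]
    have h1 := hM q hq a hc y hy
    have h2 : |∑ u ∈ (Icc 1 y).filter (fun u => u ≡ a [MOD q]), th R u - PS y q a| ≤
        2 * √(Y : ℝ) * Real.log Y + R * Real.log Y := by
      unfold PS
      rw [← sum_sub_distrib]
      refine (abs_sum_le_sum_abs _ _).trans (le_trans ?_ h0)
      have e : ∀ u ∈ (Icc 1 y).filter (fun u => u ≡ a [MOD q]),
          |th R u - ArithmeticFunction.vonMangoldt u| = |ArithmeticFunction.vonMangoldt u - th R u| :=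
        fun u _ => abs_sub_comm _ _
      rw [sum_congr rfl e]
      apply sum_le_sum_of_subset_of_nonneg
      · exact (filter_subset _ _).trans (Icc_subset_Icc_right hy)
      · intro u _ _
        exact abs_nonneg _
    rw [abs_le] at h1 h2 ⊢
    simp only
    constructor <;> linarith [h1.1, h1.2, h2.1, h2.2]
  · rw [if_neg hc, sub_zero]
    have h2 : ∑ u ∈ (Icc 1 y).filter (fun u => u ≡ a [MOD q]), th R u = 0 := by
      apply sum_eq_zero
      intro u hu
      have h3 := (mem_filter.1 hu).2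
      unfold th
      rw [if_neg]
      rintro ⟨hp, hRu⟩
      apply hc
      have h4 : u.Coprime q := by
        rw [Nat.Prime.coprime_iff_not_dvd hp]
        intro h5
        have := hR u hp h5
        omega
      unfold Nat.Coprime at h4 ⊢
      rw [← h4]
      exact h3.symm.gcd_eq
    rw [h2, abs_zero]
    have := Real.log_natCast_nonneg Y
    have := hM0 q
    positivity

theorem BS_add {P : Finset ℕ} (hP : ∀ p ∈ P, p.Prime) (M : ℕ → ℝ) (e : ℝ) (he : 0 ≤ e) (Q : ℕ) (c : ℝ)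
    (hc0 : 0 ≤ c) (hc : ∀ p ∈ P, c ≤ (p : ℝ)) (m0 : ℕ) :
    BS P (fun q => M q + e) Q c m0 ≤ BS P M Q c m0 + e * (Q : ℝ) ^ 2 := by
  unfold BS
  have h := mul_le_mul_of_nonneg_left (sum_pow_le hP c hc0 hc Q) he
  rw [mul_sum] at h
  have e1 : ∑ T ∈ (univ : Finset (Finset P)).filter (fun T => TT T ≤ Q),
      c ^ T.card * (M (m0 * TT T) + e) =
      ∑ T ∈ (univ : Finset (Finset P)).filter (fun T => TT T ≤ Q), c ^ T.card * M (m0 * TT T) +
      ∑ T ∈ (univ : Finset (Finset P)).filter (fun T => TT T ≤ Q), e * c ^ T.card := by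
    rw [← sum_add_distrib]
    refine sum_congr rfl fun T _ => ?_
    ring
  rw [e1]
  linarith

theorem BS_mono {P : Finset ℕ} (M : ℕ → ℝ) (hM0 : ∀ q, 0 ≤ M q) (Q : ℕ) (c c' : ℝ)
    (hc0 : 0 ≤ c) (hcc : c ≤ c') (m0 : ℕ) : BS P M Q c m0 ≤ BS P M Q c' m0 := by
  unfold BS
  apply sum_le_sum
  intro T _
  exact mul_le_mul_of_nonneg_right (pow_le_pow_left₀ hc0 hcc _) (hM0 _)

/-- the threshold -/
theorem BS_le {P : Finset ℕ} (hP : ∀ p ∈ P, p.Prime) (hP3 : ∀ p ∈ P, 3 ≤ p) (M : ℕ → ℝ)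
    (hM0 : ∀ q, 0 ≤ M q) (Q Q1 Y : ℕ) (c : ℝ) (hc0 : 0 ≤ c) (m0 : ℕ) (hm0 : 1 ≤ m0)
    (hQ : m0 * Q ≤ Q1) (hQ1 : Q1 ≤ Y)
    (hM2 : ∀ q, 1 ≤ q → q ≤ Y → M q ≤ 2 * Y * Real.log Y / (Nat.totient q : ℝ)) (D lam : ℝ)
    (hM3 : ∑ q ∈ Icc 1 Q1, M q ≤ D) (hlam : 0 < lam) :
    BS P M Q c m0 ≤ lam * D + 2 * Y * Real.log Y / lam *
      Real.exp (c ^ 2 * ∑ t : P, 1 / (((t : ℕ) : ℝ) - 1)) := by
  have hlog := Real.log_natCast_nonneg Y
  have h1 : ∀ T ∈ (univ : Finset (Finset P)).filter (fun T => TT T ≤ Q),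
      c ^ T.card * M (m0 * TT T) ≤ lam * M (m0 * TT T) + 2 * Y * Real.log Y / lam *
        ∏ t ∈ T, (c ^ 2 * (1 / (((t : ℕ) : ℝ) - 1))) := by
    intro T hT
    have hTT := TT_pos' hP T
    have h2 : 1 ≤ m0 * TT T := Nat.mul_pos hm0 hTT
    have h3 : m0 * TT T ≤ Y := ((Nat.mul_le_mul_left m0 (mem_filter.1 hT).2).trans hQ).trans hQ1
    have h4 := hM2 _ h2 h3
    have h5 := hM0 (m0 * TT T)
    have h6 : c ^ T.card ≤ lam + (c ^ 2) ^ T.card / lam := by
      have h7 : (c ^ 2) ^ T.card = c ^ T.card * c ^ T.card := by rw [← pow_mul, mul_comm, pow_mul, sq]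
      rw [h7]
      have h8 : 0 ≤ c ^ T.card := pow_nonneg hc0 _
      rcases le_total (c ^ T.card) lam with h | h
      · have : 0 ≤ c ^ T.card * c ^ T.card / lam := by positivity
        linarith
      · have : c ^ T.card ≤ c ^ T.card * c ^ T.card / lam := by
          rw [le_div_iff₀ hlam]
          exact mul_le_mul_of_nonneg_left h h8
        linarith
    have h9 : (c ^ 2) ^ T.card * M (m0 * TT T) ≤ 2 * Y * Real.log Y *
        ∏ t ∈ T, (c ^ 2 * (1 / (((t : ℕ) : ℝ) - 1))) := by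
      have h10 : ∏ t ∈ T, (((t : ℕ) : ℝ) - 1) ≤ Nat.totient (m0 * TT T) := by
        have h11 := tot_TT hP 1 (fun p hp h => (hP p hp).one_lt.ne' (Nat.dvd_one.1 h)) T
        rw [one_mul, Nat.totient_one, Nat.cast_one, one_mul] at h11
        rw [← h11]
        have h12 : Nat.totient (TT T) ∣ Nat.totient (m0 * TT T) :=
          Nat.totient_dvd_of_dvd (Dvd.intro_left _ rfl)
        exact_mod_cast Nat.le_of_dvd (Nat.totient_pos.2 h2) h12
      have h13 : 0 < ∏ t ∈ T, (((t : ℕ) : ℝ) - 1) := prod_pos fun t _ => by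
        have : (3 : ℝ) ≤ (t : ℕ) := by exact_mod_cast hP3 t t.2
        linarith
      have h14 : M (m0 * TT T) ≤ 2 * Y * Real.log Y / ∏ t ∈ T, (((t : ℕ) : ℝ) - 1) := by
        refine h4.trans ?_
        exact div_le_div_of_nonneg_left (by positivity) h13 h10
      rw [prod_mul_distrib, prod_const, prod_div_distrib, prod_const_one]
      calc _ ≤ (c ^ 2) ^ T.card * (2 * Y * Real.log Y / ∏ t ∈ T, (((t : ℕ) : ℝ) - 1)) :=
            mul_le_mul_of_nonneg_left h14 (by positivity)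
        _ = _ := by ring
    calc c ^ T.card * M (m0 * TT T) ≤ (lam + (c ^ 2) ^ T.card / lam) * M (m0 * TT T) :=
          mul_le_mul_of_nonneg_right h6 h5
      _ = lam * M (m0 * TT T) + ((c ^ 2) ^ T.card * M (m0 * TT T)) / lam := by ring
      _ ≤ lam * M (m0 * TT T) + (2 * Y * Real.log Y *
        ∏ t ∈ T, (c ^ 2 * (1 / (((t : ℕ) : ℝ) - 1)))) / lam := by
          gcongr
      _ = _ := by ring
  unfold BS
  refine (sum_le_sum h1).trans ?_
  rw [sum_add_distrib, ← mul_sum, ← mul_sum]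
  apply add_le_add
  · apply mul_le_mul_of_nonneg_left _ hlam.le
    refine le_trans ?_ hM3
    have h2 : ∑ T ∈ (univ : Finset (Finset P)).filter (fun T => TT T ≤ Q), M (m0 * TT T) =
        ∑ q ∈ ((univ : Finset (Finset P)).filter (fun T => TT T ≤ Q)).image (fun T => m0 * TT T), M q := by
      rw [sum_image]
      intro T _ T' _ h
      exact TT_inj hP (Nat.eq_of_mul_eq_mul_left hm0 h)
    rw [h2]
    apply sum_le_sum_of_subset_of_nonneg
    · intro q hq
      rw [mem_image] at hq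
      obtain ⟨T, hT, rfl⟩ := hq
      rw [mem_Icc]
      exact ⟨Nat.mul_pos hm0 (TT_pos' hP T), (Nat.mul_le_mul_left m0 (mem_filter.1 hT).2).trans hQ⟩
    · intro q _ _
      exact hM0 q
  · apply mul_le_mul_of_nonneg_left _ (by positivity)
    calc _ ≤ ∑ T : Finset P, ∏ t ∈ T, (c ^ 2 * (1 / (((t : ℕ) : ℝ) - 1))) := by
          apply sum_le_sum_of_subset_of_nonneg (filter_subset _ _)
          intro T _ _
          apply prod_nonneg
          intro t _
          have : (3 : ℝ) ≤ (t : ℕ) := by exact_mod_cast hP3 t t.2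
          apply mul_nonneg (sq_nonneg _) (div_nonneg zero_le_one (by linarith))
      _ = ∏ t : P, (1 + c ^ 2 * (1 / (((t : ℕ) : ℝ) - 1))) := by
          rw [prod_one_add, powerset_univ]
      _ ≤ Real.exp (∑ t : P, c ^ 2 * (1 / (((t : ℕ) : ℝ) - 1))) := by
          rw [Real.exp_sum]
          apply prod_le_prod
          · intro t _
            have : (3 : ℝ) ≤ (t : ℕ) := by exact_mod_cast hP3 t t.2
            have : 0 ≤ c ^ 2 * (1 / (((t : ℕ) : ℝ) - 1)) :=
              mul_nonneg (sq_nonneg _) (div_nonneg zero_le_one (by linarith))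
            linarith
          · intro t _
            have := Real.add_one_le_exp (c ^ 2 * (1 / (((t : ℕ) : ℝ) - 1)))
            linarith
      _ = _ := by rw [mul_sum]

end Pool.Agent.H43.BC
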