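import Pool.Agent.H43.BC.E1

set_option autoImplicit false
set_option linter.unusedSectionVars false

/-! The Bombieri-Vinogradov input, final form. -/

namespace Pool.Agent.H43.BC

open Finset Filter
open Pool.Agent.Y889.PN (PS bvmax)

theorem evt_log_pow (a : ℝ) (ha : 0 < a) (c : ℝ) (n : ℕ) :
    ∀ᶠ Y : ℕ in atTop, c * Real.log Y ^ n ≤ (Y : ℝ) ^ a := by
  have h1 := (tendsto_natCast_atTop_atTop (R := ℝ)).eventually
      ((isLittleO_log_rpow_rpow_atTop (n : ℝ) ha).bound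
        (show (0:ℝ) < 1 / (|c| + 1) by positivity))
  filter_upwards [h1, eventually_ge_atTop 3] with Y g1 g2
  have hY3 : (3 : ℝ) ≤ Y := by exact_mod_cast g2
  have hlog : 0 ≤ Real.log Y := Real.log_nonneg (by linarith)
  rw [Real.norm_of_nonneg (Real.rpow_nonneg hlog _), Real.norm_of_nonneg (Real.rpow_nonneg (by linarith) _),
    Real.rpow_natCast, one_div, inv_mul_eq_div, le_div_iff₀ (by positivity)] at g1
  have h2 : 0 ≤ Real.log Y ^ n := by positivity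
  have h3 : c ≤ |c| := le_abs_self c
  nlinarith

theorem evt_log_ge (c : ℝ) : ∀ᶠ Y : ℕ in atTop, c ≤ Real.log Y :=
  (Real.tendsto_log_atTop.comp (tendsto_natCast_atTop_atTop (R := ℝ))).eventually
      (Filter.eventually_ge_atTop c)

theorem BVh_mono (R Y : ℕ) (M M' : ℕ → ℝ) (h : BVh R Y M) (hM : ∀ q, M q ≤ M' q) : BVh R Y M' :=
  fun q hq hR a y hy => (h q hq hR a y hy).trans (hM q)

theorem bv (U c : ℕ) : ∃ X0 : ℕ, ∀ Y : ℕ, X0 ≤ Y → ∃ M : ℕ → ℝ, (∀ q, 0 ≤ M q) ∧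
    (∀ R : ℕ, R ≤ Y.sqrt → BVh R Y M) ∧
    ∀ (P : Finset ℕ), (∀ p ∈ P, p.Prime) → (∀ p ∈ P, 3 ≤ p) → (∀ p ∈ P, (c : ℝ) ≤ p) →
      ∑ t : P, 1 / (((t : ℕ) : ℝ) - 1) ≤ Real.log (Real.log Y) + 1 → ∀ Q : ℕ, Q ^ 8 ≤ Y →
      ∀ m0 : ℕ, 1 ≤ m0 → m0 * Q ≤ Y.sqrt.sqrt → ∀ c' : ℝ, 0 ≤ c' → c' ≤ c →
      BS P M Q c' m0 ≤ Y / (Real.log Y) ^ U := by
  obtain ⟨A, hA⟩ : ∃ A, A = U + c ^ 2 + 3 := ⟨_, rfl⟩
  obtain ⟨U1, hU1⟩ : ∃ U1, U1 = A + U + 1 := ⟨_, rfl⟩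
  obtain ⟨B, X1, hbv⟩ := bvmax U1
  obtain ⟨X0, hX0⟩ := eventually_atTop.1 ((evt_log_pow (1 / 2) (by norm_num) 1 B).and
    ((evt_log_pow (1 / 4) (by norm_num) 3 (U + 2)).and ((evt_log_ge (2 * Real.exp (c ^ 2))).and
      ((evt_log_ge 3).and ((eventually_ge_atTop X1).and (eventually_ge_atTop 3))))))
  refine ⟨X0, fun Y hY => ?_⟩
  obtain ⟨g1, g2, g3, g4, g5, g6⟩ := hX0 Y hY
  have hY3 : (3 : ℝ) ≤ Y := by exact_mod_cast g6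
  have hY0 : (0 : ℝ) < Y := by linarith
  obtain ⟨ℓ, hℓ⟩ : ∃ ℓ, ℓ = Real.log Y := ⟨_, rfl⟩
  rw [← hℓ] at g1 g2 g3 g4
  have hℓ0 : 0 < ℓ := by linarith
  obtain ⟨s, hs⟩ : ∃ s, s = (Y : ℝ) ^ (1 / 4 : ℝ) := ⟨_, rfl⟩
  have hs0 : 0 < s := by rw [hs]; positivity
  have hs2 : (Y : ℝ) ^ (1 / 2 : ℝ) = s ^ 2 := by
    rw [hs, ← Real.rpow_natCast, ← Real.rpow_mul hY0.le]; norm_num
  have hs4 : (Y : ℝ) = s ^ 4 := by
    rw [hs, ← Real.rpow_natCast, ← Real.rpow_mul hY0.le]; norm_num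
  have hsq : √(Y : ℝ) = s ^ 2 := by rw [Real.sqrt_eq_rpow, hs2]
  rw [← hs] at g2
  rw [hs2] at g1
  obtain ⟨Q1, hQ1⟩ : ∃ Q1, Q1 = Y.sqrt.sqrt := ⟨_, rfl⟩
  have hsqN : ((Y.sqrt : ℕ) : ℝ) ≤ s ^ 2 := by rw [← hsq]; exact Real.nat_sqrt_le_real_sqrt
  have hQ1s : (Q1 : ℝ) ^ 2 ≤ s ^ 2 := by
    have h1 := Nat.sqrt_le' Y.sqrt
    rw [← hQ1] at h1
    have h2 : (Q1 : ℝ) ^ 2 ≤ Y.sqrt := by exact_mod_cast h1
    exact h2.trans hsqN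
  have hQB : (Q1 : ℝ) ^ 2 * Real.log Y ^ B ≤ (Y : ℝ) := by
    have h1 : (Q1 : ℝ) ^ 2 * Real.log Y ^ B ≤ s ^ 2 * s ^ 2 :=
      mul_le_mul hQ1s (by rw [← hℓ]; linarith) (by rw [← hℓ]; positivity) (by positivity)
    refine h1.trans (le_of_eq ?_)
    rw [hs4]
    ring
  obtain ⟨M, hM0, hM1, hM2, hM3⟩ := hbv Y g5 Q1 hQB
  have hQ1Y : Q1 ≤ Y := by
    rw [hQ1]
    exact (Nat.sqrt_le_self _).trans (Nat.sqrt_le_self _)
  refine ⟨fun q => M q + 3 * s ^ 2 * ℓ, fun q => by have := hM0 q; positivity, ?_, ?_⟩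
  · intro R hR
    apply BVh_mono R Y _ _ (bvh_of R Y (by omega) M hM0 hM1)
    intro q
    have h1 : (R : ℝ) ≤ s ^ 2 := by
      have : (R : ℝ) ≤ Y.sqrt := by exact_mod_cast hR
      exact this.trans hsqN
    rw [hsq, ← hℓ]
    have h2 := mul_le_mul_of_nonneg_right h1 hℓ0.le
    linarith
  · intro P hP hP3 hPc hS Q hQ m0 hm0 hmQ c' hc0 hcc
    have h1 := BS_add hP M (3 * s ^ 2 * ℓ) (by positivity) Q c' hc0
      (fun p hp => hcc.trans (hPc p hp)) m0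
    refine h1.trans ?_
    have h2 := BS_le hP hP3 M hM0 Q Q1 Y c' hc0 m0 hm0 (by rw [hQ1]; exact hmQ) hQ1Y hM2
      (Y / Real.log Y ^ U1) (ℓ ^ A) hM3 (by positivity)
    rw [← hℓ] at h2 hS ⊢
    have hQs : (Q : ℝ) ^ 2 ≤ s := by
      have h3 : ((Q : ℝ) ^ 2) ^ 4 ≤ s ^ 4 := by
        rw [← hs4, ← pow_mul]
        exact_mod_cast hQ
      exact le_of_pow_le_pow_left₀ (by norm_num) hs0.le h3
    have hYl : (Y : ℝ) / ℓ ^ U = ℓ * (Y / ℓ ^ (U + 1)) := by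
      rw [pow_succ]
      field_simp
    have t1 : ℓ ^ A * (Y / ℓ ^ U1) = Y / ℓ ^ (U + 1) := by
      rw [hU1, show A + U + 1 = A + (U + 1) by ring, pow_add ℓ A (U + 1)]
      field_simp
    have hexp : Real.exp (c' ^ 2 * ∑ t : P, 1 / (((t : ℕ) : ℝ) - 1)) ≤
        Real.exp (c ^ 2) * ℓ ^ (c ^ 2) := by
      have hS0 : 0 ≤ ∑ t : P, 1 / (((t : ℕ) : ℝ) - 1) := sum_nonneg fun t _ => by
        have : (3 : ℝ) ≤ (t : ℕ) := by exact_mod_cast hP3 t t.2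
        exact div_nonneg zero_le_one (by linarith)
      have h5 : c' ^ 2 * ∑ t : P, 1 / (((t : ℕ) : ℝ) - 1) ≤ (c : ℝ) ^ 2 * (Real.log ℓ + 1) := by
        apply mul_le_mul (pow_le_pow_left₀ hc0 hcc 2) hS hS0 (by positivity)
      calc _ ≤ Real.exp ((c : ℝ) ^ 2 * (Real.log ℓ + 1)) := Real.exp_le_exp.2 h5
        _ = _ := by
          rw [mul_add, mul_one, Real.exp_add, mul_comm]
          congr 1
          rw [mul_comm, Real.exp_mul, Real.exp_log hℓ0]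
          have : ((c : ℝ) ^ 2) = ((c ^ 2 : ℕ) : ℝ) := by push_cast; ring
          rw [this, Real.rpow_natCast]
    have t2 : 2 * Y * ℓ / ℓ ^ A * Real.exp (c' ^ 2 * ∑ t : P, 1 / (((t : ℕ) : ℝ) - 1)) ≤
        Y / ℓ ^ (U + 1) := by
      calc _ ≤ 2 * Y * ℓ / ℓ ^ A * (Real.exp (c ^ 2) * ℓ ^ (c ^ 2)) :=
            mul_le_mul_of_nonneg_left hexp (by positivity)
        _ = (2 * Real.exp (c ^ 2)) * (Y / ℓ ^ (U + 2)) := by
            rw [hA, show U + c ^ 2 + 3 = (U + 2) + c ^ 2 + 1 by ring, pow_succ ℓ, pow_add ℓ (U + 2)]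
            field_simp
        _ ≤ ℓ * (Y / ℓ ^ (U + 2)) := mul_le_mul_of_nonneg_right g3 (by positivity)
        _ = Y / ℓ ^ (U + 1) := by
            rw [show U + 2 = (U + 1) + 1 by ring, pow_succ ℓ (U + 1)]
            field_simp
    have t3 : 3 * s ^ 2 * ℓ * (Q : ℝ) ^ 2 ≤ Y / ℓ ^ (U + 1) := by
      rw [le_div_iff₀ (by positivity)]
      calc 3 * s ^ 2 * ℓ * (Q : ℝ) ^ 2 * ℓ ^ (U + 1) ≤ 3 * s ^ 2 * ℓ * s * ℓ ^ (U + 1) := by gcongr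
        _ = s ^ 3 * (3 * ℓ ^ (U + 2)) := by ring
        _ ≤ s ^ 3 * s := mul_le_mul_of_nonneg_left g2 (by positivity)
        _ = Y := by rw [hs4]; ring
    rw [hYl]
    have h6 : 3 * (Y / ℓ ^ (U + 1)) ≤ ℓ * (Y / ℓ ^ (U + 1)) :=
      mul_le_mul_of_nonneg_right g4 (by positivity)
    rw [t1] at h2
    linarith

end Pool.Agent.H43.BC
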