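import Pool.Agent.H43.BC.E2
import Pool.Agent.H43.BC.B7

set_option autoImplicit false
set_option linter.unusedSectionVars false

/-! The six moments. -/

namespace Pool.Agent.H43.BC

open Finset
open Pool.Agent.R498.MT (lz)

/-- the sum over the moduli of the average errors with two primes -/
noncomputable def AVb (P : Finset ℕ) (M : ℕ → ℝ) (Q : ℕ) (C : ℝ) (m1 m2 L K W D R Y δ : ℕ) : ℝ :=
  ∑ T ∈ (univ : Finset (Finset P)).filter (fun T => TT T ≤ Q), C ^ T.card *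
      (TT T * (2 * δ / Nat.totient (2 * δ * (W * TT T)) * (((m2 : ℝ) - m1) * (2 * M (W * TT T)))) +
       2 * (((L : ℝ) / (W * TT T : ℕ) + 1) * Real.log Y +
          2 * δ / Nat.totient (2 * δ * (W * TT T)) * L) * (Y * Real.log Y) +
       2 * Real.log Y * (K * (4 * Y * (((D : ℝ) / (2 * δ * (W * TT T) : ℕ) + 1) * Real.log (2 * Y : ℕ)) +
          2 / (2 * δ * (W * TT T) : ℕ) * VV R (R + 1) (2 * Y) (2 * δ * L) (2 * δ * (W * TT T)))))

/-- the data -/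
structure Su (J : Type) [Fintype J] [DecidableEq J] where
  P : Finset ℕ
  W : ℕ
  R : ℕ
  Q : ℕ
  m1 : ℕ
  m2 : ℕ
  A1 : ℕ
  A2 : ℕ
  L : ℕ
  K : ℕ
  Dd : ℕ
  Y : ℕ
  s0 : ℕ
  r0 : ℕ
  M : ℕ → ℝ
  y : (J → Finset P) → ℝ
  EB : ℝ
  E2b : ℝ
  mb : ℕ
  hP : ∀ p ∈ P, p.Prime
  hP3 : ∀ p ∈ P, 3 ≤ p
  hPc : ∀ p ∈ P, (2 * (3 * 2 ^ (4 * Fintype.card J)) : ℝ) ≤ (p : ℝ)
  hW0 : 1 ≤ W
  hW2 : 2 ∣ W
  hW : ∀ p ∈ P, ¬ p ∣ W
  hRW : ∀ p : ℕ, p.Prime → p ∣ W → p ≤ R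
  hRP : ∀ p ∈ P, p ≤ R
  hR1 : 1 ≤ R
  hQ : R ^ 4 ≤ Q
  hL : 1 ≤ L
  hm2 : m2 = m1 + K * L
  hA1 : 1 ≤ A1
  hA : A1 ≤ A2
  hWQ : ((W * Q : ℕ) : ℝ) ≤ (m2 : ℝ) - m1
  hRm : R + 1 ≤ m1
  hDk : mb * Q ≤ Dd
  hY2 : mb * Q + Dd + mb * L ≤ Y
  hE2 : ∀ δ : ℕ, 1 ≤ δ → 2 * δ * W ≤ mb →
    AVb P M Q (2 ^ (Fintype.card (Fin 2 × Bool × J)) * (2 + Fintype.card (Fin 2 × J)))
      m1 m2 L K W Dd R Y δ ≤ E2b
  hM : BVh R Y M
  hM0 : ∀ q, 0 ≤ M q
  hy1 : ∀ f, |y f| ≤ 1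
  hys : ∀ f, y f ≠ 0 → ∑ j, lz (fun t : P => Real.log ((t : ℕ) : ℝ)) (f j) < Real.log R
  hBS : ∀ m0 : ℕ, 1 ≤ m0 → m0 ≤ mb → ∀ c : ℝ, 0 ≤ c → c ≤ 2 * (3 * 2 ^ (4 * Fintype.card J)) →
    BS P M Q c m0 ≤ EB
  hWm : W ≤ mb

namespace Su
variable {J : Type} [Fintype J] [DecidableEq J] (D : Su J)

/-- the weights on the primes -/
noncomputable def ν (t : D.P) : ℝ := 1 / (((t : ℕ) : ℝ) - 1)

/-- the domain -/
def N : Finset (ℕ × ℕ) := CS D.m1 D.m2 D.A1 D.A2 D.W D.s0 D.r0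

/-- number of `M` -/
noncomputable def N1 : ℝ := (D.m2 : ℝ) - D.m1

/-- number of `a` -/
noncomputable def NA : ℝ := (D.A2 : ℝ) - D.A1

theorem hm : D.m1 ≤ D.m2 := by have := D.hm2; omega

theorem N1_nonneg : 0 ≤ D.N1 := by
  unfold N1
  have : (D.m1 : ℝ) ≤ D.m2 := by exact_mod_cast D.hm
  linarith

theorem NA_nonneg : 0 ≤ D.NA := by
  unfold NA
  have : (D.A1 : ℝ) ≤ D.A2 := by exact_mod_cast D.hA
  linarith

/-- density of the domain -/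
noncomputable def κ : ℝ := D.N1 * D.NA / (D.W : ℝ) ^ 2

theorem κ_nonneg : 0 ≤ D.κ := by
  unfold κ
  exact div_nonneg (mul_nonneg D.N1_nonneg D.NA_nonneg) (sq_nonneg _)

theorem hAdm {B : Type} [Fintype B] [DecidableEq B] (hB : Fintype.card B ≤ 2)
    (F : B × Bool × J → Finset D.P) (hF : Yp D.y F ≠ 0) : TT (univ.biUnion F) ≤ D.Q := by
  refine (adm_of D.hP D.R D.hR1 D.y D.hys F hF).trans (le_trans ?_ D.hQ)
  exact Nat.pow_le_pow_right D.hR1 (by omega)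

theorem hcc {B : Type} [Fintype B] [DecidableEq B] (hB : Fintype.card B ≤ 2) :
    (3 * 2 ^ (Fintype.card (B × Bool × J)) : ℝ) ≤ 3 * 2 ^ (4 * Fintype.card J) := by
  apply mul_le_mul_of_nonneg_left _ (by norm_num)
  apply pow_le_pow_right₀ (by norm_num)
  rw [Fintype.card_prod, Fintype.card_prod, Fintype.card_bool]
  nlinarith

theorem E0 {B : Type} [Fintype B] [DecidableEq B] (hB : Fintype.card B ≤ 2) :
    ∑ T ∈ univ.filter (fun T : Finset D.P => TT T ≤ D.Q),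
      (2 : ℝ) ^ (Fintype.card (B × Bool × J) * T.card) *
        ((D.N1 + D.NA + 1) * ∏ t ∈ T, (3 * ((t : ℕ) : ℝ))) ≤ (D.N1 + D.NA + 1) * (D.Q : ℝ) ^ 3 := by
  have hn1 := D.N1_nonneg
  have hna := D.NA_nonneg
  refine err0 D.hP _ ?_ D.Q _ (by linarith)
  intro p hp
  have h1 := D.hPc p hp
  have h2 := hcc (J := J) hB
  have h3 : (0 : ℝ) ≤ 3 * 2 ^ (4 * Fintype.card J) := by positivity
  linarith

theorem E1 {B : Type} [Fintype B] [DecidableEq B] (hB : Fintype.card B ≤ 2) :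
    ∑ T ∈ univ.filter (fun T : Finset D.P => TT T ≤ D.Q),
      (2 : ℝ) ^ (Fintype.card (B × Bool × J) * T.card) *
        (((D.N1 / ((D.W * TT T : ℕ) : ℝ) + 1) * (2 * D.M (D.W * TT T)) +
        D.NA / Nat.totient (D.W * TT T)) * ∏ t ∈ T, (3 * ((t : ℕ) : ℝ))) ≤
      4 * D.N1 * D.EB + D.NA * (D.Q : ℝ) ^ 2 := by
  have h2 := hcc (J := J) hB
  have h3 : (0 : ℝ) ≤ 3 * 2 ^ (4 * Fintype.card J) := by positivity
  have hn1 := D.N1_nonneg
  refine (err1 D.hP D.hP3 _ (fun p hp => ?_) D.W D.hW0 D.hW D.Q D.N1 D.NA D.NA_nonneg D.hWQ D.M D.hM0).trans ?_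
  · have h1 := D.hPc p hp
    linarith
  · apply add_le_add _ le_rfl
    apply mul_le_mul_of_nonneg_left _ (by linarith)
    exact D.hBS D.W D.hW0 D.hWm _ (by positivity) (by linarith)

/-- moments without primes -/
theorem mom0 {B : Type} [Fintype B] [DecidableEq B] (hB : Fintype.card B ≤ 2) (h : J → ℕ) (ib : B → ℕ)
    (good : D.P → Prop) [DecidablePred good]
    (hpos : ∀ t : D.P, good t → ∀ q q' : B × J, q ≠ q' →
      ¬ ((t : ℕ) : ℤ) ∣ ((ib q.1 + h q.2 : ℕ) : ℤ) - (ib q'.1 + h q'.2 : ℕ)) :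
    |∑ n ∈ D.N, ∏ b, (Lam D.P h D.y (ib b) n) ^ 2 - D.κ * (Wb D.ν none D.y) ^ (Fintype.card B)| ≤
      D.κ * ((Wb D.ν (none : Option J) (fun _ => 1)) ^ (Fintype.card B) *
        (Real.exp (∑ t : D.P, DD B J (good t) (t : ℕ)) - 1)) + (D.N1 + D.NA + 1) * (D.Q : ℝ) ^ 3 := by
  have h1 := moment (B := B) (J := J) D.hP D.hP3 h D.y D.hy1 ib none D.N (fun _ => 1) (fun t => β0 (t : ℕ))
    (fun t => sum_β0 (t : ℕ) (D.hP t t.2)) (fun t x => (β_bd 0 0 0 (t : ℕ) (D.hP3 t t.2) x).1) good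
    hpos (fun t _ x => by unfold β0 pf; simp) D.κ D.κ_nonneg (fun _ => D.N1 + D.NA + 1)
    (fun _ => by have := D.N1_nonneg; have := D.NA_nonneg; positivity) (fun T => TT T ≤ D.Q) (D.hAdm hB)
    (fun T _ c hc => hc0 D.hP D.W D.hW D.hW0 D.m1 D.m2 D.A1 D.A2 D.s0 D.r0 D.hm D.hA T c hc)
  simp only [one_mul] at h1
  refine h1.trans ?_
  exact add_le_add le_rfl (D.E0 hB)

theorem crude0 (h : J → ℕ) (ib : Fin 2 → ℕ) :
    ∑ n ∈ D.N, ∏ b, (Lam D.P h D.y (ib b) n) ^ 2 ≤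
      D.κ * Real.exp (∑ t : D.P, 2 ^ (Fintype.card (Fin 2 × Bool × J)) * (12 / ((t : ℕ) : ℝ))) +
        (D.N1 + D.NA + 1) * (D.Q : ℝ) ^ 3 := by
  have h1 := moment_crude (B := Fin 2) (J := J) D.hP D.hP3 h D.y D.hy1 ib D.N (fun _ => 1)
    (fun t => β0 (t : ℕ))
    (fun t => sum_β0 (t : ℕ) (D.hP t t.2)) (fun t x => (β_bd 0 0 0 (t : ℕ) (D.hP3 t t.2) x).1)
    D.κ D.κ_nonneg (fun _ => D.N1 + D.NA + 1)
    (fun _ => by have := D.N1_nonneg; have := D.NA_nonneg; positivity) (fun T => TT T ≤ D.Q) (D.hAdm (by simp))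
    (fun T _ c hc => hc0 D.hP D.W D.hW D.hW0 D.m1 D.m2 D.A1 D.A2 D.s0 D.r0 D.hm D.hA T c hc)
  simp only [one_mul] at h1
  refine h1.trans ?_
  exact add_le_add le_rfl (D.E0 (by simp))

/-- density of the domain with a prime -/
noncomputable def κ1 : ℝ := D.N1 * D.NA / (D.W * Nat.totient D.W)

theorem κ1_nonneg : 0 ≤ D.κ1 := by
  unfold κ1
  exact div_nonneg (mul_nonneg D.N1_nonneg D.NA_nonneg) (by positivity)

theorem mom1 (h : J → ℕ) (i : ℕ) (l : J)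
    (good : D.P → Prop) [DecidablePred good]
    (hpos : ∀ t : D.P, good t → ∀ q q' : Fin 1 × J, q ≠ q' →
      ¬ ((t : ℕ) : ℤ) ∣ ((i + h q.2 : ℕ) : ℤ) - (i + h q'.2 : ℕ))
    (hY : (D.m2 + (i + h l)) ^ 2 + D.A2 ≤ D.Y) (hcl : (vn D.W (i + h l) D.s0 D.r0).Coprime D.W) :
    |∑ n ∈ D.N, th D.R ((n.1 + (i + h l)) ^ 2 + n.2) * (Lam D.P h D.y i n) ^ 2 -
      D.κ1 * (Wb D.ν (some l) D.y)| ≤
      D.κ1 * ((Wb D.ν (some l) (fun _ => 1)) *
        (Real.exp (∑ t : D.P, DD (Fin 1) J (good t) (t : ℕ)) - 1)) +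
        (4 * D.N1 * D.EB + D.NA * (D.Q : ℝ) ^ 2) := by
  have h1 := moment (B := Fin 1) (J := J) D.hP D.hP3 h D.y D.hy1 (fun _ => i) (some l) D.N
    (fun n => th D.R ((n.1 + (i + h l)) ^ 2 + n.2)) (fun t => β1 (i + h l) (t : ℕ))
    (fun t => sum_β1 (i + h l) (t : ℕ) (D.hP t t.2))
    (fun t x => (β_bd (i + h l) 0 0 (t : ℕ) (D.hP3 t t.2) x).2.1) good
    hpos (fun t _ x => by
      have ht3 : (3 : ℝ) ≤ (t : ℕ) := by exact_mod_cast D.hP3 t t.2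
      unfold β1 pf
      rw [Fintype.prod_prod_type]
      simp only [univ_unique, prod_singleton, Option.some.injEq]
      rw [prod_ite_eq univ l (fun j => (if ((t : ℕ) : ℤ) ∣ vv (i + h j) x then (0 : ℝ) else
        1 + 1 / (((t : ℕ) : ℝ) - 1)))]
      simp only [mem_univ, if_true]
      split_ifs
      · rw [zero_div]
      · have h5 : ((t : ℕ) : ℝ) - 1 ≠ 0 := by linarith
        have h6 : ((t : ℕ) : ℝ) ≠ 0 := by linarith
        field_simp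
        ring) D.κ1 D.κ1_nonneg
    (fun T => (D.N1 / ((D.W * TT T : ℕ) : ℝ) + 1) * (2 * D.M (D.W * TT T)) +
        D.NA / Nat.totient (D.W * TT T))
    (fun T => by
      have := D.hM0 (D.W * TT T)
      have := D.N1_nonneg
      have := D.NA_nonneg
      positivity) (fun T => TT T ≤ D.Q) (D.hAdm (by simp))
    (fun T _ c hc => hc1 D.hP D.W D.hW D.hW0 D.R D.Y D.M D.hM D.hM0 D.hRW D.hRP D.m1 D.m2 D.A1 D.A2
      D.s0 D.r0 (i + h l) D.hm D.hA1 D.hA hY hcl T c hc)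
  simp only [univ_unique, prod_singleton, Fintype.card_unique, pow_one] at h1
  refine h1.trans ?_
  exact add_le_add le_rfl (D.E1 (by simp))

theorem crude1 (h : J → ℕ) (i : ℕ) (l : J)
    (hY : (D.m2 + (i + h l)) ^ 2 + D.A2 ≤ D.Y) (hcl : (vn D.W (i + h l) D.s0 D.r0).Coprime D.W) :
    ∑ n ∈ D.N, th D.R ((n.1 + (i + h l)) ^ 2 + n.2) *
      ∏ _b : Fin 2, (Lam D.P h D.y i n) ^ 2 ≤
      D.κ1 * Real.exp (∑ t : D.P, 2 ^ (Fintype.card (Fin 2 × Bool × J)) * (12 / ((t : ℕ) : ℝ))) +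
        (4 * D.N1 * D.EB + D.NA * (D.Q : ℝ) ^ 2) := by
  have h1 := moment_crude (B := Fin 2) (J := J) D.hP D.hP3 h D.y D.hy1 (fun _ => i) D.N
    (fun n => th D.R ((n.1 + (i + h l)) ^ 2 + n.2)) (fun t => β1 (i + h l) (t : ℕ))
    (fun t => sum_β1 (i + h l) (t : ℕ) (D.hP t t.2))
    (fun t x => (β_bd (i + h l) 0 0 (t : ℕ) (D.hP3 t t.2) x).2.1) D.κ1 D.κ1_nonneg
    (fun T => (D.N1 / ((D.W * TT T : ℕ) : ℝ) + 1) * (2 * D.M (D.W * TT T)) +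
        D.NA / Nat.totient (D.W * TT T))
    (fun T => by
      have := D.hM0 (D.W * TT T)
      have := D.N1_nonneg
      have := D.NA_nonneg
      positivity) (fun T => TT T ≤ D.Q) (D.hAdm (by simp))
    (fun T _ c hc => hc1 D.hP D.W D.hW D.hW0 D.R D.Y D.M D.hM D.hM0 D.hRW D.hRP D.m1 D.m2 D.A1 D.A2
      D.s0 D.r0 (i + h l) D.hm D.hA1 D.hA hY hcl T c hc)
  refine h1.trans ?_
  exact add_le_add le_rfl (D.E1 (by simp))

/-- two primes -/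
theorem mom2 (h : J → ℕ) (i δ : ℕ) (l : J) (hδ : 1 ≤ δ) (hδR : δ ≤ D.R) (hδm : 2 * δ * D.W ≤ D.mb)
    (good : D.P → Prop) [DecidablePred good]
    (hpos : ∀ t : D.P, good t → ∀ q q' : Fin 2 × J, q ≠ q' →
      ¬ ((t : ℕ) : ℤ) ∣ (((if q.1 = 0 then i else i + δ) + h q.2 : ℕ) : ℤ) -
        ((if q'.1 = 0 then i else i + δ) + h q'.2 : ℕ))
    (hY : (D.m2 + (i + h l) + δ) ^ 2 + D.A2 ≤ D.Y)
    (hcl : (vn D.W (i + h l) D.s0 D.r0).Coprime D.W)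
    (hcl' : (vn D.W (i + h l + δ) D.s0 D.r0).Coprime D.W) :
    |∑ n ∈ D.N, (th D.R ((n.1 + (i + h l)) ^ 2 + n.2) *
        th D.R ((n.1 + (i + h l + δ)) ^ 2 + n.2)) *
      ((Lam D.P h D.y i n) ^ 2 * (Lam D.P h D.y (i + δ) n) ^ 2) -
      2 * δ * (D.N1 * D.NA) / (Nat.totient (2 * δ * D.W) * Nat.totient D.W) *
        (Wb D.ν (some l) D.y) ^ 2| ≤
      2 * δ * (D.N1 * D.NA) / (Nat.totient (2 * δ * D.W) * Nat.totient D.W) *
      ((Wb D.ν (some l) (fun _ => 1)) ^ 2 *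
        (Real.exp (∑ t : D.P, DD (Fin 2) J (good t) (t : ℕ)) - 1)) + D.E2b := by
  have hκ0 : 0 ≤ 2 * δ * (D.N1 * D.NA) / (Nat.totient (2 * δ * D.W) * Nat.totient D.W : ℝ) := by
    have := D.N1_nonneg
    have := D.NA_nonneg
    positivity
  have haux := moment_aux' (B := Fin 2) (J := J) D.hP D.hP3 D.W D.hW D.hW0 D.m1 D.m2 D.A1 D.A2 D.s0 D.r0
    h D.y D.hy1 (fun b => if b = 0 then i else i + δ)
    (fun n => th D.R ((n.1 + (i + h l)) ^ 2 + n.2) * th D.R ((n.1 + (i + h l + δ)) ^ 2 + n.2))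
    (fun t => β2 (i + h l) (i + h l + δ) δ (t : ℕ))
    (fun t => sum_β2 (i + h l) δ (t : ℕ) (D.hP t t.2) (by have := D.hP3 t t.2; omega))
    (2 * δ * (D.N1 * D.NA) / (Nat.totient (2 * δ * D.W) * Nat.totient D.W))
    (fun T a b => Er2 D.R D.Y D.M D.m1 D.m2 D.A2 D.L D.K (i + h l) δ (D.W * TT T) a b)
    (fun T a b => by
      unfold Er2
      have h1 := D.hM0 (D.W * TT T)
      have h2 : (0 : ℝ) ≤ (D.m2 : ℝ) - D.m1 := D.N1_nonneg
      have h3 := Real.log_natCast_nonneg D.Y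
      apply add_nonneg _ (by positivity)
      apply sum_nonneg
      intro u _
      apply mul_nonneg (th_nonneg _ _)
      have h4 : 0 ≤ ∑ j ∈ range D.K, Fs D.R (u + δ * (2 * (i + h l) + δ) + 2 * δ * (D.m1 + j * D.L))
          (2 * δ * D.L) (2 * δ * (D.W * TT T)) (u + δ * (2 * (i + h l) + δ) + 2 * δ * a) :=
        sum_nonneg fun _ _ => Fs_nonneg _ _ _ _ _
      positivity)
    (fun T => TT T ≤ D.Q) (D.hAdm (by simp))
    (fun T _ a b ha hb => hc2 D.hP D.W D.hW D.hW0 D.R D.Y D.M D.hM D.hM0 D.hW2 D.hRW D.hRP D.m1 D.m2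
      D.A1 D.A2 D.L D.K D.s0 D.r0 (i + h l) δ D.hL D.hm2 D.hA1 D.hA hδ hδR hY hcl hcl' T a b ha hb)
  have hEE : ∑ T ∈ univ.filter (fun T : Finset D.P => TT T ≤ D.Q),
      (2 : ℝ) ^ (Fintype.card (Fin 2 × Bool × J) * T.card) *
        (∑ a ∈ A0 D.W (D.W * TT T) D.s0, ∑ b ∈ A0 D.W (D.W * TT T) D.r0,
          (∏ t ∈ T, gw (t : ℕ) (fun q : Fin 2 × J => (if q.1 = 0 then i else i + δ) + h q.2) (a, b)) *
          Er2 D.R D.Y D.M D.m1 D.m2 D.A2 D.L D.K (i + h l) δ (D.W * TT T) a b) ≤ D.E2b := by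
    refine le_trans ?_ (D.hE2 δ hδ hδm)
    unfold AVb
    apply sum_le_sum
    intro T hT
    have hTQ := (mem_filter.1 hT).2
    have hW0 := D.hW0
    have hk1 : 2 * δ * (D.W * TT T) ≤ D.mb * D.Q := by
      calc 2 * δ * (D.W * TT T) = (2 * δ * D.W) * TT T := by ring
        _ ≤ D.mb * D.Q := Nat.mul_le_mul hδm hTQ
    have hk2 : 2 * δ * D.L ≤ D.mb * D.L := by
      apply Nat.mul_le_mul_right
      calc 2 * δ = 2 * δ * 1 := by ring
        _ ≤ 2 * δ * D.W := Nat.mul_le_mul_left _ hW0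
        _ ≤ _ := hδm
    have h9 := avg D.hP D.hP3 D.W D.hW D.hW0 D.hW2
      (fun q : Fin 2 × J => (if q.1 = 0 then i else i + δ) + h q.2) D.R D.Y D.M D.hM0 D.hRW D.hRP
      D.m1 D.m2 D.A2 D.L D.K (i + h l) δ D.Dd D.hm2 hδ hδR D.s0 D.r0 T D.hRm hY (hk1.trans D.hDk)
      (by have := D.hY2; omega)
    refine (mul_le_mul_of_nonneg_left h9 (by positivity)).trans (le_of_eq ?_)
    rw [← mul_assoc]
    congr 1
    rw [mul_pow, ← pow_mul]
  have h1 := moment_gen (B := Fin 2) (J := J) D.hP D.hP3 h D.y D.hy1 (fun b => if b = 0 then i else i + δ)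
    (some l) D.N
    (fun n => th D.R ((n.1 + (i + h l)) ^ 2 + n.2) * th D.R ((n.1 + (i + h l + δ)) ^ 2 + n.2))
    (fun t => β2 (i + h l) (i + h l + δ) δ (t : ℕ))
    (fun t => sum_β2 (i + h l) δ (t : ℕ) (D.hP t t.2) (by have := D.hP3 t t.2; omega))
    (fun t x => (β_bd (i + h l) (i + h l + δ) δ (t : ℕ) (D.hP3 t t.2) x).2.2) good
    hpos (fun t ht x => by
      have ht3 : (3 : ℝ) ≤ (t : ℕ) := by exact_mod_cast D.hP3 t t.2
      have hnd : ¬ (t : ℕ) ∣ δ := by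
        intro hd
        have h2 := hpos t ht (1, l) (0, l) (by simp)
        apply h2
        simp only [one_ne_zero, if_false, if_true]
        push_cast
        have : (i : ℤ) + δ + h l - (i + h l) = δ := by ring
        rw [this]
        exact_mod_cast hd
      unfold β2 pf
      rw [Fintype.prod_prod_type]
      simp only [Option.some.injEq]
      rw [Fin.prod_univ_two]
      simp only [if_true, one_ne_zero, if_false]
      rw [prod_ite_eq univ l (fun j => (if ((t : ℕ) : ℤ) ∣ vv (i + h j) x then (0 : ℝ) else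
        1 + 1 / (((t : ℕ) : ℝ) - 1))), prod_ite_eq univ l (fun j =>
        (if ((t : ℕ) : ℤ) ∣ vv (i + δ + h j) x then (0 : ℝ) else
        1 + 1 / (((t : ℕ) : ℝ) - 1)))]
      simp only [mem_univ, if_true, if_neg hnd]
      have hre : i + δ + h l = i + h l + δ := by ring
      rw [hre]
      have h5 : ((t : ℕ) : ℝ) - 1 ≠ 0 := by linarith
      have h6 : ((t : ℕ) : ℝ) ≠ 0 := by linarith
      by_cases g1 : ((t : ℕ) : ℤ) ∣ vv (i + h l) x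
      · rw [if_pos (Or.inl g1), if_pos g1]; simp
      · by_cases g2 : ((t : ℕ) : ℤ) ∣ vv (i + h l + δ) x
        · rw [if_pos (Or.inr g2), if_pos g2]; simp
        · rw [if_neg (not_or.2 ⟨g1, g2⟩), if_neg g1, if_neg g2]
          field_simp
          ring)
    (2 * δ * (D.N1 * D.NA) / (Nat.totient (2 * δ * D.W) * Nat.totient D.W)) hκ0 D.E2b
    (haux.trans hEE)
  have e1 : ∀ n, ∏ b : Fin 2, (Lam D.P h D.y (if b = 0 then i else i + δ) n) ^ 2 =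
      (Lam D.P h D.y i n) ^ 2 * (Lam D.P h D.y (i + δ) n) ^ 2 := by
    intro n
    rw [Fin.prod_univ_two]
    simp
  simp only [e1, Fintype.card_fin] at h1
  exact h1

end Su

end Pool.Agent.H43.BC
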