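import Pool.Agent.H43.BC.F2

set_option autoImplicit false
set_option linter.unusedSectionVars false

/-! Admissible classes. -/

namespace Pool.Agent.H43.BC

open Finset

/-- the modulus of the small primes -/
def Wz (z0 : ℕ) : ℕ := ∏ p ∈ (range z0).filter Nat.Prime, p

theorem Wz_pos (z0 : ℕ) : 1 ≤ Wz z0 := by
  have h : 0 < ∏ p ∈ (range z0).filter Nat.Prime, p := by
    apply Finset.prod_pos
    intro p hp
    exact (mem_filter.1 hp).2.pos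
  exact h

theorem dvd_Wz (z0 p : ℕ) (hp : p.Prime) : p ∣ Wz z0 ↔ p < z0 := by
  unfold Wz
  constructor
  · intro h
    obtain ⟨q, hq, h2⟩ := (Prime.dvd_finsetProd_iff hp.prime _).1 h
    rw [mem_filter, mem_range] at hq
    rw [(Nat.prime_dvd_prime_iff_eq hp hq.2).1 h2]
    exact hq.1
  · intro h
    exact dvd_prod_of_mem _ (mem_filter.2 ⟨mem_range.2 h, hp⟩)

theorem vv_shift (p τ τ' : ℕ) (x : ℕ × ℕ) (h : (p : ℤ) ∣ (τ : ℤ) - τ') :
    (p : ℤ) ∣ vv τ x ↔ (p : ℤ) ∣ vv τ' x := by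
  have h1 := diff_vv τ τ' x
  have h2 : (p : ℤ) ∣ vv τ x - vv τ' x := by rw [h1]; exact Dvd.dvd.mul_right h _
  constructor
  · intro h3
    have := dvd_sub h3 h2
    simpa using this
  · intro h3
    have := dvd_add h2 h3
    simpa using this

theorem card_bad (p : ℕ) (hp : p.Prime) (c : ℕ) (x : ℕ × ℕ) :
    ((range p).filter (fun i => (p : ℤ) ∣ vv (i + c) x)).card ≤ 2 := by
  by_contra hcon
  push Not at hcon
  obtain ⟨a, ha, b, hb, d, hd, hab, had, hbd⟩ := two_lt_card.1 hcon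
  rw [mem_filter, mem_range] at ha hb hd
  have hpp : Prime (p : ℤ) := Nat.prime_iff_prime_int.1 hp
  have hne : ∀ u v : ℕ, u < p → v < p → u ≠ v → ¬ (p : ℤ) ∣ (u : ℤ) - v := by
    intro u v hu hv huv h
    have h1 : (v : ℕ) ≡ u [MOD p] := (Nat.modEq_iff_dvd).2 h
    have h2 := Nat.ModEq.eq_of_lt_of_lt h1 hv hu
    exact huv h2.symm
  have h1 := dvd_sub ha.2 hb.2
  rw [diff_vv] at h1
  have h2 := dvd_sub ha.2 hd.2
  rw [diff_vv] at h2
  have h3 := (hpp.dvd_or_dvd h1).resolve_left (by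
    have := hne a b ha.1 hb.1 hab
    have e : ((a + c : ℕ) : ℤ) - ((b + c : ℕ) : ℤ) = a - b := by push_cast; ring
    rwa [e])
  have h4 := (hpp.dvd_or_dvd h2).resolve_left (by
    have := hne a d ha.1 hd.1 had
    have e : ((a + c : ℕ) : ℤ) - ((d + c : ℕ) : ℤ) = a - d := by push_cast; ring
    rwa [e])
  have h5 := dvd_sub h3 h4
  apply hne b d hb.1 hd.1 hbd
  have e : 2 * (x.1 : ℤ) + (((a + c : ℕ) : ℤ) + ((b + c : ℕ) : ℤ)) -
      (2 * x.1 + (((a + c : ℕ) : ℤ) + ((d + c : ℕ) : ℤ))) = b - d := by push_cast; ring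
  rwa [e] at h5

/-- a good residue for one shift -/
theorem good_one (p : ℕ) (hp : p.Prime) (c : ℕ) (x : ℕ × ℕ) : ∃ i : ℕ, ¬ (p : ℤ) ∣ vv (i + c) x := by
  by_cases h2 : p = 2
  · subst h2
    refine ⟨x.1 + x.2 + 1 + c, fun h => ?_⟩
    unfold vv at h
    obtain ⟨d, hd⟩ := h
    push_cast at hd
    have h3 : (2 : ℤ) ∣ ((x.2 : ℤ)) * (x.2 + 1) := (Int.even_mul_succ_self _).two_dvd
    obtain ⟨e', he'⟩ := h3
    have e : ((x.1 : ℤ) + (x.1 + x.2 + 1 + c + c)) ^ 2 + x.2 =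
        2 * (2 * ((x.1 : ℤ) + c) ^ 2 + 2 * (x.1 + c) * (x.2 + 1)) + (x.2 : ℤ) * (x.2 + 1) + 2 * x.2 + 1 := by ring
    rw [e, he'] at hd
    omega
  · have hp3 : 3 ≤ p := by
      have := hp.two_le
      omega
    have h1 := card_bad p hp c x
    have h3 : ∃ i ∈ range p, i ∉ (range p).filter (fun i => (p : ℤ) ∣ vv (i + c) x) := by
      by_contra hcon
      push Not at hcon
      have h4 := card_le_card (show range p ⊆ _ from hcon)
      rw [card_range] at h4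
      omega
    obtain ⟨i, hi, hi2⟩ := h3
    exact ⟨i, fun h => hi2 (mem_filter.2 ⟨hi, h⟩)⟩

/-- a good residue -/
theorem good_res {J : Type} [Fintype J] (h : J → ℕ) (p : ℕ) (hp : p.Prime)
    (hhs : p ≤ 2 * Fintype.card J → ∀ j j', (p : ℤ) ∣ (h j : ℤ) - h j') (x : ℕ × ℕ) :
    ∃ i : ℕ, ∀ j, ¬ (p : ℤ) ∣ vv (i + h j) x := by
  classical
  by_cases hk : p ≤ 2 * Fintype.card J
  · by_cases hJ : Nonempty J
    · obtain ⟨j0⟩ := hJ
      obtain ⟨i, hi⟩ := good_one p hp (h j0) x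
      refine ⟨i, fun j hd => hi ?_⟩
      apply (vv_shift p (i + h j) (i + h j0) x _).1 hd
      push_cast
      have e : (i : ℤ) + h j - (i + h j0) = h j - h j0 := by ring
      rw [e]
      exact hhs hk j j0
    · exact ⟨0, fun j => absurd ⟨j⟩ hJ⟩
  · push Not at hk
    have h1 : ((univ : Finset J).biUnion (fun j => (range p).filter (fun i => (p : ℤ) ∣ vv (i + h j) x))).card
        ≤ 2 * Fintype.card J := by
      refine card_biUnion_le.trans ?_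
      refine (sum_le_card_nsmul _ _ 2 (fun j _ => card_bad p hp (h j) x)).trans ?_
      rw [card_univ, smul_eq_mul, mul_comm]
    have h3 : ∃ i ∈ range p, i ∉ (univ : Finset J).biUnion
        (fun j => (range p).filter (fun i => (p : ℤ) ∣ vv (i + h j) x)) := by
      by_contra hcon
      push Not at hcon
      have h4 := card_le_card (show range p ⊆ _ from hcon)
      rw [card_range] at h4
      omega
    obtain ⟨i, hi, hi2⟩ := h3
    refine ⟨i, fun j h => hi2 (mem_biUnion.2 ⟨j, mem_univ _, mem_filter.2 ⟨hi, h⟩⟩)⟩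

/-- admissible base positions -/
theorem exists_i0 {J : Type} [Fintype J] (h : J → ℕ) (z0 : ℕ)
    (hhs : ∀ p : ℕ, p.Prime → p ≤ 2 * Fintype.card J → ∀ j j', (p : ℤ) ∣ (h j : ℤ) - h j')
    (s0 r0 J0 : ℕ) :
    ∃ i0 : ℕ, J0 < i0 ∧ i0 ≤ J0 + Wz z0 ∧ ∀ m : ℕ, ∀ j,
      (vn (Wz z0) (i0 + Wz z0 * m + h j) s0 r0).Coprime (Wz z0) := by
  classical
  obtain ⟨P', hP'⟩ : ∃ P', P' = (range z0).filter Nat.Prime := ⟨_, rfl⟩
  have hpr : ∀ p ∈ P', p.Prime := fun p hp => by rw [hP'] at hp; exact (mem_filter.1 hp).2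
  have hch : ∀ t : P', ∃ i : ℕ, ∀ j, ¬ ((t : ℕ) : ℤ) ∣ vv (i + h j) (s0, r0) := fun t =>
    good_res h t (hpr t t.2) (hhs t (hpr t t.2)) (s0, r0)
  choose c hc using hch
  obtain ⟨a, b, hab⟩ := crtT hpr 1 (fun p hp h => (hpr p hp).one_lt.ne' (Nat.dvd_one.1 h)) 0 0
    (fun t => (c t, c t)) univ
  have hT : 1 * TT (univ : Finset P') = Wz z0 := by
    unfold TT Wz
    rw [one_mul, Finset.prod_coe_sort P' (fun p => p), hP']
  rw [hT] at hab
  have hW := Wz_pos z0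
  obtain ⟨i0, h1, h2, h3⟩ : ∃ i0, J0 < i0 ∧ i0 ≤ J0 + Wz z0 ∧ i0 ≡ a [MOD Wz z0] := by
    refine ⟨J0 + 1 + ((a + (Wz z0 - 1) * (J0 + 1)) % Wz z0), by omega, ?_, ?_⟩
    · have := Nat.mod_lt (a + (Wz z0 - 1) * (J0 + 1)) hW
      omega
    · have h4 : J0 + 1 + ((a + (Wz z0 - 1) * (J0 + 1)) % Wz z0) ≡
          J0 + 1 + (a + (Wz z0 - 1) * (J0 + 1)) [MOD Wz z0] := Nat.ModEq.add_left _ (Nat.mod_modEq _ _)
      have h5 : J0 + 1 + (a + (Wz z0 - 1) * (J0 + 1)) = a + Wz z0 * (J0 + 1) := by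
        obtain ⟨w, hw⟩ : ∃ w, Wz z0 = w + 1 := ⟨Wz z0 - 1, by omega⟩
        rw [hw, Nat.add_sub_cancel]
        ring
      rw [h5] at h4
      exact h4.trans (by unfold Nat.ModEq; simp)
  refine ⟨i0, h1, h2, fun m j => ?_⟩
  rw [Nat.coprime_iff_gcd_eq_one]
  by_contra hne
  obtain ⟨p, hp, hpd⟩ := Nat.exists_prime_and_dvd hne
  have g1 := hpd.trans (Nat.gcd_dvd_left _ _)
  have g2 := hpd.trans (Nat.gcd_dvd_right _ _)
  have g3 := (dvd_vn _ _ _ _ p).1 g1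
  have hpz := (dvd_Wz z0 p hp).1 g2
  have hpP : p ∈ P' := by rw [hP']; exact mem_filter.2 ⟨mem_range.2 hpz, hp⟩
  have g4 := ((hab (a, b)).1 ⟨rfl, rfl⟩).2.2 ⟨p, hpP⟩ (mem_univ _)
  have g5 : i0 ≡ c ⟨p, hpP⟩ [MOD p] := (h3.of_dvd g2).trans g4.1
  apply hc ⟨p, hpP⟩ j
  apply (vv_shift p (i0 + Wz z0 * m + h j) (c ⟨p, hpP⟩ + h j) (s0, r0) _).1 g3
  have g6 : (p : ℤ) ∣ (i0 : ℤ) - c ⟨p, hpP⟩ := Nat.modEq_iff_dvd.1 g5.symm
  have g7 : (p : ℤ) ∣ (Wz z0 : ℤ) * m := Dvd.dvd.mul_right (by exact_mod_cast g2) _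
  have e : ((i0 + Wz z0 * m + h j : ℕ) : ℤ) - ((c ⟨p, hpP⟩ + h j : ℕ) : ℤ) =
      (i0 - c ⟨p, hpP⟩) + Wz z0 * m := by push_cast; ring
  rw [e]
  exact dvd_add g6 g7

end Pool.Agent.H43.BC
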