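import Pool.Agent.H43.BC.F3

set_option autoImplicit false
set_option linter.unusedSectionVars false

/-! Mertens. -/

namespace Pool.Agent.H43.BC

open Finset Filter Topology
open Pool.Agent.R498.MT (MerS)

/-- sums over primes -/
noncomputable def AM (N : ℕ) : ℝ := ∑ p ∈ (Icc 1 N).filter Nat.Prime, (1 : ℝ) / p

/-- the sieving primes -/
def Pz (z0 R : ℕ) : Finset ℕ := (Ico z0 R).filter Nat.Prime

theorem loglog_near (b : ℝ) (hb : 2 ≤ b) :
    |Real.log (Real.log ((⌈Real.exp b⌉₊ - 1 : ℕ) : ℝ)) - Real.log b| ≤ 2 / b := by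
  have hb0 : 0 < b := by linarith
  have he : 2 ≤ Real.exp b := by
    have := Real.add_one_le_exp b
    linarith
  have h1 : Real.exp b ≤ ⌈Real.exp b⌉₊ := Nat.le_ceil _
  have h2 : (⌈Real.exp b⌉₊ : ℝ) < Real.exp b + 1 := Nat.ceil_lt_add_one (by linarith)
  have hc1 : 1 ≤ ⌈Real.exp b⌉₊ := by
    have : (1 : ℝ) ≤ ⌈Real.exp b⌉₊ := by linarith
    exact_mod_cast this
  have hN : ((⌈Real.exp b⌉₊ - 1 : ℕ) : ℝ) = ⌈Real.exp b⌉₊ - 1 := by
    rw [Nat.cast_sub hc1]; push_cast; ring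
  obtain ⟨N, hNe⟩ : ∃ N : ℝ, N = ((⌈Real.exp b⌉₊ - 1 : ℕ) : ℝ) := ⟨_, rfl⟩
  rw [← hNe] at hN ⊢
  have h3 : Real.exp b / 2 ≤ N := by rw [hN]; linarith
  have h4 : N ≤ Real.exp b := by rw [hN]; linarith
  have hN0 : 0 < N := by linarith
  have h5 : Real.log N ≤ b := by
    have := Real.log_le_log hN0 h4
    rwa [Real.log_exp] at this
  have h6 : b - 7 / 10 ≤ Real.log N := by
    have h7 := Real.log_le_log (by positivity) h3
    rw [Real.log_div (Real.exp_pos b).ne' (by norm_num), Real.log_exp] at h7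
    have := Real.log_two_lt_d9
    linarith
  have hl0 : 0 < Real.log N := by linarith
  have h8 : Real.log (Real.log N) ≤ Real.log b := Real.log_le_log hl0 h5
  have h9 : Real.log b - Real.log (Real.log N) ≤ 2 / b := by
    rw [← Real.log_div hb0.ne' hl0.ne']
    have h10 := Real.log_le_sub_one_of_pos (div_pos hb0 hl0)
    refine h10.trans ?_
    rw [div_sub_one hl0.ne', div_le_div_iff₀ hl0 hb0]
    nlinarith
  rw [abs_le]
  constructor
  · linarith
  · have : 0 ≤ 2 / b := by positivity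
    linarith

theorem mers : ∃ z1 : ℕ, ∀ z0 : ℕ, z1 ≤ z0 → ∀ R : ℕ,
    MerS (fun t : Pz z0 R => Real.log ((t : ℕ) : ℝ)) (fun t : Pz z0 R => 1 / (((t : ℕ) : ℝ) - 1))
      (Real.log z0) (Real.log R) (1 / 20) ∧
    ∑ t : Pz z0 R, (1 / (((t : ℕ) : ℝ) - 1)) ^ 2 ≤ 1 / 20 := by
  classical
  obtain ⟨M, hM⟩ := Pool.Agent.H305R2.mertens_inv_tendsto
  rw [Metric.tendsto_atTop] at hM
  obtain ⟨N0, hN0⟩ := hM (1 / 200) (by norm_num)
  refine ⟨max (N0 + 2) ⌈Real.exp 400⌉₊, fun z0 hz R => ?_⟩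
  have hz1 : N0 + 2 ≤ z0 := (le_max_left _ _).trans hz
  have hz2 : ⌈Real.exp 400⌉₊ ≤ z0 := (le_max_right _ _).trans hz
  have hz3 : Real.exp 400 ≤ z0 := (Nat.le_ceil _).trans (by exact_mod_cast hz2)
  have hz401 : (401 : ℝ) ≤ z0 := by
    have := Real.add_one_le_exp (400 : ℝ)
    linarith
  have hz0 : (0 : ℝ) < z0 := by linarith
  have hlz : 400 ≤ Real.log z0 := by
    rw [Real.le_log_iff_exp_le hz0]; exact hz3
  have hge : ∀ t : Pz z0 R, (z0 : ℝ) ≤ (t : ℕ) := by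
    intro t
    have := t.2
    unfold Pz at this
    exact_mod_cast (mem_Ico.1 (mem_filter.1 this).1).1
  have hsub : Pz z0 R ⊆ Ico z0 R := filter_subset _ _
  have hsq := sq_tail z0 R (by omega) (Pz z0 R) hsub
  have hν : ∀ t : Pz z0 R, 0 ≤ 1 / (((t : ℕ) : ℝ) - 1) ∧ 1 / (((t : ℕ) : ℝ) - 1) ≤ 2 / ((t : ℕ) : ℝ) ∧
      0 ≤ 1 / (((t : ℕ) : ℝ) - 1) - 1 / ((t : ℕ) : ℝ) ∧
      1 / (((t : ℕ) : ℝ) - 1) - 1 / ((t : ℕ) : ℝ) ≤ 2 * (1 / ((t : ℕ) : ℝ) ^ 2) := by
    intro t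
    have h1 := hge t
    have h2 : (0 : ℝ) < ((t : ℕ) : ℝ) - 1 := by linarith
    have h3 : (0 : ℝ) < ((t : ℕ) : ℝ) := by linarith
    refine ⟨by positivity, ?_, ?_, ?_⟩
    · rw [div_le_div_iff₀ h2 h3]; linarith
    · rw [sub_nonneg]
      exact one_div_le_one_div_of_le h2 (by linarith)
    · have e : 1 / (((t : ℕ) : ℝ) - 1) - 1 / ((t : ℕ) : ℝ) = 1 / ((((t : ℕ) : ℝ) - 1) * ((t : ℕ) : ℝ)) := by
        field_simp
        ring
      rw [e, mul_one_div, div_le_div_iff₀ (by positivity) (by positivity)]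
      nlinarith
  constructor
  · intro a b ha hab hb
    have ha400 : 400 ≤ a := hlz.trans ha
    have hb400 : 400 ≤ b := ha400.trans hab
    have key : ∀ x : ℝ, Real.log z0 ≤ x →
        |AM (⌈Real.exp x⌉₊ - 1) - M - Real.log x| ≤ 1 / 100 := by
      intro x hx
      have hx400 : 400 ≤ x := hlz.trans hx
      have h1 : z0 ≤ ⌈Real.exp x⌉₊ := by
        have h2 : (z0 : ℝ) ≤ Real.exp x := by
          rw [← Real.log_le_iff_le_exp hz0]; exact hx
        exact_mod_cast h2.trans (Nat.le_ceil _)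
      have h3 := hN0 (⌈Real.exp x⌉₊ - 1) (by omega)
      rw [Real.dist_eq] at h3
      have h4 := loglog_near x (by linarith)
      have h5 : 2 / x ≤ 1 / 200 := by
        rw [div_le_div_iff₀ (by linarith) (by norm_num)]; linarith
      unfold AM
      have h6 := h3.le
      rw [abs_le] at h6 h4 ⊢
      constructor <;> linarith [h6.1, h6.2, h4.1, h4.2]
    have ka := key a ha
    have kb := key b (ha.trans hab)
    -- the sum of 1/t
    have hS : ∑ t ∈ univ.filter (fun t : Pz z0 R => a ≤ Real.log ((t : ℕ) : ℝ) ∧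
        Real.log ((t : ℕ) : ℝ) < b), (1 : ℝ) / ((t : ℕ) : ℝ) =
        AM (⌈Real.exp b⌉₊ - 1) - AM (⌈Real.exp a⌉₊ - 1) := by
      rw [sum_filter]
      rw [Finset.sum_coe_sort (Pz z0 R) (fun p => if a ≤ Real.log (p : ℝ) ∧
        Real.log (p : ℝ) < b then (1 : ℝ) / (p : ℝ) else 0), ← sum_filter]
      unfold AM
      have hsubset : (Icc 1 (⌈Real.exp a⌉₊ - 1)).filter Nat.Prime ⊆
          (Icc 1 (⌈Real.exp b⌉₊ - 1)).filter Nat.Prime := by
        apply filter_subset_filter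
        apply Icc_subset_Icc_right
        have : ⌈Real.exp a⌉₊ ≤ ⌈Real.exp b⌉₊ := Nat.ceil_le_ceil (Real.exp_le_exp.2 hab)
        omega
      have h7 := sum_sdiff hsubset (f := fun p : ℕ => (1 : ℝ) / p)
      rw [← h7]
      rw [add_sub_cancel_right]
      apply sum_congr _ (fun _ _ => rfl)
      have hlt : ∀ (x : ℝ) (p : ℕ), 1 ≤ p → (Real.log (p : ℝ) < x ↔ p ≤ ⌈Real.exp x⌉₊ - 1) := by
        intro x p hp
        have hp0 : (0 : ℝ) < p := by exact_mod_cast hp
        rw [Real.log_lt_iff_lt_exp hp0, ← Nat.lt_ceil]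
        omega
      ext p
      simp only [mem_filter, Pz, mem_Ico, Finset.mem_sdiff, mem_Icc]
      constructor
      · rintro ⟨⟨⟨h1, h2⟩, h3⟩, h4, h5⟩
        have hp1 := h3.one_lt.le
        refine ⟨⟨⟨hp1, (hlt b p hp1).1 h5⟩, h3⟩, ?_⟩
        rintro ⟨⟨_, h6⟩, _⟩
        have := (hlt a p hp1).2 h6
        linarith
      · rintro ⟨⟨⟨h1, h2⟩, h3⟩, h4⟩
        have h5 := (hlt b p h1).2 h2
        have h6 : a ≤ Real.log (p : ℝ) := by
          by_contra hcon
          push Not at hcon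
          exact h4 ⟨⟨h1, (hlt a p h1).1 hcon⟩, h3⟩
        have hp0 : (0 : ℝ) < p := by exact_mod_cast h1
        refine ⟨⟨⟨?_, ?_⟩, h3⟩, h6, h5⟩
        · have h7 : Real.log z0 ≤ Real.log p := ha.trans h6
          have h8 := (Real.log_le_log_iff hz0 hp0).1 h7
          exact_mod_cast h8
        · have h7 : Real.log p < Real.log R := h5.trans_le hb
          have hR0 : (0 : ℝ) < R := by
            by_contra hcon
            have : (R : ℝ) = 0 := le_antisymm (not_lt.1 hcon) (Nat.cast_nonneg R)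
            rw [this, Real.log_zero] at h7
            have := Real.log_natCast_nonneg p
            linarith
          have h8 := (Real.log_lt_log_iff hp0 hR0).1 h7
          exact_mod_cast h8
    have h8 : |∑ t ∈ univ.filter (fun t : Pz z0 R => a ≤ Real.log ((t : ℕ) : ℝ) ∧
        Real.log ((t : ℕ) : ℝ) < b), (1 / (((t : ℕ) : ℝ) - 1) - (1 : ℝ) / ((t : ℕ) : ℝ))| ≤ 1 / 50 := by
      rw [abs_of_nonneg (sum_nonneg fun t _ => (hν t).2.2.1)]
      calc _ ≤ ∑ t : Pz z0 R, (1 / (((t : ℕ) : ℝ) - 1) - (1 : ℝ) / ((t : ℕ) : ℝ)) :=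
            sum_le_sum_of_subset_of_nonneg (filter_subset _ _) (fun t _ _ => (hν t).2.2.1)
        _ ≤ ∑ t : Pz z0 R, 2 * (1 / ((t : ℕ) : ℝ) ^ 2) := sum_le_sum fun t _ => (hν t).2.2.2
        _ ≤ 2 * (2 / (z0 : ℝ)) := by rw [← mul_sum]; exact mul_le_mul_of_nonneg_left hsq (by norm_num)
        _ ≤ 1 / 50 := by
            rw [← mul_div_assoc, div_le_div_iff₀ hz0 (by norm_num)]; linarith
    rw [sum_sub_distrib, hS] at h8
    have hb0 : b ≠ 0 := by linarith
    have ha0 : a ≠ 0 := by linarith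
    rw [Real.log_div hb0 ha0]
    rw [abs_le] at ka kb h8 ⊢
    constructor <;> linarith [ka.1, ka.2, kb.1, kb.2, h8.1, h8.2]
  · calc ∑ t : Pz z0 R, (1 / (((t : ℕ) : ℝ) - 1)) ^ 2 ≤ ∑ t : Pz z0 R, 4 * (1 / ((t : ℕ) : ℝ) ^ 2) := by
          apply sum_le_sum
          intro t _
          have h1 := pow_le_pow_left₀ (hν t).1 (hν t).2.1 2
          refine h1.trans (le_of_eq ?_)
          rw [div_pow]; ring
      _ ≤ 4 * (2 / (z0 : ℝ)) := by rw [← mul_sum]; exact mul_le_mul_of_nonneg_left hsq (by norm_num)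
      _ ≤ 1 / 20 := by
          rw [← mul_div_assoc, div_le_div_iff₀ hz0 (by norm_num)]; linarith

/-- the small primes -/
theorem Wphi : ∃ c : ℝ, 0 < c ∧ ∃ z1 : ℕ, ∀ z0 : ℕ, z1 ≤ z0 →
    c * Real.log z0 ≤ (Wz z0 : ℝ) / Nat.totient (Wz z0) := by
  obtain ⟨M, hM⟩ := Pool.Agent.H305R2.mertens_inv_tendsto
  rw [Metric.tendsto_atTop] at hM
  obtain ⟨N0, hN0⟩ := hM 1 (by norm_num)
  refine ⟨Real.exp (M - 1) / 2, by positivity, max (N0 + 1) 4, fun z0 hz => ?_⟩
  have hz1 : N0 + 1 ≤ z0 := (le_max_left _ _).trans hz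
  have hz4 : 4 ≤ z0 := (le_max_right _ _).trans hz
  have h1 := hN0 (z0 - 1) (by omega)
  rw [Real.dist_eq, abs_lt] at h1
  have hφ : (Nat.totient (Wz z0) : ℝ) = ∏ p ∈ (range z0).filter Nat.Prime, ((p : ℝ) - 1) := by
    have h2 : ∀ A : Finset ℕ, (∀ p ∈ A, p.Prime) → (Nat.totient (∏ p ∈ A, p) : ℝ) =
        ∏ p ∈ A, ((p : ℝ) - 1) := by
      intro A
      induction A using Finset.induction_on with
      | empty => intro _; simp
      | insert q A hq ih =>
        intro hA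
        have hqp := hA q (mem_insert_self _ _)
        have hco : Nat.Coprime q (∏ p ∈ A, p) := by
          rw [Nat.Prime.coprime_iff_not_dvd hqp]
          intro h3
          obtain ⟨s, hs, h4⟩ := (Prime.dvd_finsetProd_iff hqp.prime _).1 h3
          have h5 := (Nat.prime_dvd_prime_iff_eq hqp (hA s (mem_insert_of_mem hs))).1 h4
          rw [h5] at hq
          exact hq hs
        rw [prod_insert hq, prod_insert hq, Nat.totient_mul hco, Nat.totient_prime hqp]
        push_cast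
        rw [ih (fun p hp => hA p (mem_insert_of_mem hp)), Nat.cast_sub hqp.one_lt.le]
        push_cast
        ring
    exact h2 _ (fun p hp => (mem_filter.1 hp).2)
  have hW : (Wz z0 : ℝ) = ∏ p ∈ (range z0).filter Nat.Prime, (p : ℝ) := by
    unfold Wz; push_cast; rfl
  have hset : (Icc 1 (z0 - 1)).filter Nat.Prime = (range z0).filter Nat.Prime := by
    ext p
    simp only [mem_filter, mem_Icc, mem_range]
    constructor
    · rintro ⟨⟨h3, h4⟩, h5⟩
      exact ⟨by omega, h5⟩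
    · rintro ⟨h3, h5⟩
      exact ⟨⟨h5.one_lt.le, by omega⟩, h5⟩
  rw [hset] at h1
  rw [hφ, hW, ← prod_div_distrib]
  have h2 : Real.exp (∑ p ∈ (range z0).filter Nat.Prime, (1 : ℝ) / p) ≤
      ∏ p ∈ (range z0).filter Nat.Prime, (p : ℝ) / ((p : ℝ) - 1) := by
    rw [Real.exp_sum]
    apply Finset.prod_le_prod
    · intro p _; exact (Real.exp_pos _).le
    · intro p hp
      have hp2 : (2 : ℝ) ≤ p := by exact_mod_cast (mem_filter.1 hp).2.two_le
      have h3 := Real.one_sub_div_pow_le_exp_neg (n := 1) (t := 1 / (p : ℝ)) (by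
        rw [Nat.cast_one, div_le_one (by linarith)]; linarith)
      simp only [Nat.cast_one, div_one, pow_one] at h3
      have h4 : 0 < 1 - 1 / (p : ℝ) := by
        have : 1 / (p : ℝ) ≤ 1 / 2 := one_div_le_one_div_of_le (by norm_num) hp2
        linarith
      have h5 : Real.exp (1 / (p : ℝ)) ≤ (1 - 1 / (p : ℝ))⁻¹ := by
        rw [Real.exp_neg] at h3
        exact (le_inv_comm₀ h4 (Real.exp_pos _)).1 h3
      refine h5.trans (le_of_eq ?_)
      have h6 : (p : ℝ) - 1 ≠ 0 := by linarith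
      have h7 : (p : ℝ) ≠ 0 := by linarith
      rw [inv_eq_iff_eq_inv, inv_div]
      field_simp
  refine le_trans ?_ h2
  have h3 : Real.log (Real.log ((z0 - 1 : ℕ) : ℝ)) + (M - 1) ≤
      ∑ p ∈ (range z0).filter Nat.Prime, (1 : ℝ) / p := by linarith [h1.1]
  refine le_trans ?_ (Real.exp_le_exp.2 h3)
  have hz3 : (3 : ℝ) ≤ ((z0 - 1 : ℕ) : ℝ) := by
    have : 3 ≤ z0 - 1 := by omega
    exact_mod_cast this
  have hl0 : 0 < Real.log ((z0 - 1 : ℕ) : ℝ) := Real.log_pos (by linarith)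
  rw [Real.exp_add, Real.exp_log hl0]
  have h4 : Real.log z0 ≤ 2 * Real.log ((z0 - 1 : ℕ) : ℝ) := by
    have h5 : Real.log ((((z0 - 1 : ℕ) : ℝ)) ^ 2) = 2 * Real.log ((z0 - 1 : ℕ) : ℝ) := by
      rw [Real.log_pow]; norm_num
    rw [← h5]
    have h6 : (z0 : ℝ) = ((z0 - 1 : ℕ) : ℝ) + 1 := by
      rw [Nat.cast_sub (by omega)]; push_cast; ring
    apply Real.log_le_log
    · rw [h6]; linarith
    · rw [h6]; nlinarith
  calc Real.exp (M - 1) / 2 * Real.log z0 ≤ Real.exp (M - 1) / 2 * (2 * Real.log ((z0 - 1 : ℕ) : ℝ)) :=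
        mul_le_mul_of_nonneg_left h4 (by positivity)
    _ = _ := by ring

theorem Wz_le (z0 : ℕ) : Wz z0 ≤ 4 ^ z0 := by
  unfold Wz
  rcases Nat.eq_zero_or_pos z0 with h | h
  · subst h; simp
  · have h1 : (range z0).filter Nat.Prime = (range (z0 - 1 + 1)).filter Nat.Prime := by
      rw [Nat.sub_add_cancel h]
    rw [h1]
    have h2 := primorial_le_four_pow (z0 - 1)
    unfold primorial at h2
    exact h2.trans (Nat.pow_le_pow_right (by norm_num) (by omega))

end Pool.Agent.H43.BC
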