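import Pool.Agent.H43.BC.F4

set_option autoImplicit false
set_option linter.unusedSectionVars false

/-! Concentration. -/

namespace Pool.Agent.H43.BC

open Finset

theorem conc {α : Type} (N : Finset α) (G : ℕ) (w : ℕ → α → ℝ) (c κ e0 e1 e2 D : ℝ) (hc : 0 < c)
    (hκ : 0 ≤ κ) (he2 : 0 ≤ e2) (hN : (N.card : ℝ) ≤ κ + e0)
    (h1 : ∀ g ∈ range G, κ * c - e1 ≤ ∑ n ∈ N, w g n)
    (h2 : ∀ g ∈ range G, ∀ g' ∈ range G, g ≠ g' → ∑ n ∈ N, w g n * w g' n ≤ κ * c ^ 2 + e2)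
    (h3 : ∀ g ∈ range G, ∑ n ∈ N, w g n * w g n ≤ D) :
    ∑ n ∈ N, (∑ g ∈ range G, w g n - G * c) ^ 2 ≤
      (G : ℝ) ^ 2 * (e2 + 2 * c * e1 + c ^ 2 * e0) + G * D := by
  have hexp : ∀ n, (∑ g ∈ range G, w g n - G * c) ^ 2 =
      ∑ g ∈ range G, ∑ g' ∈ range G, w g n * w g' n - 2 * (G * c) * ∑ g ∈ range G, w g n +
        (G * c) ^ 2 := by
    intro n
    rw [← sum_mul_sum]
    ring
  rw [sum_congr rfl (fun n _ => hexp n), sum_add_distrib, sum_sub_distrib]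
  have a1 : ∑ n ∈ N, ∑ g ∈ range G, ∑ g' ∈ range G, w g n * w g' n ≤
      (G : ℝ) ^ 2 * (κ * c ^ 2 + e2) + G * D := by
    rw [sum_comm]
    have b1 : ∀ g ∈ range G, ∑ n ∈ N, ∑ g' ∈ range G, w g n * w g' n ≤
        G * (κ * c ^ 2 + e2) + D := by
      intro g hg
      rw [sum_comm, ← add_sum_erase _ _ hg, add_comm]
      apply add_le_add _ (h3 g hg)
      have b2 : ∀ g' ∈ (range G).erase g, ∑ n ∈ N, w g n * w g' n ≤ κ * c ^ 2 + e2 := by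
        intro g' hg'
        rw [mem_erase] at hg'
        exact h2 g hg g' hg'.2 (Ne.symm hg'.1)
      refine (sum_le_card_nsmul _ _ _ b2).trans ?_
      rw [nsmul_eq_mul]
      apply mul_le_mul_of_nonneg_right _ (by positivity)
      have : ((range G).erase g).card ≤ G := by
        have := card_le_card (erase_subset g (range G))
        rwa [card_range] at this
      exact_mod_cast this
    refine (sum_le_card_nsmul _ _ _ b1).trans (le_of_eq ?_)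
    rw [card_range, nsmul_eq_mul]
    ring
  have a2 : (G : ℝ) * (κ * c - e1) ≤ ∑ n ∈ N, ∑ g ∈ range G, w g n := by
    rw [sum_comm]
    have := card_nsmul_le_sum (range G) (fun g => ∑ n ∈ N, w g n) (κ * c - e1) h1
    rw [card_range, nsmul_eq_mul] at this
    exact this
  have a3 : ∑ _n ∈ N, ((G : ℝ) * c) ^ 2 ≤ (κ + e0) * (G * c) ^ 2 := by
    rw [sum_const, nsmul_eq_mul]
    exact mul_le_mul_of_nonneg_right hN (sq_nonneg _)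
  have a4 : 2 * ((G : ℝ) * c) * ((G : ℝ) * (κ * c - e1)) ≤
      ∑ n ∈ N, 2 * (G * c) * ∑ g ∈ range G, w g n := by
    rw [← mul_sum]
    exact mul_le_mul_of_nonneg_left a2 (by positivity)
  nlinarith

theorem cheb {α : Type} (N : Finset α) (G : ℕ) (hG : 0 < G) (S : α → ℝ) (c V : ℝ) (hc : 0 < c)
    (hV : ∑ n ∈ N, (S n - G * c) ^ 2 ≤ V) (B : Finset α) (hB : B ⊆ N)
    (hB2 : ∀ n ∈ B, (G * c) / 2 ≤ |S n - G * c|) : (B.card : ℝ) * (G * c) ^ 2 ≤ 4 * V := by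
  have hG0 : (0 : ℝ) < G := by exact_mod_cast hG
  have h1 : (B.card : ℝ) * ((G * c) / 2) ^ 2 ≤ ∑ n ∈ B, (S n - G * c) ^ 2 := by
    rw [← nsmul_eq_mul]
    apply card_nsmul_le_sum
    intro n hn
    rw [← sq_abs (S n - G * c)]
    exact pow_le_pow_left₀ (by positivity) (hB2 n hn) 2
  have h2 : ∑ n ∈ B, (S n - G * c) ^ 2 ≤ ∑ n ∈ N, (S n - G * c) ^ 2 :=
    sum_le_sum_of_subset_of_nonneg hB (fun _ _ _ => sq_nonneg _)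
  have h3 : ((G * c) / 2) ^ 2 = (G * c) ^ 2 / 4 := by ring
  rw [h3] at h1
  linarith

/-- the full data -/
structure Sv (J : Type) [Fintype J] [DecidableEq J] extends Su J where
  h : J → ℕ
  i0 : ℕ
  G : ℕ
  z0 : ℕ
  Hm : ℕ
  C1 : ℝ
  θ : ℝ
  Ξ : ℝ
  hi0 : 1 ≤ i0
  hG0 : 1 ≤ G
  hHm : ∀ g < G, ∀ j, i0 + W * g + h j ≤ Hm
  hHm1 : 1 ≤ Hm
  hYH : (m2 + Hm) ^ 2 + A2 ≤ Y
  hcl : ∀ g < G, ∀ j, (vn W (i0 + W * g + h j) s0 r0).Coprime W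
  hGR : W * G ≤ R
  hGm : 2 * (W * G) * W ≤ mb
  hinj : ∀ j j', j ≠ j' → h j ≠ h j'
  hhW : ∀ j, h j < W
  hC1 : ∀ i : Option J, Wb (fun t : P => 1 / (((t : ℕ) : ℝ) - 1)) i (fun _ => 1) ≤
    C1 * Wb (fun t : P => 1 / (((t : ℕ) : ℝ) - 1)) i y
  hC11 : 1 ≤ C1
  hPz : P ⊆ Ico z0 R
  hWz : ∀ p : ℕ, p.Prime → ¬ p ∣ W → z0 ≤ p
  hz : 2 ≤ z0
  hΞ1 : 2 ^ (Fintype.card (Fin 1 × Bool × J)) *
      (4 ^ (Fintype.card (Fin 1 × J)) * (2 / (z0 : ℝ)) +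
        14 * ((Fintype.card (Fin 1 × J)) ^ 2 * (Real.log Hm / Real.log z0)) / (z0 : ℝ)) ≤ Real.log (1 + Ξ)
  hΞ2 : 2 ^ (Fintype.card (Fin 2 × Bool × J)) *
      (4 ^ (Fintype.card (Fin 2 × J)) * (2 / (z0 : ℝ)) +
        14 * ((Fintype.card (Fin 2 × J)) ^ 2 * (Real.log Hm / Real.log z0)) / (z0 : ℝ)) ≤ Real.log (1 + Ξ)
  hΞ0 : 0 ≤ Ξ
  hΞθ : C1 ^ 2 * Ξ ≤ θ
  hθ : θ ≤ 1 / 2
  hη : Real.log (W * G : ℕ) ≤ θ * (z0 * Real.log z0)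
  he0 : C1 ^ 2 * (((m2 : ℝ) - m1) + ((A2 : ℝ) - A1) + 1) ≤
    θ * (((m2 : ℝ) - m1) * ((A2 : ℝ) - A1) / (W : ℝ) ^ 2)
  herr0 : C1 ^ 2 * ((((m2 : ℝ) - m1) + ((A2 : ℝ) - A1) + 1) * (Q : ℝ) ^ 3) ≤
    θ * (((m2 : ℝ) - m1) * ((A2 : ℝ) - A1) / (W : ℝ) ^ 2)
  herr1 : C1 ^ 2 * (4 * ((m2 : ℝ) - m1) * EB + ((A2 : ℝ) - A1) * (Q : ℝ) ^ 2) ≤
    θ * (((m2 : ℝ) - m1) * ((A2 : ℝ) - A1) / (W : ℝ) ^ 2)
  herr2 : C1 ^ 2 * E2b ≤ θ * (((m2 : ℝ) - m1) * ((A2 : ℝ) - A1) / (W : ℝ) ^ 2)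
  hE2b0 : 0 ≤ E2b
  hEB : 0 ≤ EB
  hdiag : C1 ^ 2 * (Real.log Y * ((W : ℝ) / Nat.totient W *
      Real.exp (∑ t : P, 2 ^ (Fintype.card (Fin 2 × Bool × J)) * (12 / ((t : ℕ) : ℝ))) + 1)) ≤ θ * G
  hlogY : 1 ≤ Real.log Y

end Pool.Agent.H43.BC
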