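import Mathlib

set_option autoImplicit false
set_option linter.unusedSectionVars false

/-! Numerical bound for the average error. -/

namespace Pool.Agent.H43.BC

theorem avb_num (b e B2 a U : ℕ) (ha : a = b + e + B2 + 6) (hU : U = b + B2 + 4)
    (ℓ T X K L δ lY lY2 Q Dd G BSv V : ℝ) (hℓ : 5120 ≤ ℓ) (hT : ℓ ^ (a + B2 + 4) ≤ T) (hX : 0 ≤ X)
    (hδ0 : 0 < δ) (hδ : δ ≤ ℓ ^ (b + 3)) (hL0 : 0 < L) (hKge : ℓ ^ a ≤ K)
    (hKL : T ^ 250 ≤ K * L) (hKle : K ≤ ℓ ^ (a + 1)) (hQ0 : 0 ≤ Q) (hQ : Q ≤ T ^ 52)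
    (hD0 : 0 ≤ Dd) (hD : Dd ≤ T ^ 53) (hG0 : 0 ≤ G) (hG : G ≤ ℓ ^ (e + 1)) (hB0 : 0 ≤ BSv)
    (hBS : BSv ≤ 20 * X / ℓ ^ U) (hV : V ≤ 2 * (20 * X) * (2 * δ * L) ^ 2 / ℓ ^ (2 * a))
    (hlY0 : 0 ≤ lY) (hlY : lY ≤ 2 * ℓ) (hlY20 : 0 ≤ lY2) (hlY2 : lY2 ≤ 2 * ℓ) :
    4 * δ * (K * L) * BSv + 2 * ((20 * X) * lY) * (lY * (L * G + Q ^ 2) + 2 * δ * L * G) +
      8 * K * (20 * X) * lY * lY2 * (Dd * G + Q ^ 2) +
      4 * K * lY * ((2 * δ * L / ℓ ^ a) * (20 * X) * G + V / (2 * (2 * δ * L / ℓ ^ a))) ≤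
    X * (K * L) / ℓ ^ B2 := by
  have hℓ0 : 0 < ℓ := by linarith
  have hp1 : ∀ n : ℕ, 1 ≤ ℓ ^ n := fun n => one_le_pow₀ (by linarith)
  have hpm : ∀ m n : ℕ, m ≤ n → ℓ ^ m ≤ ℓ ^ n := fun m n h => pow_le_pow_right₀ (by linarith) h
  have hT1 : 1 ≤ T := (hp1 _).trans hT
  have hTm : ∀ m n : ℕ, m ≤ n → T ^ m ≤ T ^ n := fun m n h => pow_le_pow_right₀ hT1 h
  have hK0 : 0 < K := lt_of_lt_of_le (by positivity) hKge
  have hKL0 : 0 < K * L := mul_pos hK0 hL0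
  have key : ∀ c : ℝ, 0 ≤ c → c ≤ 1280 → ∀ n m : ℕ, n + B2 + 1 ≤ m →
      c * (X * (K * L)) * ℓ ^ n / ℓ ^ m ≤ (X * (K * L) / ℓ ^ B2) / 4 := by
    intro c hc0 hc n m hnm
    rw [div_div, div_le_div_iff₀ (by positivity) (by positivity)]
    calc c * (X * (K * L)) * ℓ ^ n * (ℓ ^ B2 * 4) = (4 * c) * (X * (K * L)) * ℓ ^ (n + B2) := by
          rw [pow_add]; ring
      _ ≤ ℓ * (X * (K * L)) * ℓ ^ (n + B2) := by
          have : 4 * c ≤ ℓ := by linarith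
          gcongr
      _ = (X * (K * L)) * ℓ ^ (n + B2 + 1) := by ring
      _ ≤ (X * (K * L)) * ℓ ^ m := mul_le_mul_of_nonneg_left (hpm _ _ hnm) (by positivity)
  have hLle : L ≤ K * L / ℓ ^ a := by
    rw [le_div_iff₀ (by positivity)]
    nlinarith
  have t1 : 4 * δ * (K * L) * BSv ≤ (X * (K * L) / ℓ ^ B2) / 4 := by
    calc 4 * δ * (K * L) * BSv ≤ 4 * ℓ ^ (b + 3) * (K * L) * (20 * X / ℓ ^ U) := by gcongr
      _ = 80 * (X * (K * L)) * ℓ ^ (b + 3) / ℓ ^ U := by ring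
      _ ≤ _ := key 80 (by norm_num) (by norm_num) (b + 3) U (by omega)
  have hQ2 : Q ^ 2 ≤ T ^ 104 := by
    calc Q ^ 2 ≤ (T ^ 52) ^ 2 := pow_le_pow_left₀ hQ0 hQ 2
      _ = _ := by ring
  have haT : ℓ ^ a ≤ T := (hpm _ _ (by omega)).trans hT
  have hT104 : T ^ 104 ≤ K * L / ℓ ^ a := by
    rw [le_div_iff₀ (by positivity)]
    calc T ^ 104 * ℓ ^ a ≤ T ^ 104 * T := mul_le_mul_of_nonneg_left haT (by positivity)
      _ = T ^ 105 := by ring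
      _ ≤ T ^ 250 := hTm _ _ (by norm_num)
      _ ≤ _ := hKL
  have t2 : 2 * ((20 * X) * lY) * (lY * (L * G + Q ^ 2) + 2 * δ * L * G) ≤
      (X * (K * L) / ℓ ^ B2) / 4 := by
    have s1 : L * G ≤ K * L / ℓ ^ a * ℓ ^ (e + 1) := by gcongr
    have s2 : Q ^ 2 ≤ K * L / ℓ ^ a * ℓ ^ (e + 1) := by
      calc Q ^ 2 ≤ K * L / ℓ ^ a := hQ2.trans hT104
        _ ≤ K * L / ℓ ^ a * ℓ ^ (e + 1) := le_mul_of_one_le_right (by positivity) (hp1 _)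
    obtain ⟨z, hz⟩ : ∃ z, z = K * L / ℓ ^ a * ℓ ^ (e + 1) := ⟨_, rfl⟩
    rw [← hz] at s1 s2
    have hz0 : 0 ≤ z := by rw [hz]; positivity
    have s3 : lY * (L * G + Q ^ 2) + 2 * δ * L * G ≤ 6 * ℓ ^ (b + 3) * z := by
      have s4 : 2 * ℓ ≤ 2 * ℓ ^ (b + 3) := by
        have := hpm 1 (b + 3) (by omega)
        rw [pow_one] at this
        linarith
      have s5 : lY * (L * G + Q ^ 2) ≤ (2 * ℓ ^ (b + 3)) * (z + z) := by
        apply mul_le_mul (hlY.trans s4) (add_le_add s1 s2) (by positivity) (by positivity)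
      have s6 : 2 * δ * L * G ≤ 2 * ℓ ^ (b + 3) * z := by
        calc 2 * δ * L * G = 2 * δ * (L * G) := by ring
          _ ≤ _ := by gcongr
      calc _ ≤ (2 * ℓ ^ (b + 3)) * (z + z) + 2 * ℓ ^ (b + 3) * z := add_le_add s5 s6
        _ = _ := by ring
    calc 2 * ((20 * X) * lY) * (lY * (L * G + Q ^ 2) + 2 * δ * L * G) ≤
          2 * ((20 * X) * (2 * ℓ)) * (6 * ℓ ^ (b + 3) * z) := by gcongr
      _ = 480 * (X * (K * L)) * ℓ ^ (b + e + 5) / ℓ ^ a := by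
          rw [hz, show b + e + 5 = 1 + (b + 3) + (e + 1) by ring, pow_add, pow_add, pow_one]
          ring
      _ ≤ _ := key 480 (by norm_num) (by norm_num) _ _ (by omega)
  have t3 : 8 * K * (20 * X) * lY * lY2 * (Dd * G + Q ^ 2) ≤ (X * (K * L) / ℓ ^ B2) / 4 := by
    have s1 : Dd * G ≤ T ^ 104 := by
      have : ℓ ^ (e + 1) ≤ T := (hpm _ _ (by omega)).trans hT
      calc Dd * G ≤ T ^ 53 * T := by
            apply mul_le_mul hD (hG.trans this) hG0 (by positivity)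
        _ = T ^ 54 := by ring
        _ ≤ _ := hTm _ _ (by norm_num)
    have s2 : 8 * K * (20 * X) * lY * lY2 * (Dd * G + Q ^ 2) ≤
        8 * K * (20 * X) * (2 * ℓ) * (2 * ℓ) * (T ^ 104 + T ^ 104) := by gcongr
    refine s2.trans ?_
    rw [div_div, le_div_iff₀ (by positivity)]
    calc 8 * K * (20 * X) * (2 * ℓ) * (2 * ℓ) * (T ^ 104 + T ^ 104) * (ℓ ^ B2 * 4) =
          5120 * K * ℓ ^ (B2 + 2) * (X * T ^ 104) := by rw [pow_add]; ring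
      _ ≤ ℓ * ℓ ^ (a + 1) * ℓ ^ (B2 + 2) * (X * T ^ 104) := by gcongr
      _ = ℓ ^ (a + B2 + 4) * (X * T ^ 104) := by ring
      _ ≤ T * (X * T ^ 104) := mul_le_mul_of_nonneg_right hT (by positivity)
      _ = X * T ^ 105 := by ring
      _ ≤ X * (K * L) := mul_le_mul_of_nonneg_left ((hTm _ _ (by norm_num)).trans hKL) hX
  have t4 : 4 * K * lY * ((2 * δ * L / ℓ ^ a) * (20 * X) * G + V / (2 * (2 * δ * L / ℓ ^ a))) ≤
      (X * (K * L) / ℓ ^ B2) / 4 := by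
    have s1 : V / (2 * (2 * δ * L / ℓ ^ a)) ≤ (2 * δ * L / ℓ ^ a) * (20 * X) := by
      rw [div_le_iff₀ (by positivity)]
      refine hV.trans (le_of_eq ?_)
      rw [show 2 * a = a + a by ring, pow_add]
      field_simp
    have s2 : (2 * δ * L / ℓ ^ a) * (20 * X) * G + V / (2 * (2 * δ * L / ℓ ^ a)) ≤
        (2 * δ * L / ℓ ^ a) * (20 * X) * (2 * ℓ ^ (e + 1)) := by
      have s3 : (2 * δ * L / ℓ ^ a) * (20 * X) * G ≤ (2 * δ * L / ℓ ^ a) * (20 * X) * ℓ ^ (e + 1) := by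
        gcongr
      have s4 : (2 * δ * L / ℓ ^ a) * (20 * X) ≤ (2 * δ * L / ℓ ^ a) * (20 * X) * ℓ ^ (e + 1) :=
        le_mul_of_one_le_right (by positivity) (hp1 _)
      linarith
    calc 4 * K * lY * ((2 * δ * L / ℓ ^ a) * (20 * X) * G + V / (2 * (2 * δ * L / ℓ ^ a))) ≤
          4 * K * lY * ((2 * δ * L / ℓ ^ a) * (20 * X) * (2 * ℓ ^ (e + 1))) :=
          mul_le_mul_of_nonneg_left s2 (by positivity)
      _ ≤ 4 * K * (2 * ℓ) * ((2 * ℓ ^ (b + 3) * L / ℓ ^ a) * (20 * X) * (2 * ℓ ^ (e + 1))) := by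
          gcongr
      _ = 640 * (X * (K * L)) * ℓ ^ (b + e + 5) / ℓ ^ a := by
          rw [show b + e + 5 = 1 + (b + 3) + (e + 1) by ring, pow_add, pow_add, pow_one]
          ring
      _ ≤ _ := key 640 (by norm_num) (by norm_num) _ _ (by omega)
  linarith

end Pool.Agent.H43.BC
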