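import Pool.Agent.H43.BC.F8b

set_option autoImplicit false
set_option linter.unusedSectionVars false

/-! The theorem for a class. -/

namespace Pool.Agent.H43.BC

open Finset Filter
open Pool.Agent.R498.MT (lz MerS gp)

theorem evt_z (n1 n2 : ℕ) (c lam : ℝ) (hc : 0 ≤ c) (hlam : 0 < lam) : ∃ z1 : ℕ, ∀ z0 : ℕ, z1 ≤ z0 →
    ∀ Lh : ℝ, 0 ≤ Lh → Lh ≤ c * z0 →
    2 ^ n1 * (4 ^ n2 * (2 / (z0 : ℝ)) + 14 * ((n2 : ℝ) ^ 2 * (Lh / Real.log z0)) / (z0 : ℝ)) ≤ lam := by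
  obtain ⟨z1, hz1⟩ := eventually_atTop.1 ((evt_log_ge (2 ^ n1 * (28 * (n2 : ℝ) ^ 2 * c) / lam + 1)).and
    ((tendsto_natCast_atTop_atTop (R := ℝ)).eventually (eventually_ge_atTop (2 ^ n1 * (4 ^ n2 * 4) / lam + 1))))
  refine ⟨z1, fun z0 hz Lh hL0 hL => ?_⟩
  obtain ⟨g1, g2⟩ := hz1 z0 hz
  have p1 : 0 ≤ 2 ^ n1 * (28 * (n2 : ℝ) ^ 2 * c) / lam := by positivity
  have p2 : (0 : ℝ) ≤ 2 ^ n1 * (4 ^ n2 * 4) / lam := by positivity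
  have hl : 0 < Real.log z0 := by linarith
  have hz0 : (0 : ℝ) < z0 := by linarith
  have e1 : 2 ^ n1 * (4 ^ n2 * (2 / (z0 : ℝ))) ≤ lam / 2 := by
    have h1 : 2 ^ n1 * (4 ^ n2 * (4 : ℝ)) ≤ lam * z0 := by
      have := mul_le_mul_of_nonneg_left (show 2 ^ n1 * (4 ^ n2 * (4 : ℝ)) / lam ≤ z0 by linarith) hlam.le
      rw [mul_div_cancel₀ _ hlam.ne'] at this
      exact this
    have h2 : 2 ^ n1 * (4 ^ n2 * (2 / (z0 : ℝ))) = (2 ^ n1 * (4 ^ n2 * (4 : ℝ))) / z0 / 2 := by ring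
    rw [h2]
    have h3 : (2 ^ n1 * (4 ^ n2 * (4 : ℝ))) / z0 ≤ lam := by rw [div_le_iff₀ hz0]; exact h1
    linarith
  have e2 : 2 ^ n1 * (14 * ((n2 : ℝ) ^ 2 * (Lh / Real.log z0)) / (z0 : ℝ)) ≤ lam / 2 := by
    have h1 : 2 ^ n1 * (28 * (n2 : ℝ) ^ 2 * c) ≤ lam * Real.log z0 := by
      have := mul_le_mul_of_nonneg_left (show 2 ^ n1 * (28 * (n2 : ℝ) ^ 2 * c) / lam ≤ Real.log z0 by
        linarith) hlam.le
      rw [mul_div_cancel₀ _ hlam.ne'] at this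
      exact this
    have h2 : 2 ^ n1 * (14 * ((n2 : ℝ) ^ 2 * (Lh / Real.log z0)) / (z0 : ℝ)) =
        2 ^ n1 * (14 * (n2 : ℝ) ^ 2) * (Lh / z0) / Real.log z0 := by
      field_simp
    have h3 : Lh / z0 ≤ c := by rw [div_le_iff₀ hz0]; exact hL
    rw [h2, div_le_iff₀ hl]
    calc 2 ^ n1 * (14 * (n2 : ℝ) ^ 2) * (Lh / z0) ≤ 2 ^ n1 * (14 * (n2 : ℝ) ^ 2) * c := by gcongr
      _ = (2 ^ n1 * (28 * (n2 : ℝ) ^ 2 * c)) / 2 := by ring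
      _ ≤ (lam * Real.log z0) / 2 := by linarith
      _ = _ := by ring
  calc _ = 2 ^ n1 * (4 ^ n2 * (2 / (z0 : ℝ))) +
        2 ^ n1 * (14 * ((n2 : ℝ) ^ 2 * (Lh / Real.log z0)) / (z0 : ℝ)) := by ring
    _ ≤ _ := by linarith

theorem zX_evt (z1 : ℕ) : ∃ X1 : ℕ, ∀ X : ℕ, X1 ≤ X → z1 ≤ zX X := by
  obtain ⟨X1, hX1⟩ := eventually_atTop.1 (evt_log_ge (Real.exp z1))
  refine ⟨X1, fun X hX => ?_⟩
  have h1 := hX1 X hX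
  unfold zX
  apply Nat.le_floor
  have h2 := Real.log_le_log (Real.exp_pos _) h1
  rwa [Real.log_exp] at h2

end Pool.Agent.H43.BC
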